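import Pool.Agent.Work.MP_a23c49_sub.Interface2

/-! # Block APR (helper96) -/

namespace Pool.Agent.Work.MP_a23c49_sub

open Matrix Finset
open Pool.Agent.Work.MP_a23c49_lc (LS Ind prune grd lg TL)
open Pool.Agent.Work.TMLib (DE PolyF)

theorem APR_memb (u : ℕ) (V : List ℕ) : memb u V = true ↔ u ∈ V := by
  unfold memb
  rw [Bool.not_eq_true', ← Bool.not_eq_true, List.all_eq_true]
  push Not
  constructor
  · rintro ⟨v, hv, h⟩
    have : v = u := by simpa using h
    exact this ▸ hv
  · intro h
    exact ⟨u, h, by simp⟩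

theorem APR_lv (n : ℕ) (f : ℕ → ℕ) (u : ℕ) (hu : u < n) : (lv n f).getD u 0 = f u := by
  unfold lv
  rw [List.getD_eq_getElem?_getD, List.getElem?_map, List.getElem?_range hu]
  rfl

theorem APR_fin (n : ℕ) (S : Finset ℕ) (hS : ∀ v ∈ S, v < n) (F : ℕ → ℝ) :
    ∑ v : Fin n, (if v.val ∈ S then F v.val else 0) = ∑ v ∈ S, F v := by
  rw [Fin.sum_univ_eq_sum_range (fun v => if v ∈ S then F v else 0) n, ← Finset.sum_filter]
  refine Finset.sum_congr ?_ fun _ _ => rfl
  ext v
  rw [Finset.mem_filter, Finset.mem_range]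
  exact ⟨fun h => h.2, fun h => ⟨hS v h, h⟩⟩

/-- the matrix product -/
theorem APR_mul (T : ℕ → ℕ → ℕ → Bool) (n L s : ℕ) (S : Finset ℕ) (W : Fin s → ℕ)
    (hS : ∀ v ∈ S, v < n) (z : Fin n → ℝ) (zf : ℕ → ℝ) (hz : ∀ v, z v = zf v.val) (u : Fin n) :
    (Mm T n S L s W *ᵥ z) u = if u.val ∈ S then
      (∑ i, ∑ v ∈ S, (if T u.val v (W i) = true then zf v else 0)) / (s * L) else 0 := by
  unfold Mm
  rw [Matrix.smul_mulVec, Pi.smul_apply, Matrix.sum_mulVec, Finset.sum_apply]
  have h1 : ∀ i, (Tm T n S L (W i) *ᵥ z) u = if u.val ∈ S then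
      (∑ v ∈ S, (if T u.val v (W i) = true then zf v else 0)) / L else 0 := by
    intro i
    unfold Matrix.mulVec dotProduct Tm
    by_cases hu : u.val ∈ S
    · rw [if_pos hu, ← APR_fin n S hS, Finset.sum_div]
      refine Finset.sum_congr rfl fun v _ => ?_
      show (if u.val ∈ S ∧ v.val ∈ S ∧ T u.val v.val (W i) = true then 1 / (L : ℝ) else 0) * z v
        = (if v.val ∈ S then (if T u.val v.val (W i) = true then zf v.val else 0) else 0) / L
      by_cases hv : v.val ∈ S
      · by_cases hT : T u.val v.val (W i) = true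
        · rw [if_pos ⟨hu, hv, hT⟩, if_pos hv, if_pos hT, hz v]
          ring
        · rw [if_neg (fun h => hT h.2.2), if_pos hv, if_neg hT]
          ring
      · rw [if_neg (fun h => hv h.2.1), if_neg hv]
        ring
    · rw [if_neg hu]
      refine Finset.sum_eq_zero fun v _ => ?_
      show (if u.val ∈ S ∧ v.val ∈ S ∧ T u.val v.val (W i) = true then 1 / (L : ℝ) else 0) * z v
        = 0
      rw [if_neg (fun h => hu h.1), zero_mul]
  simp only [h1]
  by_cases hu : u.val ∈ S
  · simp only [if_pos hu]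
    rw [← Finset.sum_div, smul_eq_mul]
    rw [one_div, mul_comm (s : ℝ) (L : ℝ), div_mul_eq_div_div, div_eq_mul_inv _ (s : ℝ)]
    ring
  · simp only [if_neg hu]
    simp

theorem APR_cnt (T : ℕ → ℕ → ℕ → Bool) (s : ℕ) (V : List ℕ) (hV : V.Nodup) (W : Fin s → ℕ)
    (z : List ℕ) (u : ℕ) : (cnt T V (List.ofFn W) z u : ℝ) =
      ∑ i, ∑ v ∈ V.toFinset, (if T u v (W i) = true then (z.getD v 0 : ℝ) else 0) := by
  unfold cnt
  rw [List.map_ofFn, List.sum_ofFn]
  push_cast
  refine Finset.sum_congr rfl fun i _ => ?_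
  rw [Function.comp_apply, ← List.sum_toFinset _ hV]
  push_cast
  refine Finset.sum_congr rfl fun v _ => ?_
  cases T u v (W i) <;> simp

theorem stmt_APR : Stmt_APR := by
  intro T n L s V W _ hV hVn hL hs
  have hS : ∀ v ∈ V.toFinset, v < n := fun v hv => hVn v (List.mem_toFinset.mp hv)
  have hd : 0 < s * L := Nat.mul_pos hs hL
  have hdr : (0 : ℝ) < ((s * L : ℕ) : ℝ) := by exact_mod_cast hd
  constructor
  · intro z u
    have h1 := APR_mul T n L s V.toFinset W hS (fun v => (z.getD v.val 0 : ℝ))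
      (fun v => (z.getD v 0 : ℝ)) (fun v => rfl) u
    rw [h1]
    have h2 : (mulL T n V (List.ofFn W) (s * L) z).getD u.val 0 =
        bif memb u.val V then cnt T V (List.ofFn W) z u.val / (s * L) else 0 :=
      APR_lv n _ u.val u.2
    rw [h2]
    by_cases hu : u.val ∈ V
    · rw [(APR_memb _ _).mpr hu, cond_true, if_pos (List.mem_toFinset.mpr hu), ← APR_cnt T s V hV W z]
      have h3 : ((s : ℝ) * L) = ((s * L : ℕ) : ℝ) := by push_cast; rfl
      rw [h3]
      constructor
      · exact Nat.cast_div_le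
      · rw [div_le_iff₀ hdr]
        have h4 := Nat.div_add_mod (cnt T V (List.ofFn W) z u.val) (s * L)
        have h5 := Nat.mod_lt (cnt T V (List.ofFn W) z u.val) hd
        have h6 : cnt T V (List.ofFn W) z u.val ≤
            (cnt T V (List.ofFn W) z u.val / (s * L) + 1) * (s * L) := by
          rw [add_mul, one_mul, mul_comm (_ / _)]
          omega
        exact_mod_cast h6
    · have h3 : memb u.val V = false := by
        rw [← Bool.not_eq_true, APR_memb]
        exact hu
      rw [h3, cond_false, if_neg (fun h => hu (List.mem_toFinset.mp h))]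
      simp
  · intro B hB hBV u hu
    have h1 := APR_mul T n L s V.toFinset W hS (ind n B.toFinset)
      (fun v => if v ∈ B.toFinset then 1 else 0) (fun v => rfl) u
    rw [h1, if_pos (List.mem_toFinset.mpr hu), APR_cnt T s B hB W]
    congr 1
    refine Finset.sum_congr rfl fun i _ => ?_
    have hsub : B.toFinset ⊆ V.toFinset := fun v hv =>
      List.mem_toFinset.mpr (hBV v (List.mem_toFinset.mp hv))
    rw [← Finset.sum_subset hsub]
    · refine Finset.sum_congr rfl fun v hv => ?_
      have hvn : v < n := hS v (hsub hv)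
      rw [if_pos hv, APR_lv n _ v hvn, Nat.cast_one]
    · intro v _ hv
      rw [if_neg hv]
      split_ifs <;> rfl

end Pool.Agent.Work.MP_a23c49_sub
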