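import Pool.Agent.Work.MP_a23c49_sub.Interface1

namespace Pool.Agent.Work.MP_a23c49_sub

open Matrix Finset

section
variable {ι κ : Type} [Fintype ι] [DecidableEq ι]

omit [DecidableEq ι] in
theorem CNC_smul (a : ℝ) (x : ι → ℝ) : nsq (a • x) = a ^ 2 * nsq x := by
  simp [nsq, mul_pow, Finset.mul_sum]

omit [DecidableEq ι] in
theorem CNC_sub (x y : ι → ℝ) : nsq (x - y) ≤ 2 * nsq x + 2 * nsq y := by
  simp only [nsq, Finset.mul_sum, ← Finset.sum_add_distrib]
  refine Finset.sum_le_sum fun i _ => ?_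
  simp only [Pi.sub_apply]
  nlinarith [sq_nonneg (x i + y i)]

end

theorem stmt_CNC (hMOM : Stmt_MOM) (hTRB : Stmt_TRB) : Stmt_CNC := by
  intro ι κ _ _ _ _ _ T hT h1 s r hs hr hcard
  set N : ℝ := (Fintype.card κ : ℝ) with hN
  have hNpos : 0 < N := by rw [hN]; exact_mod_cast Fintype.card_pos
  have hspos : (0 : ℝ) < s := by exact_mod_cast hs
  have hrpos : (1 : ℝ) ≤ r := by exact_mod_cast hr
  set m : Matrix ι ι ℝ := (1 / N) • ∑ a, T a with hm
  set X : κ → Matrix ι ι ℝ := fun a => T a - m with hX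
  have hmT : mᵀ = m := by
    rw [hm, Matrix.transpose_smul, Matrix.transpose_sum]
    congr 1
    exact Finset.sum_congr rfl fun a _ => hT a
  have hXT : ∀ a, (X a)ᵀ = X a := by
    intro a
    simp only [hX, Matrix.transpose_sub, hT, hmT]
  have hX0 : ∑ a, X a = 0 := by
    simp only [hX, Finset.sum_sub_distrib, Finset.sum_const, Finset.card_univ, hm]
    rw [← Nat.cast_smul_eq_nsmul ℝ, smul_smul, ← hN, mul_one_div_cancel hNpos.ne', one_smul,
      sub_self]
  have hX4 : ∀ a b, Con 4 (X a - X b) := by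
    intro a b x
    have e : X a - X b = T a - T b := by simp only [hX]; abel
    rw [e, Matrix.sub_mulVec]
    have := CNC_sub (T a *ᵥ x) (T b *ᵥ x)
    have ea := h1 a x
    have eb := h1 b x
    linarith
  set S : (Fin s → κ) → Matrix ι ι ℝ := fun w => ∑ i, X (w i) with hS
  set n : ℝ := (Fintype.card ι : ℝ) with hn
  have hn0 : 0 ≤ n := by positivity
  have hmom : ∀ k : ℕ, k ≤ r →
      ∑ w : Fin s → κ, trace (S w ^ (2 * k)) ≤ (8 * s * r) ^ k * (n * N ^ s) := by
    intro k
    induction k with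
    | zero =>
      intro _
      simp [hn, hN, mul_comm]
    | succ k ih =>
      intro hk
      have ih' := ih (by omega)
      have hM := hMOM ι κ X hXT hX0 hX4 s k
      have hk' : (k : ℝ) + 1 ≤ r := by exact_mod_cast hk
      calc ∑ w : Fin s → κ, trace (S w ^ (2 * (k + 1)))
          ≤ 4 * s * (2 * k + 1) * ∑ w : Fin s → κ, trace (S w ^ (2 * k)) := hM
        _ ≤ 4 * s * (2 * k + 1) * ((8 * s * r) ^ k * (n * N ^ s)) :=
            mul_le_mul_of_nonneg_left ih' (by positivity)
        _ ≤ (8 * s * r) * ((8 * s * r) ^ k * (n * N ^ s)) := by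
            refine mul_le_mul_of_nonneg_right ?_ (by positivity)
            nlinarith
        _ = (8 * s * r) ^ (k + 1) * (n * N ^ s) := by ring
  have hex : ∃ w : Fin s → κ, trace (S w ^ (2 * r)) ≤ (8 * s * r) ^ r * n := by
    by_contra hcon
    push Not at hcon
    have h2 : ∑ _w : Fin s → κ, (8 * (s : ℝ) * r) ^ r * n < ∑ w : Fin s → κ, trace (S w ^ (2 * r)) :=
      Finset.sum_lt_sum_of_nonempty Finset.univ_nonempty fun w _ => hcon w
    rw [Finset.sum_const, Finset.card_univ, Fintype.card_pi, Finset.prod_const, Finset.card_univ,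
      Fintype.card_fin, nsmul_eq_mul] at h2
    push_cast at h2
    rw [← hN] at h2
    have h3 := hmom r le_rfl
    nlinarith
  obtain ⟨w, hw⟩ := hex
  refine ⟨w, ?_⟩
  have hST : (S w)ᵀ = S w := by
    simp only [hS, Matrix.transpose_sum]
    exact Finset.sum_congr rfl fun i _ => hXT _
  have hn2 : n ≤ 2 ^ r := by rw [hn]; exact_mod_cast hcard
  have htr : trace (S w ^ (2 * r)) ≤ (16 * s * r : ℝ) ^ r := by
    refine hw.trans ?_
    calc (8 * s * r : ℝ) ^ r * n ≤ (8 * s * r) ^ r * 2 ^ r :=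
          mul_le_mul_of_nonneg_left hn2 (by positivity)
      _ = (16 * s * r : ℝ) ^ r := by rw [← mul_pow]; ring
  have hcon := hTRB ι (S w) r (16 * s * r) hST hr (by positivity) htr
  have heq : (1 / (s : ℝ)) • ∑ i, T (w i) - m = (1 / (s : ℝ)) • S w := by
    simp only [hS, hX, Finset.sum_sub_distrib, Finset.sum_const, Finset.card_univ,
      Fintype.card_fin]
    rw [smul_sub, ← Nat.cast_smul_eq_nsmul ℝ, smul_smul, one_div_mul_cancel hspos.ne', one_smul]
  rw [heq]
  intro x
  rw [Matrix.smul_mulVec, CNC_smul]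
  have h5 := hcon x
  calc (1 / (s : ℝ)) ^ 2 * nsq (S w *ᵥ x) ≤ (1 / (s : ℝ)) ^ 2 * (16 * s * r * nsq x) :=
        mul_le_mul_of_nonneg_left h5 (by positivity)
    _ = 16 * r / s * nsq x := by field_simp

end Pool.Agent.Work.MP_a23c49_sub
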