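import Pool.Agent.Work.MP_a23c49_sub.Interface2

/-!
# Block COR: a good guess exists when the optimum is large
-/

namespace Pool.Agent.Work.MP_a23c49_sub

open Matrix Finset
open Pool.Agent.Work.MP_a23c49_lc (LS Ind prune grd lg TL prune_sub prune_cod prune_loss)

theorem COR_getD_lv (n : ℕ) (f : ℕ → ℕ) {u : ℕ} (hu : u < n) : (lv n f).getD u 0 = f u := by
  unfold lv
  rw [List.getD_eq_getElem _ _ (by simpa using hu)]
  simp

theorem COR_gB3_congr (T : ℕ → ℕ → ℕ → Bool) (n : ℕ) {g g' : List ℕ}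
    (h0 : g.getD 0 0 = g'.getD 0 0) (h1 : g.getD 1 0 = g'.getD 1 0) (hW : gW n g = gW n g')
    (hR : gR n g = gR n g') : gB3 T n g = gB3 T n g' := by
  have hM : gM T n g = gM T n g' := by
    funext z
    simp only [gM, gV, h0, hW]
  have hZ : gZ T n g = gZ T n g' := by
    simp only [gZ, h0, hR, hM]
  have hB1 : gB1 T n g = gB1 T n g' := by
    simp only [gB1, gV, h0, h1, hM, hZ]
  have hB2 : gB2 T n g = gB2 T n g' := by
    simp only [gB2, h0, hW, hB1]
  simp only [gB3, h0, hB2]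

/-- the guess with given data -/
def COR_mk {s k : ℕ} (Δ α p a b c J : ℕ) (W : Fin s → ℕ) (R : Fin k → ℕ) : List ℕ :=
  Δ :: α :: p :: a :: b :: c :: J :: (List.ofFn W ++ List.ofFn R)

theorem COR_mk_W (n Δ α p a b c J : ℕ) (W : Fin (ps n Δ) → ℕ) (R : Fin (pk n Δ) → ℕ) :
    gW n (COR_mk Δ α p a b c J W R) = List.ofFn W := by
  have h0 : (COR_mk Δ α p a b c J W R).getD 0 0 = Δ := rfl
  unfold gW
  rw [h0]
  apply List.ext_getElem
  · simp
  · intro i h1 h2
    simp only [List.length_map, List.length_range] at h1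
    simp only [List.getElem_map, List.getElem_range]
    have e : (COR_mk Δ α p a b c J W R).getD (7 + i) 0 =
        (List.ofFn W ++ List.ofFn R).getD i 0 := by
      rw [Nat.add_comm 7 i]; rfl
    rw [e, List.getD_eq_getElem _ _ (by simp; omega), List.getElem_append_left (by simpa using h1)]

theorem COR_mk_R (n Δ α p a b c J : ℕ) (W : Fin (ps n Δ) → ℕ) (R : Fin (pk n Δ) → ℕ) :
    gR n (COR_mk Δ α p a b c J W R) = List.ofFn R := by
  have h0 : (COR_mk Δ α p a b c J W R).getD 0 0 = Δ := rfl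
  unfold gR
  rw [h0]
  apply List.ext_getElem
  · simp
  · intro i h1 h2
    simp only [List.length_map, List.length_range] at h1
    simp only [List.getElem_map, List.getElem_range]
    have e : (COR_mk Δ α p a b c J W R).getD (7 + ps n Δ + i) 0 =
        (List.ofFn W ++ List.ofFn R).getD (ps n Δ + i) 0 := by
      rw [show 7 + ps n Δ + i = (ps n Δ + i) + 7 by ring]; rfl
    rw [e, List.getD_eq_getElem _ _ (by simp; omega),
      List.getElem_append_right (by simp)]
    simp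

theorem COR_pairs_eq (T : ℕ → ℕ → ℕ → Bool) (B : List ℕ) (hB : B.Nodup) (u : ℕ) :
    degL T B u = pairs T B.toFinset B.toFinset u := by
  unfold degL pairs
  have h1 : ((B.toFinset ×ˢ B.toFinset).filter fun x => T u x.1 x.2 = true).card =
      ∑ v ∈ B.toFinset, (B.toFinset.filter fun w => T u v w = true).card := by
    rw [card_filter, sum_product]
    apply sum_congr rfl
    intro v _
    rw [card_filter]
  rw [h1, ← List.sum_toFinset _ hB]
  apply sum_congr rfl
  intro v _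
  have h2 : (B.toFinset.filter fun w => T u v w = true) = (B.filter fun w => T u v w).toFinset := by
    ext w; simp
  rw [h2, List.toFinset_card_of_nodup (hB.filter _)]

/-- the vector of the multiplicities has norm at most the number of samples -/
theorem COR_mul1_norm (n k : ℕ) (R : Fin k → ℕ) : √(nsq (mul1 n k R)) ≤ k := by
  have h1 : nsq (mul1 n k R) ≤ (k : ℝ) ^ 2 := by
    unfold nsq mul1
    have h2 : ∑ u : Fin n, ((univ.filter fun j => R j = u.val).card : ℝ) ^ 2 ≤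
        (∑ u : Fin n, ((univ.filter fun j => R j = u.val).card : ℝ)) ^ 2 := by
      rw [pow_two (∑ u : Fin n, _), sum_mul]
      apply sum_le_sum
      intro i _
      rw [pow_two]
      apply mul_le_mul_of_nonneg_left _ (Nat.cast_nonneg _)
      exact single_le_sum (f := fun u : Fin n => ((univ.filter fun j => R j = u.val).card : ℝ))
        (fun u _ => Nat.cast_nonneg _) (mem_univ i)
    refine h2.trans ?_
    have h3 : ∑ u : Fin n, ((univ.filter fun j => R j = u.val).card : ℝ) ≤ k := by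
      rw [← Nat.cast_sum]
      have h4 : ∑ u : Fin n, (univ.filter fun j => R j = u.val).card ≤ k := by
        have h5 : ∑ u : Fin n, (univ.filter fun j => R j = u.val).card =
            (univ.biUnion fun u : Fin n => univ.filter fun j => R j = u.val).card := by
          rw [card_biUnion]
          intro u _ v _ huv
          rw [Function.onFun, disjoint_left]
          intro j hj hj'
          rw [mem_filter] at hj hj'
          exact huv (Fin.ext (hj.2.symm.trans hj'.2))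
        rw [h5]
        exact (card_le_univ _).trans (by simp)
      exact_mod_cast h4
    exact pow_le_pow_left₀ (by positivity) h3 2
  calc √(nsq (mul1 n k R)) ≤ √((k : ℝ) ^ 2) := Real.sqrt_le_sqrt h1
    _ = k := Real.sqrt_sq (Nat.cast_nonneg k)

theorem COR_filter_ofFn {k : ℕ} (R : Fin k → ℕ) (u : ℕ) :
    ((List.ofFn R).filter fun r => decide (r = u)).length = (univ.filter fun j => R j = u).card := by
  have h1 : List.ofFn R = (List.finRange k).map R := List.ofFn_eq_map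
  rw [h1, List.filter_map, List.length_map]
  have h2 : (univ.filter fun j => R j = u) =
      ((List.finRange k).filter ((fun r => decide (r = u)) ∘ R)).toFinset := by
    ext j
    simp
  rw [h2, List.toFinset_card_of_nodup ((List.nodup_finRange k).filter _)]

theorem COR_sum_le {n : ℕ} (V : Finset ℕ) (hV : ∀ v ∈ V, v < n) (f : ℕ → ℝ) (F : Fin n → ℝ)
    (hF : ∀ u, 0 ≤ F u) (h : ∀ u : Fin n, u.val ∈ V → f u.val ≤ F u) :
    ∑ u ∈ V, f u ≤ ∑ u, F u := by
  have h1 : ∑ u ∈ V, f u = ∑ u : Fin n, if u.val ∈ V then f u.val else 0 := by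
    rw [Fin.sum_univ_eq_sum_range (fun v => if v ∈ V then f v else 0) n, ← sum_filter]
    apply sum_congr _ fun _ _ => rfl
    ext v
    simp only [mem_filter, Finset.mem_range]
    exact ⟨fun h => ⟨hV v h, h⟩, fun h => h.2⟩
  rw [h1]
  apply sum_le_sum
  intro u _
  split_ifs with hu
  · exact h u hu
  · exact hF u

theorem COR_nsq_smul {ι : Type} [Fintype ι] (c : ℝ) (x : ι → ℝ) : nsq (c • x) = c ^ 2 * nsq x := by
  unfold nsq
  rw [mul_sum]
  apply sum_congr rfl
  intro i _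
  simp only [Pi.smul_apply, smul_eq_mul]
  ring

theorem COR_nsq_nonneg {ι : Type} [Fintype ι] (x : ι → ℝ) : 0 ≤ nsq x :=
  sum_nonneg fun _ _ => sq_nonneg _

theorem COR_nsq_ind (n : ℕ) (B : Finset ℕ) : nsq (ind n B) ≤ n := by
  unfold nsq ind
  calc ∑ u : Fin n, (if u.val ∈ B then (1 : ℝ) else 0) ^ 2 ≤ ∑ _u : Fin n, (1 : ℝ) := by
        apply sum_le_sum
        intro u _
        split_ifs <;> norm_num
    _ = n := by simp

theorem COR_ell (n : ℕ) (hn : 3 ≤ n) : 1 ≤ ell n ∧ n ≤ 2 ^ ell n := by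
  unfold ell
  rw [Nat.size_eq_bits_len]
  refine ⟨?_, (Nat.lt_size_self n).le⟩
  have h := Nat.lt_size_self n
  by_contra h2
  have h3 : Nat.size n = 0 := by omega
  rw [h3] at h
  omega

theorem COR_pairs_mono (T : ℕ → ℕ → ℕ → Bool) {B C : Finset ℕ} (h : B ⊆ C) (u : ℕ) :
    pairs T B B u ≤ pairs T C C u := by
  unfold pairs
  apply card_le_card
  apply filter_subset_filter
  exact product_subset_product h h

/-- the numerical condition of the prunings -/
theorem COR_num {x α n m D : ℝ} (hx : 1 ≤ x) (hα : 0 < α) (hn : 0 < n) (hαn : n ≤ 2 * x ^ 2 * α)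
    (hD : D = 33554432 * x ^ 10) (hm : D ^ 3 ≤ m) :
    α / 16 + 10 * (4 / D) * n / (1 / (16384 * x ^ 8)) +
      4 * √(1 / (8 * m)) ^ 2 * n / (1 / (16384 * x ^ 8)) ^ 2 +
      2 * (4 * x ^ 2) * α * (1 / (16384 * x ^ 8)) * n / (n / (128 * x ^ 6)) ≤ α / 2 := by
  have hx0 : 0 < x := by linarith
  have hD1 : 33554432 ≤ D := by
    rw [hD]
    have : 1 ≤ x ^ 10 := one_le_pow₀ hx
    linarith
  have hD0 : 0 < D := by linarith
  have hm0 : 0 < m := lt_of_lt_of_le (by positivity) hm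
  have e1 : 10 * (4 / D) * n / (1 / (16384 * x ^ 8)) = 5 / 256 * (n / x ^ 2) := by
    rw [hD]; field_simp; ring
  have e3 : 2 * (4 * x ^ 2) * α * (1 / (16384 * x ^ 8)) * n / (n / (128 * x ^ 6)) = α / 16 := by
    field_simp; ring
  have e2 : 4 * √(1 / (8 * m)) ^ 2 * n / (1 / (16384 * x ^ 8)) ^ 2 =
      134217728 * x ^ 18 / m * (n / x ^ 2) := by
    rw [Real.sq_sqrt (by positivity)]
    field_simp
    ring
  have h1 : n / x ^ 2 ≤ 2 * α := by
    rw [div_le_iff₀ (by positivity)]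
    linarith
  have h2 : 134217728 * x ^ 18 / m ≤ 1 / 32 := by
    rw [div_le_div_iff₀ hm0 (by norm_num)]
    have h3 : x ^ 18 ≤ x ^ 30 := pow_le_pow_right₀ hx (by norm_num)
    have h4 : D ^ 3 = 33554432 ^ 3 * x ^ 30 := by rw [hD]; ring
    have h5 : (0 : ℝ) ≤ x ^ 30 := by positivity
    nlinarith
  have h3 : 0 ≤ n / x ^ 2 := by positivity
  have h4 : 134217728 * x ^ 18 / m * (n / x ^ 2) ≤ 1 / 32 * (2 * α) :=
    mul_le_mul h2 h1 h3 (by norm_num)
  rw [e1, e2, e3]
  linarith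

theorem COR_val_init (n N k : ℕ) (hN : 0 < N) (R : Fin k → ℕ) :
    val n N (lv n fun u => N * ((List.ofFn R).filter fun r => decide (r = u)).length,
      lv n fun _ => 0) = mul1 n k R := by
  funext u
  unfold val mul1
  simp only
  rw [COR_getD_lv n _ u.isLt, COR_getD_lv n _ u.isLt, COR_filter_ofFn]
  have : (N : ℝ) ≠ 0 := by exact_mod_cast hN.ne'
  push_cast
  field_simp
  ring

/-- the smoothed and rounded vector -/
theorem COR_y (hRND : Stmt_RND) (hMIN : Stmt_MIN) {n N cap m h k α D : ℕ}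
    (M G : Matrix (Fin n) (Fin n) ℝ) (mul : List ℕ → List ℕ) (R : Fin k → ℕ) (a : Fin n → ℝ)
    (hM : Mᵀ = M) (hM1 : Con 1 M) (hmul : Appr M mul) (hn : 1 ≤ n) (hαn : α ≤ n) (hα : 1 ≤ α)
    (hk : 1 ≤ k) (hD : 1 ≤ D) (hN : N = (4 * m * h + 2) * n * D)
    (hcap : cap = N * k + 4 * m * h * n)
    (hy : nsq (((α : ℝ) / k) • (KM M m h *ᵥ mul1 n k R) - G *ᵥ a) ≤ 9 / (D : ℝ) ^ 2 * α)
    (s0 : List ℕ × List ℕ)
    (hs0 : s0 = (lv n fun u => N * ((List.ofFn R).filter fun r => decide (r = u)).length,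
      lv n fun _ => 0)) :
    nsq (((α : ℝ) / k) • val n N (mul (smL mul cap n m h s0).1, mul (smL mul cap n m h s0).2) -
      G *ᵥ a) ≤ (4 / (D : ℝ)) ^ 2 * α := by
  have hN0 : 0 < N := by rw [hN]; positivity
  have hNr : (0 : ℝ) < N := by exact_mod_cast hN0
  have hv0 : val n N s0 = mul1 n k R := by rw [hs0]; exact COR_val_init n N k hN0 R
  have hsn : √(n : ℝ) ≤ n := by
    rw [Real.sqrt_le_left (by positivity)]
    have : (1 : ℝ) ≤ n := by exact_mod_cast hn
    nlinarith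
  have h1 := hRND n N cap m h M mul s0 hM hM1 hmul hN0 (by
    rw [hv0, hcap]
    push_cast
    have h2 := COR_mul1_norm n k R
    have h3 : (N : ℝ) * √(nsq (mul1 n k R)) ≤ N * k := mul_le_mul_of_nonneg_left h2 hNr.le
    have h4 : 4 * (m : ℝ) * h * √n ≤ 4 * m * h * n := mul_le_mul_of_nonneg_left hsn (by positivity)
    linarith)
  rw [hv0] at h1
  set v := val n N (mul (smL mul cap n m h s0).1, mul (smL mul cap n m h s0).2) with hv
  have hkr : (0 : ℝ) < k := by exact_mod_cast hk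
  have hαr : (1 : ℝ) ≤ α := by exact_mod_cast hα
  have hDr : (1 : ℝ) ≤ D := by exact_mod_cast hD
  have hnr : (1 : ℝ) ≤ n := by exact_mod_cast hn
  have hk1 : (1 : ℝ) ≤ k := by exact_mod_cast hk
  have h5 : √(nsq (((α : ℝ) / k) • (v - KM M m h *ᵥ mul1 n k R))) ≤ √α / D := by
    rw [COR_nsq_smul, Real.sqrt_mul (by positivity), Real.sqrt_sq (by positivity)]
    calc (α : ℝ) / k * √(nsq (v - KM M m h *ᵥ mul1 n k R)) ≤
          α / k * ((4 * m * h + 2) * √n / N) := mul_le_mul_of_nonneg_left h1 (by positivity)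
      _ = α / k * (√n / (n * D)) := by
          rw [hN]; push_cast; field_simp
      _ ≤ α / 1 * (√n / (n * D)) := by
          apply mul_le_mul_of_nonneg_right _ (by positivity)
          exact div_le_div_of_nonneg_left (by positivity) (by norm_num) hk1
      _ = (α * √n / n) / D := by field_simp
      _ ≤ √α / D := by
          apply div_le_div_of_nonneg_right _ (by positivity)
          have e1 : (α : ℝ) = √α * √α := (Real.mul_self_sqrt (by positivity)).symm
          have e2 : (n : ℝ) = √n * √n := (Real.mul_self_sqrt (by positivity)).symm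
          rw [div_le_iff₀ (by positivity)]
          have e3 : √(α : ℝ) ≤ √n := Real.sqrt_le_sqrt (by exact_mod_cast hαn)
          calc (α : ℝ) * √n = √α * (√α * √n) := by
                rw [← mul_assoc, ← e1]
            _ ≤ √α * (√n * √n) := by
                apply mul_le_mul_of_nonneg_left _ (by positivity)
                exact mul_le_mul_of_nonneg_right e3 (by positivity)
            _ = √α * n := by rw [← e2]
  have h6 : √(nsq (((α : ℝ) / k) • (KM M m h *ᵥ mul1 n k R) - G *ᵥ a)) ≤ 3 * √α / D := by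
    calc √(nsq (((α : ℝ) / k) • (KM M m h *ᵥ mul1 n k R) - G *ᵥ a)) ≤
          √((3 * √α / D) ^ 2) := by
          apply Real.sqrt_le_sqrt
          refine hy.trans (le_of_eq ?_)
          rw [div_pow, mul_pow, Real.sq_sqrt (by positivity)]
          ring
      _ = 3 * √α / D := Real.sqrt_sq (by positivity)
  have h7 : ((α : ℝ) / k) • v - G *ᵥ a = ((α : ℝ) / k) • (v - KM M m h *ᵥ mul1 n k R) +
      (((α : ℝ) / k) • (KM M m h *ᵥ mul1 n k R) - G *ᵥ a) := by
    rw [smul_sub]; abel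
  have h8 : √(nsq (((α : ℝ) / k) • v - G *ᵥ a)) ≤ 4 * √α / D := by
    rw [h7]
    refine (hMIN.1 _ _ _).trans ?_
    calc _ ≤ √α / D + 3 * √α / D := add_le_add h5 h6
      _ = 4 * √α / D := by ring
  have h9 := pow_le_pow_left₀ (Real.sqrt_nonneg _) h8 2
  rw [Real.sq_sqrt (COR_nsq_nonneg _)] at h9
  refine h9.trans (le_of_eq ?_)
  rw [div_pow, mul_pow, Real.sq_sqrt (by positivity)]
  ring

/-- the prunings keep half of the optimum -/
theorem COR_prune (hEXI : Stmt_EXI) (hRND : Stmt_RND) (hAPR : Stmt_APR) (hPRU : Stmt_PRU)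
    (hOPA : Stmt_OPA) (hOPB : Stmt_OPB) (hMIN : Stmt_MIN) (T : ℕ → ℕ → ℕ → Bool) (n Δ : ℕ)
    (O : Finset ℕ) (hT : LS T) (hsup : ∀ a b c, T a b c = true → a < n ∧ b < n) (hO : Ind T O)
    (hOn : ∀ v ∈ O, v < n) (hΔ : 1 ≤ Δ) (hn : 3 ≤ n) (hbig : (n : ℝ) ≤ Δ ^ 2 * O.card) :
    ∃ (α : ℕ) (W : Fin (ps n Δ) → ℕ) (R : Fin (pk n Δ) → ℕ), (∀ i, W i < n) ∧ (∀ j, R j < n) ∧
      α ≤ n ∧ (n : ℝ) ≤ 2 * Δ ^ 2 * α ∧ ∀ p a b c J : ℕ,
      (α : ℝ) ≤ 2 * (gB3 T n (COR_mk Δ α p a b c J W R)).length := by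
  classical
  obtain ⟨hl1, hl2⟩ := COR_ell n hn
  set V := prune T (pL Δ) (List.range n) with hV
  have hVnd : V.Nodup := List.nodup_range.sublist (prune_sub _ _)
  have hVn : ∀ v ∈ V, v < n := fun v hv => List.mem_range.mp ((prune_sub _ _).subset hv)
  have hVn' : ∀ v ∈ V.toFinset, v < n := fun v hv => hVn v (List.mem_toFinset.mp hv)
  have hOS : O ⊆ (List.range n).toFinset := by
    intro v hv
    rw [List.mem_toFinset, List.mem_range]
    exact hOn v hv
  have hcod : ∀ a b, (V.toFinset.filter fun c => T a b c = true).card ≤ pL Δ := by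
    intro a b
    have := prune_cod (T := T) (pL Δ) (List.range n) List.nodup_range (fun a b c h => by
      rw [List.mem_range, List.mem_range]; exact hsup a b c h) a b
    exact_mod_cast this
  have hloss := prune_loss hT hO (pL Δ) (List.range n) hOS
  rw [← hV, List.length_range] at hloss
  set A := O ∩ V.toFinset with hA
  have hAV : A ⊆ V.toFinset := inter_subset_right
  have hAI : Ind T A := hO.subset inter_subset_left
  set α := A.card with hα
  have hΔr : (1 : ℝ) ≤ Δ := by exact_mod_cast hΔ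
  have hnr : (3 : ℝ) ≤ n := by exact_mod_cast hn
  have hLα : 2 * (n : ℝ) ≤ (pL Δ : ℕ) * (α : ℝ) := by
    have h1 : ((pL Δ : ℕ) : ℝ) * O.card + 2 * V.length ≤ (pL Δ : ℕ) * α + 2 * n := by
      exact_mod_cast hloss
    have h2 : ((pL Δ : ℕ) : ℝ) = 4 * Δ ^ 2 := by unfold pL; push_cast; ring
    have h3 : (0 : ℝ) ≤ V.length := Nat.cast_nonneg _
    have h4 : ((pL Δ : ℕ) : ℝ) * O.card = 4 * (Δ ^ 2 * O.card) := by rw [h2]; ring
    linarith
  have hLr : ((pL Δ : ℕ) : ℝ) = 4 * Δ ^ 2 := by unfold pL; push_cast; ring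
  have hαn2 : (n : ℝ) ≤ 2 * Δ ^ 2 * α := by
    rw [hLr] at hLα
    linarith
  have hα1 : 1 ≤ α := by
    by_contra h
    have : α = 0 := by omega
    rw [this] at hLα
    simp at hLα
    linarith
  have hαn : α ≤ n := by
    have h1 : A ⊆ Finset.range n := fun v hv => Finset.mem_range.mpr (hVn' v (hAV hv))
    have := card_le_card h1
    rwa [card_range] at this
  have hL1 : 1 ≤ pL Δ := Nat.succ_le_of_lt (by unfold pL; positivity)
  have hD1 : 1 ≤ pD Δ := Nat.succ_le_of_lt (by unfold pD; positivity)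
  have hm1 : 1 ≤ pm n Δ := by unfold pm; exact Nat.mul_pos hl1 (by positivity)
  have hs1 : 1 ≤ ps n Δ := Nat.succ_le_of_lt (by unfold ps; positivity)
  have hk1 : 1 ≤ pk n Δ := Nat.succ_le_of_lt (by unfold pk; positivity)
  obtain ⟨W, R, hWA, hRA, hcon, hy⟩ := hEXI T n (pL Δ) V.toFinset A hT hL1 hVn' hcod hAV hAI hα1
    hLα (ell n) (pm n Δ) (ps n Δ) (pk n Δ) (pD Δ) hl1 hl2 hD1 (le_refl _) (le_refl _) (le_refl _)
  refine ⟨α, W, R, fun i => hVn' _ (hAV (hWA i)), fun j => hVn' _ (hAV (hRA j)), hαn, hαn2, ?_⟩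
  intro p a b c J
  set g := COR_mk Δ α p a b c J W R with hg
  have hg0 : g.getD 0 0 = Δ := rfl
  have hg1 : g.getD 1 0 = α := rfl
  have hgW : gW n g = List.ofFn W := COR_mk_W n Δ α p a b c J W R
  have hgR : gR n g = List.ofFn R := COR_mk_R n Δ α p a b c J W R
  have hgV : gV T n g = V := by unfold gV; rw [hg0]
  have hgM : gM T n g = mulL T n V (List.ofFn W) (ps n Δ * pL Δ) := by
    funext z
    unfold gM
    rw [hgV, hgW, hg0]
  set M := Mm T n V.toFinset (pL Δ) (ps n Δ) W with hM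
  set G := Gm T n V.toFinset (pL Δ) A with hG
  obtain ⟨happ, hcnt⟩ := hAPR T n (pL Δ) (ps n Δ) V W hT hVnd hVn hL1 hs1
  rw [← hgM] at happ
  have hMsym : Mᵀ = M := by
    rw [hM]
    unfold Mm
    rw [transpose_smul, transpose_sum]
    congr 1
    apply sum_congr rfl
    intro i _
    exact (hOPA T n (pL Δ) V.toFinset hT hL1 hVn' hcod (W i)).1
  have hMcon : Con 1 M := hMIN.2.2 (Fin n) (ps n Δ) (fun i => Tm T n V.toFinset (pL Δ) (W i))
    fun i => (hOPA T n (pL Δ) V.toFinset hT hL1 hVn' hcod (W i)).2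
  obtain ⟨hfro, hGv⟩ := hOPB T n (pL Δ) V.toFinset A hT hL1 hVn' hAV hAI hα1
  -- the vector y
  have hyy := COR_y hRND hMIN (n := n) (N := pN n Δ) (cap := pcap n Δ) (m := pm n Δ)
    (h := ell n) (k := pk n Δ) (α := α) (D := pD Δ) M G (gM T n g) R (ind n A) hMsym hMcon happ
    (by omega) hαn hα1 hk1 hD1 rfl rfl hy
    (lv n fun u => pN n Δ * ((List.ofFn R).filter fun r => decide (r = u)).length,
      lv n fun _ => 0) rfl
  have hgZ : gZ T n g = smL (gM T n g) (pcap n Δ) n (pm n Δ) (ell n)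
      (lv n fun u => pN n Δ * ((List.ofFn R).filter fun r => decide (r = u)).length,
      lv n fun _ => 0) := by
    unfold gZ
    rw [hg0, hgR]
  rw [← hgZ] at hyy
  set P := gM T n g (gZ T n g).1 with hP
  set Q := gM T n g (gZ T n g).2 with hQ
  have hDr : (1 : ℝ) ≤ pD Δ := by exact_mod_cast hD1
  have hkr : (1 : ℝ) ≤ pk n Δ := by exact_mod_cast hk1
  have hαr : (1 : ℝ) ≤ α := by exact_mod_cast hα1
  have hn0 : 0 < n := by omega
  have hN1 : 1 ≤ pN n Δ := Nat.succ_le_of_lt (by unfold pN; positivity)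
  have hNr : (1 : ℝ) ≤ pN n Δ := by exact_mod_cast hN1
  have hsr : (1 : ℝ) ≤ ps n Δ := by exact_mod_cast hs1
  have hmr : (1 : ℝ) ≤ pm n Δ := by exact_mod_cast hm1
  have hB1V : ∀ u ∈ gB1 T n g, u ∈ V := by
    intro u hu
    unfold gB1 at hu
    rw [hgV] at hu
    exact (List.mem_filter.mp hu).1
  have hB1nd : (gB1 T n g).Nodup := by
    unfold gB1
    rw [hgV]
    exact hVnd.filter _
  have hB2nd : (gB2 T n g).Nodup := by unfold gB2; exact hB1nd.filter _
  have hB3nd : (gB3 T n g).Nodup := by unfold gB3; exact hB2nd.filter _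
  have hkey := hPRU T n (pL Δ) V.toFinset A (gB1 T n g).toFinset (gB2 T n g).toFinset
    (gB3 T n g).toFinset
    (fun u => ((α : ℝ) / pk n Δ) * (((P.getD u 0 : ℝ) - Q.getD u 0) / pN n Δ))
    (fun u => (cnt T (gB1 T n g) (List.ofFn W) (lv n fun _ => 1) u : ℝ) / (ps n Δ * pL Δ))
    (4 / (pD Δ : ℝ)) √(1 / (8 * (pm n Δ : ℝ))) (1 / (16384 * (Δ : ℝ) ^ 8))
    ((n : ℝ) / (128 * (Δ : ℝ) ^ 6)) hT hL1 hVn' hAV hAI hα1 (by positivity) (by positivity) ?_
    (by positivity) (by positivity) ?_ ?_ ?_ ?_ ?_ ?_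
  · refine hkey.trans ?_
    have h1 : (A ∩ (gB3 T n g).toFinset).card ≤ (gB3 T n g).length := by
      rw [← List.toFinset_card_of_nodup hB3nd]
      exact card_le_card inter_subset_right
    have h2 : ((A ∩ (gB3 T n g).toFinset).card : ℝ) ≤ (gB3 T n g).length := by exact_mod_cast h1
    linarith
  · -- ε ≤ θ2
    have h1 : (pm n Δ : ℝ) ≥ (33554432 * (Δ : ℝ) ^ 10) ^ 3 := by
      have : (pD Δ) ^ 3 ≤ pm n Δ := by unfold pm; exact Nat.le_mul_of_pos_left _ hl1
      have h2 : ((pD Δ : ℕ) : ℝ) ^ 3 ≤ pm n Δ := by exact_mod_cast this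
      have h3 : ((pD Δ : ℕ) : ℝ) = 33554432 * (Δ : ℝ) ^ 10 := by unfold pD; push_cast; ring
      rw [h3] at h2
      exact h2
    rw [Real.sqrt_le_left (by positivity)]
    rw [div_pow, one_pow, div_le_div_iff₀ (by positivity) (by positivity)]
    have h2 : (Δ : ℝ) ^ 16 ≤ Δ ^ 30 := pow_le_pow_right₀ hΔr (by norm_num)
    have h3 : (0 : ℝ) ≤ (Δ : ℝ) ^ 30 := by positivity
    have h4 : (33554432 * (Δ : ℝ) ^ 10) ^ 3 = 33554432 ^ 3 * Δ ^ 30 := by ring
    have h5 : (16384 * (Δ : ℝ) ^ 8) ^ 2 = 16384 ^ 2 * Δ ^ 16 := by ring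
    rw [h4] at h1
    rw [h5]
    nlinarith
  · -- y
    have h1 : ∑ u ∈ V.toFinset, (((α : ℝ) / pk n Δ) * (((P.getD u 0 : ℝ) - Q.getD u 0) / pN n Δ) -
        (pairs T A A u : ℝ) / ((pL Δ : ℕ) * A.card)) ^ 2 ≤
        nsq (((α : ℝ) / pk n Δ) • val n (pN n Δ) (P, Q) - G *ᵥ ind n A) := by
      apply COR_sum_le V.toFinset hVn' _ _ (fun u => sq_nonneg _)
      intro u hu
      apply le_of_eq
      congr 1
      simp only [Pi.sub_apply, Pi.smul_apply, smul_eq_mul]
      rw [hGv A hAV u, if_pos hu]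
      rfl
    exact h1.trans hyy
  · -- membership in B1
    intro u
    rw [List.mem_toFinset, List.mem_toFinset]
    unfold gB1
    rw [hgV, List.mem_filter, hg0, hg1, ← hP, ← hQ, decide_eq_true_iff]
    apply and_congr_right
    intro _
    have e1 : (α : ℝ) / pk n Δ * (((P.getD u 0 : ℝ) - Q.getD u 0) / pN n Δ) ≤ 4 * (4 / (pD Δ : ℝ)) ↔
        (α : ℝ) * pD Δ * P.getD u 0 ≤ α * pD Δ * Q.getD u 0 + 16 * pk n Δ * pN n Δ := by
      rw [div_mul_div_comm, ← mul_div_assoc, div_le_div_iff₀ (by positivity) (by positivity)]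
      constructor <;> intro h <;> nlinarith
    rw [e1]
    constructor
    · intro h; exact_mod_cast h
    · intro h; exact_mod_cast h
  · -- q
    have h1 : ∑ u ∈ V.toFinset, ((cnt T (gB1 T n g) (List.ofFn W) (lv n fun _ => 1) u : ℝ) /
        (ps n Δ * pL Δ) - (pairs T (gB1 T n g).toFinset A u : ℝ) / ((pL Δ : ℕ) * A.card)) ^ 2 ≤
        nsq ((M - G) *ᵥ ind n (gB1 T n g).toFinset) := by
      apply COR_sum_le V.toFinset hVn' _ _ (fun u => sq_nonneg _)
      intro u hu
      apply le_of_eq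
      congr 1
      rw [sub_mulVec]
      simp only [Pi.sub_apply]
      rw [hGv _ (fun v hv => List.mem_toFinset.mpr (hB1V v (List.mem_toFinset.mp hv))) u,
        if_pos hu, hcnt (gB1 T n g) hB1nd hB1V u (List.mem_toFinset.mp hu)]
    refine h1.trans ((hcon _).trans ?_)
    rw [Real.sq_sqrt (by positivity)]
    exact mul_le_mul_of_nonneg_left (COR_nsq_ind n _) (by positivity)
  · -- membership in B2
    intro u
    rw [List.mem_toFinset, List.mem_toFinset]
    unfold gB2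
    rw [hg0, hgW, List.mem_filter, decide_eq_true_iff]
    apply and_congr_right
    intro _
    have e1 : (cnt T (gB1 T n g) (List.ofFn W) (lv n fun _ => 1) u : ℝ) / (ps n Δ * pL Δ) ≤
        1 / (16384 * (Δ : ℝ) ^ 8) ↔
        (cnt T (gB1 T n g) (List.ofFn W) (lv n fun _ => 1) u : ℝ) * (16384 * (Δ : ℝ) ^ 8) ≤
          ps n Δ * pL Δ := by
      have : (0 : ℝ) < pL Δ := by exact_mod_cast hL1
      rw [div_le_div_iff₀ (by positivity) (by positivity), one_mul]
    rw [e1]
    constructor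
    · intro h; exact_mod_cast h
    · intro h; exact_mod_cast h
  · -- membership in B3
    intro u
    rw [List.mem_toFinset, List.mem_toFinset]
    unfold gB3
    rw [hg0, List.mem_filter, decide_eq_true_iff, COR_pairs_eq T _ hB2nd]
    apply and_congr_right
    intro _
    rw [le_div_iff₀ (by positivity)]
    constructor
    · intro h
      have h2 : 128 * (Δ : ℝ) ^ 6 * (pairs T (gB2 T n g).toFinset (gB2 T n g).toFinset u : ℕ) ≤ n := by
        exact_mod_cast h
      linarith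
    · intro h
      have h2 : 128 * (Δ : ℝ) ^ 6 * (pairs T (gB2 T n g).toFinset (gB2 T n g).toFinset u : ℕ) ≤ n := by
        linarith
      exact_mod_cast h2
  · -- the numerical condition
    have h1 : ((pD Δ : ℕ) : ℝ) = 33554432 * (Δ : ℝ) ^ 10 := by unfold pD; push_cast; ring
    have h2 : ((pD Δ : ℕ) : ℝ) ^ 3 ≤ pm n Δ := by
      have : (pD Δ) ^ 3 ≤ pm n Δ := by unfold pm; exact Nat.le_mul_of_pos_left _ hl1
      exact_mod_cast this
    have := COR_num (x := (Δ : ℝ)) (α := (α : ℝ)) (n := (n : ℝ)) (m := (pm n Δ : ℝ))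
      (D := (pD Δ : ℝ)) hΔr (by linarith) (by linarith) hαn2 h1 h2
    rw [hLr]
    exact this

/-- COR -/
theorem stmt_COR (hEXI : Stmt_EXI) (hRND : Stmt_RND) (hAPR : Stmt_APR) (hPRU : Stmt_PRU)
    (hOPA : Stmt_OPA) (hOPB : Stmt_OPB) (hMIN : Stmt_MIN) (hHSH : Stmt_HSH) : Stmt_COR := by
  classical
  intro T n Δ O hT hsup hO hOn hΔ hn hbig hlen
  obtain ⟨α, W, R, hWn, hRn, hαn, hαn2, hkey⟩ := COR_prune hEXI hRND hAPR hPRU hOPA hOPB hMIN T n Δ
    O hT hsup hO hOn hΔ hn hbig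
  have hΔr : (1 : ℝ) ≤ Δ := by exact_mod_cast hΔ
  have hnr : (3 : ℝ) ≤ n := by exact_mod_cast hn
  obtain ⟨hl1, hl2⟩ := COR_ell n hn
  obtain ⟨p, hp, hnp, hp2⟩ := Nat.exists_prime_lt_and_le_two_mul n (by omega)
  have hpr : (n : ℝ) < p := by exact_mod_cast hnp
  have hp0 : (0 : ℝ) < p := by linarith
  -- n is large compared with Δ
  have hΔ6 : 64 * Δ ^ 6 ≤ n := by
    have h1 : Δ ^ 6 ≤ Δ ^ 30 := Nat.pow_le_pow_right hΔ (by norm_num)
    have h2 : Δ ^ 30 ≤ pD Δ ^ 3 := by
      unfold pD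
      rw [mul_pow, ← pow_mul]
      exact Nat.le_mul_of_pos_left _ (by norm_num)
    have h3 : pD Δ ^ 3 ≤ pm n Δ := by unfold pm; exact Nat.le_mul_of_pos_left _ hl1
    have h4 : 128 * pm n Δ ≤ ps n Δ := by
      unfold ps
      exact Nat.mul_le_mul_right _ (Nat.le_mul_of_pos_right _ hl1)
    omega
  have hsq : 8 * (Δ : ℝ) ^ 3 ≤ √n := by
    apply Real.le_sqrt_of_sq_le
    have h64 : (64 : ℝ) * (Δ : ℝ) ^ 6 ≤ n := by exact_mod_cast hΔ6
    have e64 : (8 * (Δ : ℝ) ^ 3) ^ 2 = 64 * (Δ : ℝ) ^ 6 := by ring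
    rw [e64]
    exact h64
  have hs0 : 0 < √(n : ℝ) := Real.sqrt_pos.mpr (by linarith)
  have hs1 : 1 ≤ √(n : ℝ) := by
    rw [Real.one_le_sqrt]; linarith
  have hss : √(n : ℝ) * √n = n := Real.mul_self_sqrt (by linarith)
  obtain ⟨J, hJ⟩ : ∃ J, J = ⌊8 * (Δ : ℝ) ^ 3 / √n * p⌋₊ := ⟨_, rfl⟩
  have hx0 : 0 ≤ 8 * (Δ : ℝ) ^ 3 / √n * p := by positivity
  have hJ1 : (J : ℝ) ≤ 8 * (Δ : ℝ) ^ 3 / √n * p := by rw [hJ]; exact Nat.floor_le hx0
  have hJ2 : 8 * (Δ : ℝ) ^ 3 / √n * p < J + 1 := by rw [hJ]; exact Nat.lt_floor_add_one _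
  have hJp : J ≤ p := by
    have h1 : 8 * (Δ : ℝ) ^ 3 / √n ≤ 1 := by rw [div_le_one hs0]; exact hsq
    have h2 : 8 * (Δ : ℝ) ^ 3 / √n * p ≤ 1 * p := mul_le_mul_of_nonneg_right h1 hp0.le
    have h3 : (J : ℝ) ≤ p := by linarith
    exact_mod_cast h3
  set g0 := COR_mk Δ α 0 0 0 0 0 W R with hg0
  set B := gB3 T n g0 with hB
  have hV : gV T n g0 = prune T (pL Δ) (List.range n) := rfl
  have hVnd : (gV T n g0).Nodup := by rw [hV]; exact List.nodup_range.sublist (prune_sub _ _)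
  have hB1nd : (gB1 T n g0).Nodup := hVnd.filter _
  have hB2nd : (gB2 T n g0).Nodup := hB1nd.filter _
  have hB3nd : B.Nodup := hB2nd.filter _
  have hBn : ∀ v ∈ B, v < n := by
    intro v hv
    have h1 : v ∈ gB2 T n g0 := (List.mem_filter.mp hv).1
    have h2 : v ∈ gB1 T n g0 := (List.mem_filter.mp h1).1
    have h3 : v ∈ gV T n g0 := (List.mem_filter.mp h2).1
    rw [hV] at h3
    exact List.mem_range.mp ((prune_sub _ _).subset h3)
  have hdeg : ∀ u ∈ B.toFinset, (pairs T B.toFinset B.toFinset u : ℝ) ≤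
      (n : ℝ) / (128 * (Δ : ℝ) ^ 6) := by
    intro u hu
    rw [List.mem_toFinset] at hu
    have h1 := (List.mem_filter.mp hu).2
    rw [decide_eq_true_iff, COR_pairs_eq T _ hB2nd] at h1
    have h2 : pairs T B.toFinset B.toFinset u ≤
        pairs T (gB2 T n g0).toFinset (gB2 T n g0).toFinset u := by
      apply COR_pairs_mono
      intro v hv
      rw [List.mem_toFinset] at hv ⊢
      exact (List.mem_filter.mp hv).1
    rw [le_div_iff₀ (by positivity)]
    have h3 : 128 * (Δ : ℝ) ^ 6 * (pairs T (gB2 T n g0).toFinset (gB2 T n g0).toFinset u : ℕ) ≤ n := by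
      have h4 : g0.getD 0 0 = Δ := rfl
      rw [h4] at h1
      exact_mod_cast h1
    have h5 : (pairs T B.toFinset B.toFinset u : ℝ) ≤
        (pairs T (gB2 T n g0).toFinset (gB2 T n g0).toFinset u : ℕ) := by exact_mod_cast h2
    have h6 : (0 : ℝ) ≤ 128 * (Δ : ℝ) ^ 6 := by positivity
    calc (pairs T B.toFinset B.toFinset u : ℝ) * (128 * (Δ : ℝ) ^ 6) ≤
          (pairs T (gB2 T n g0).toFinset (gB2 T n g0).toFinset u : ℕ) * (128 * (Δ : ℝ) ^ 6) :=
          mul_le_mul_of_nonneg_right h5 h6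
      _ = 128 * (Δ : ℝ) ^ 6 * (pairs T (gB2 T n g0).toFinset (gB2 T n g0).toFinset u : ℕ) := by ring
      _ ≤ n := h3
  obtain ⟨a, ha, b, hb, c, hc, hH⟩ := hHSH T p J B.toFinset ((n : ℝ) / (128 * (Δ : ℝ) ^ 6)) hT hp hJp
    (fun v hv => (hBn v (List.mem_toFinset.mp hv)).trans hnp) hdeg
  set g := COR_mk Δ α p a b c J W R with hg
  have hgB : gB3 T n g = B := by
    rw [hB]
    exact COR_gB3_congr T n rfl rfl
      ((COR_mk_W n Δ α p a b c J W R).trans (COR_mk_W n Δ α 0 0 0 0 0 W R).symm)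
      ((COR_mk_R n Δ α p a b c J W R).trans (COR_mk_R n Δ α 0 0 0 0 0 W R).symm)
  refine ⟨g, ?_, ?_, ?_⟩
  · rw [hg]
    unfold COR_mk
    simp only [List.length_cons, List.length_append, List.length_ofFn]
    omega
  · intro x hx
    have hΔn : Δ ≤ n := by
      have : Δ ≤ Δ ^ 6 := Nat.le_self_pow (by norm_num) _
      omega
    rw [hg] at hx
    unfold COR_mk at hx
    simp only [List.mem_cons, List.mem_append, List.mem_ofFn] at hx
    rcases hx with h | h | h | h | h | h | h | ⟨i, h⟩ | ⟨i, h⟩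
    · omega
    · omega
    · omega
    · omega
    · omega
    · omega
    · omega
    · have := hWn i; omega
    · have := hRn i; omega
  · -- the size of the output
    have hlenH : (core T n g).length =
        ((B.toFinset.filter fun u => (a * (u * u) + b * u + c) % p < J).filter fun u =>
          pairs T (B.toFinset.filter fun u => (a * (u * u) + b * u + c) % p < J)
            (B.toFinset.filter fun u => (a * (u * u) + b * u + c) % p < J) u = 0).card := by
      have hgH : gH T n g = B.filter fun u => decide ((a * (u * u) + b * u + c) % p < J) := by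
        unfold gH
        rw [hgB]
        rfl
      have hHnd : (gH T n g).Nodup := by rw [hgH]; exact hB3nd.filter _
      have hHf : (gH T n g).toFinset = B.toFinset.filter fun u => (a * (u * u) + b * u + c) % p < J := by
        rw [hgH]
        ext u
        simp
      rw [← hHf]
      unfold core
      rw [← List.toFinset_card_of_nodup (hHnd.filter _)]
      congr 1
      ext u
      rw [List.mem_toFinset, List.mem_filter, mem_filter, List.mem_toFinset]
      apply and_congr_right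
      intro _
      unfold pairs
      rw [card_eq_zero, filter_eq_empty_iff]
      simp only [List.all_eq_true, Bool.not_eq_true', mem_product, List.mem_toFinset, Prod.forall,
        and_imp, Bool.not_eq_true]
      constructor
      · intro h v w hv hw; exact h v hv w hw
      · intro h v hv w hw; exact h v w hv hw
    rw [hlenH]
    have hk2 := hkey 0 0 0 0 0
    rw [← hg0, ← hB] at hk2
    have hBc : (B.toFinset.card : ℝ) = B.length := by
      rw [List.toFinset_card_of_nodup hB3nd]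
    refine le_trans ?_ hH
    rw [hBc]
    have hb3 : (n : ℝ) / (4 * Δ ^ 2) ≤ B.length := by
      rw [div_le_iff₀ (by positivity)]
      have h1 : 2 * (Δ : ℝ) ^ 2 * α ≤ 2 * (Δ : ℝ) ^ 2 * (2 * B.length) :=
        mul_le_mul_of_nonneg_left hk2 (by positivity)
      linarith
    obtain ⟨ρ, hρ⟩ : ∃ ρ : ℝ, ρ = (J : ℝ) / p := ⟨_, rfl⟩
    rw [← hρ]
    have hρ0 : 0 ≤ ρ := by rw [hρ]; positivity
    have hρ1 : ρ ≤ 8 * (Δ : ℝ) ^ 3 / √n := by rw [hρ, div_le_iff₀ hp0]; exact hJ1
    have hρ2 : 7 * (Δ : ℝ) ^ 3 / √n ≤ ρ := by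
      rw [hρ, le_div_iff₀ hp0]
      have h1 : 1 ≤ (Δ : ℝ) ^ 3 / √n * p := by
        rw [div_mul_eq_mul_div, le_div_iff₀ hs0, one_mul]
        have h2 : 1 ≤ (Δ : ℝ) ^ 3 := one_le_pow₀ hΔr
        nlinarith
      have h2 : 8 * (Δ : ℝ) ^ 3 / √n * p = 7 * (Δ : ℝ) ^ 3 / √n * p + (Δ : ℝ) ^ 3 / √n * p := by ring
      linarith
    have hρ3 : (n : ℝ) / (128 * (Δ : ℝ) ^ 6) * ρ ^ 2 ≤ 1 / 2 := by
      have h1 : ρ ^ 2 ≤ (8 * (Δ : ℝ) ^ 3 / √n) ^ 2 := pow_le_pow_left₀ hρ0 hρ1 2
      have h2 : (8 * (Δ : ℝ) ^ 3 / √n) ^ 2 = 64 * Δ ^ 6 / n := by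
        rw [div_pow, Real.sq_sqrt (by positivity)]; ring
      rw [h2] at h1
      have h4 : (0 : ℝ) < n := by linarith
      calc (n : ℝ) / (128 * (Δ : ℝ) ^ 6) * ρ ^ 2 ≤ (n : ℝ) / (128 * (Δ : ℝ) ^ 6) * (64 * Δ ^ 6 / n) :=
            mul_le_mul_of_nonneg_left h1 (by positivity)
        _ = 1 / 2 := by field_simp; norm_num
    have hBl : (0 : ℝ) ≤ B.length := Nat.cast_nonneg _
    have h5 : (B.length : ℝ) * ρ - B.length * ((n : ℝ) / (128 * (Δ : ℝ) ^ 6)) * ρ ^ 3 =
        B.length * ρ * (1 - (n : ℝ) / (128 * (Δ : ℝ) ^ 6) * ρ ^ 2) := by ring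
    rw [h5]
    have h6 : (n : ℝ) / (4 * Δ ^ 2) * (7 * (Δ : ℝ) ^ 3 / √n) * (1 / 2) ≤
        B.length * ρ * (1 - (n : ℝ) / (128 * (Δ : ℝ) ^ 6) * ρ ^ 2) := by
      apply mul_le_mul _ (by linarith) (by norm_num) (by positivity)
      exact mul_le_mul hb3 hρ2 (by positivity) hBl
    refine le_trans ?_ h6
    have h7 : (n : ℝ) / (4 * Δ ^ 2) * (7 * (Δ : ℝ) ^ 3 / √n) * (1 / 2) = 7 / 8 * Δ * √n := by
      have hD0 : (Δ : ℝ) ≠ 0 := by linarith
      have hr0 : √(n : ℝ) ≠ 0 := hs0.ne'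
      have e1 : (n : ℝ) / (4 * Δ ^ 2) * (7 * (Δ : ℝ) ^ 3 / √n) * (1 / 2) =
          (n / √(n : ℝ)) * (7 / 8 * Δ) := by
        field_simp
        norm_num
      rw [e1, Real.div_sqrt]
      ring
    rw [h7]
    have h8 : 0 ≤ (Δ : ℝ) * √n := by positivity
    nlinarith

end Pool.Agent.Work.MP_a23c49_sub
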