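import Pool.Agent.Work.MP_a23c49_sub.Interface2

/-!
# Block DEC: every list of numbers is decoded from the binary digits of a number
-/

namespace Pool.Agent.Work.MP_a23c49_sub

/-- the number with the binary digits `ω ++ [true]` -/
def DEC_enc : List Bool → ℕ
  | [] => 1
  | x :: ω => Nat.bit x (DEC_enc ω)

theorem DEC_enc_pos : ∀ ω : List Bool, DEC_enc ω ≠ 0
  | [] => by unfold DEC_enc; norm_num
  | x :: ω => by
    unfold DEC_enc
    have := DEC_enc_pos ω
    rw [Nat.bit_val]
    omega

theorem DEC_enc_bits : ∀ ω : List Bool, (DEC_enc ω).bits = ω ++ [true]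
  | [] => by unfold DEC_enc; simp
  | x :: ω => by
    unfold DEC_enc
    rw [Nat.bits_append_bit _ _ (fun h => absurd h (DEC_enc_pos ω)), DEC_enc_bits ω]
    rfl

theorem DEC_enc_lt : ∀ ω : List Bool, DEC_enc ω < 2 ^ (ω.length + 1)
  | [] => by unfold DEC_enc; norm_num
  | x :: ω => by
    unfold DEC_enc
    have := DEC_enc_lt ω
    rw [Nat.bit_val, List.length_cons, pow_succ]
    cases x <;> simp <;> omega

/-- binary digits, most significant first -/
def DEC_msb : ℕ → ℕ → List Bool
  | 0, _ => []
  | b + 1, x => DEC_msb b (x / 2) ++ [decide (x % 2 = 1)]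

theorem DEC_msb_length : ∀ b x : ℕ, (DEC_msb b x).length = b
  | 0, _ => rfl
  | b + 1, x => by
    unfold DEC_msb
    rw [List.length_append, DEC_msb_length b (x / 2)]
    rfl

theorem DEC_val (x : ℕ) : (2 * (x / 2) + bif decide (x % 2 = 1) then 1 else 0) = x := by
  have := Nat.mod_two_eq_zero_or_one x
  rcases this with h | h
  · rw [h]
    simp
    omega
  · rw [h]
    simp
    omega

theorem DEC_fold (b cap : ℕ) (acc : List ℕ) : ∀ j y : ℕ, j < b → y < 2 ^ j → y ≤ cap →
    (DEC_msb j y).foldl (numStep b cap) (0, 0, acc) = (j, y, acc) := by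
  intro j
  induction j with
  | zero =>
    intro y _ hy _
    have : y = 0 := by simpa using hy
    rw [this]
    rfl
  | succ j ih =>
    intro y hj hy hc
    unfold DEC_msb
    rw [List.foldl_append, ih (y / 2) (by omega) (by rw [pow_succ] at hy; omega) (by omega)]
    rw [List.foldl_cons, List.foldl_nil]
    unfold numStep
    simp only
    rw [DEC_val, decide_eq_false (by omega : ¬ (j + 1 = b)), cond_false, min_eq_right hc]

theorem DEC_fold2 (b cap : ℕ) (acc : List ℕ) (hb : 1 ≤ b) (y : ℕ) (hy : y < 2 ^ b) (hc : y ≤ cap) :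
    (DEC_msb b y).foldl (numStep b cap) (0, 0, acc) = (0, 0, acc ++ [y]) := by
  obtain ⟨j, rfl⟩ : ∃ j, b = j + 1 := ⟨b - 1, by omega⟩
  unfold DEC_msb
  rw [List.foldl_append, DEC_fold (j + 1) cap acc j (y / 2) (by omega)
    (by rw [pow_succ] at hy; omega) (by omega)]
  rw [List.foldl_cons, List.foldl_nil]
  unfold numStep
  simp only
  rw [DEC_val, min_eq_right hc, decide_eq_true trivial, cond_true]

theorem DEC_fold3 (b cap : ℕ) (hb : 1 ≤ b) : ∀ (g acc : List ℕ), (∀ x ∈ g, x < 2 ^ b ∧ x ≤ cap) →
    (g.flatMap (DEC_msb b)).foldl (numStep b cap) (0, 0, acc) = (0, 0, acc ++ g) := by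
  intro g
  induction g with
  | nil => intro acc _; simp
  | cons x g ih =>
    intro acc h
    have hx := h x List.mem_cons_self
    rw [List.flatMap_cons, List.foldl_append, DEC_fold2 b cap acc hb x hx.1 hx.2,
      ih _ fun y hy => h y (List.mem_cons_of_mem _ hy), List.append_assoc]
    rfl

theorem DEC_length (b : ℕ) : ∀ g : List ℕ, (g.flatMap (DEC_msb b)).length = b * g.length
  | [] => by simp
  | x :: g => by
    rw [List.flatMap_cons, List.length_append, DEC_msb_length, DEC_length b g, List.length_cons,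
      Nat.mul_add, Nat.mul_one, Nat.add_comm]

theorem stmt_DEC : Stmt_DEC := by
  intro b cap g hb hg
  refine ⟨DEC_enc (g.flatMap (DEC_msb b)), ?_, ?_⟩
  · have := DEC_enc_lt (g.flatMap (DEC_msb b))
    rwa [DEC_length] at this
  · unfold nums
    rw [DEC_enc_bits, List.foldl_append, DEC_fold3 b cap (by omega) g [] hg, List.foldl_cons,
      List.foldl_nil]
    unfold numStep
    simp only
    rw [decide_eq_false (by omega : ¬ (0 + 1 = b)), cond_false, List.nil_append]

end Pool.Agent.Work.MP_a23c49_sub
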