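import Pool.Agent.Work.MP_a23c49_sub.Interface1

namespace Pool.Agent.Work.MP_a23c49_sub

open Matrix Finset

theorem stmt_EIG : Stmt_EIG := by
  intro ι _ _ Q hQ
  have hH : Q.IsHermitian := by
    rw [Matrix.IsHermitian, Matrix.conjTranspose_eq_transpose_of_trivial]
    exact hQ
  refine ⟨(hH.eigenvectorUnitary : Matrix ι ι ℝ), hH.eigenvalues, ?_, ?_, ?_⟩
  · have h := (Matrix.mem_unitaryGroup_iff' (A := (hH.eigenvectorUnitary : Matrix ι ι ℝ))).1
      hH.eigenvectorUnitary.2
    rwa [Matrix.star_eq_conjTranspose, Matrix.conjTranspose_eq_transpose_of_trivial] at h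
  · have h := (Matrix.mem_unitaryGroup_iff (A := (hH.eigenvectorUnitary : Matrix ι ι ℝ))).1
      hH.eigenvectorUnitary.2
    rwa [Matrix.star_eq_conjTranspose, Matrix.conjTranspose_eq_transpose_of_trivial] at h
  · have h := hH.spectral_theorem
    rw [Unitary.conjStarAlgAut_apply] at h
    rw [Matrix.star_eq_conjTranspose, Matrix.conjTranspose_eq_transpose_of_trivial] at h
    exact h

theorem stmt_EGP : Stmt_EGP := by
  intro ι _ _ U l k h1 h2
  induction k with
  | zero =>
    simp only [pow_zero, diagonal_one, Matrix.mul_one]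
    exact h2.symm
  | succ k ih =>
    rw [pow_succ, ih]
    calc U * diagonal (fun i => l i ^ k) * Uᵀ * (U * diagonal l * Uᵀ)
        = U * (diagonal (fun i => l i ^ k) * (Uᵀ * U) * diagonal l) * Uᵀ := by
          simp only [Matrix.mul_assoc]
      _ = U * diagonal (fun i => l i ^ (k + 1)) * Uᵀ := by
          rw [h1, Matrix.mul_one, diagonal_mul_diagonal]
          congr 3

theorem stmt_TRF : Stmt_TRF := by
  intro ι _ _ U V f g
  have h1 : trace (U * diagonal f * Uᵀ * (V * diagonal g * Vᵀ)) =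
      trace (diagonal f * (Uᵀ * V) * (diagonal g * (Uᵀ * V)ᵀ)) := by
    rw [Matrix.transpose_mul, Matrix.transpose_transpose]
    calc trace (U * diagonal f * Uᵀ * (V * diagonal g * Vᵀ))
        = trace (U * (diagonal f * Uᵀ * (V * diagonal g * Vᵀ))) := by
          simp only [Matrix.mul_assoc]
      _ = trace ((diagonal f * Uᵀ * (V * diagonal g * Vᵀ)) * U) := Matrix.trace_mul_comm _ _
      _ = _ := by simp only [Matrix.mul_assoc]
  rw [h1]
  simp only [trace, diag_apply, Matrix.mul_apply (M := diagonal f * (Uᵀ * V)),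
    Matrix.diagonal_mul, transpose_apply]
  apply Finset.sum_congr rfl
  intro a _
  apply Finset.sum_congr rfl
  intro b _
  ring

theorem EIG_nsq {ι : Type} [Fintype ι] (x : ι → ℝ) : nsq x = x ⬝ᵥ x := by
  unfold nsq dotProduct
  apply Finset.sum_congr rfl
  intro i _
  ring

theorem EIG_iso {ι : Type} [Fintype ι] [DecidableEq ι] (U : Matrix ι ι ℝ) (hU : Uᵀ * U = 1)
    (x : ι → ℝ) : nsq (U *ᵥ x) = nsq x := by
  rw [EIG_nsq, EIG_nsq, Matrix.dotProduct_mulVec, ← Matrix.mulVec_transpose, Matrix.mulVec_mulVec,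
    hU, Matrix.one_mulVec]

theorem stmt_NSU : Stmt_NSU := by
  intro ι _ _ U l x h1 h2
  constructor
  · apply EIG_iso
    rw [Matrix.transpose_transpose]
    exact h2
  · rw [← Matrix.mulVec_mulVec, ← Matrix.mulVec_mulVec, EIG_iso U h1]
    unfold nsq
    apply Finset.sum_congr rfl
    intro i _
    rw [Matrix.mulVec_diagonal]
    ring

end Pool.Agent.Work.MP_a23c49_sub
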