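import Pool.Agent.Work.MP_a23c49_sub.Interface1

/-! Block EVB: eigenvalues of a contraction. -/

set_option autoImplicit false

namespace Pool.Agent.Work.MP_a23c49_sub

open Matrix Finset

theorem stmt_EVB (hNSU : Stmt_NSU) : Stmt_EVB := by
  intro ι _ _ U l c h1 h2
  constructor
  · intro h i
    have hx := h (U *ᵥ Pi.single i 1)
    have e1 : Uᵀ *ᵥ (U *ᵥ Pi.single i (1 : ℝ)) = Pi.single i 1 := by
      rw [mulVec_mulVec, h1, one_mulVec]
    obtain ⟨n1, n2⟩ := hNSU ι U l (U *ᵥ Pi.single i 1) h1 h2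
    rw [e1] at n1 n2
    rw [n2, ← n1] at hx
    have e2 : nsq (Pi.single i (1 : ℝ)) = 1 := by
      unfold nsq
      rw [Finset.sum_eq_single i]
      · rw [Pi.single_eq_same]; norm_num
      · intro j _ hj
        rw [Pi.single_eq_of_ne hj]; norm_num
      · intro hi; exact absurd (Finset.mem_univ i) hi
    have e3 : ∑ j, l j ^ 2 * (Pi.single i (1 : ℝ) : ι → ℝ) j ^ 2 = l i ^ 2 := by
      rw [Finset.sum_eq_single i]
      · rw [Pi.single_eq_same]; ring
      · intro j _ hj
        rw [Pi.single_eq_of_ne hj]; ring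
      · intro hi; exact absurd (Finset.mem_univ i) hi
    rw [e2, e3] at hx
    linarith
  · intro h x
    obtain ⟨n1, n2⟩ := hNSU ι U l x h1 h2
    rw [n2, ← n1]
    unfold nsq
    rw [Finset.mul_sum]
    exact Finset.sum_le_sum fun i _ => mul_le_mul_of_nonneg_right (h i) (sq_nonneg _)

end Pool.Agent.Work.MP_a23c49_sub
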