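import Pool.Agent.Work.MP_a23c49_sub.Interface1

/-! # Block EXI (helper36) -/

namespace Pool.Agent.Work.MP_a23c49_sub

open Matrix Finset
open Pool.Agent.Work.MP_a23c49_lc (LS Ind)

theorem EXI_nn {ι : Type} [Fintype ι] (x : ι → ℝ) : 0 ≤ nsq x :=
  Finset.sum_nonneg fun _ _ => sq_nonneg _

theorem EXI_mono {ι : Type} [Fintype ι] {c d : ℝ} (h : c ≤ d)
    {Q : Matrix ι ι ℝ} (hQ : Con c Q) : Con d Q :=
  fun x => le_trans (hQ x) (mul_le_mul_of_nonneg_right h (EXI_nn x))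

theorem EXI_smul {ι : Type} [Fintype ι] (a : ℝ) (x : ι → ℝ) : nsq (a • x) = a ^ 2 * nsq x := by
  unfold nsq
  rw [Finset.mul_sum]
  refine Finset.sum_congr rfl fun i _ => ?_
  simp only [Pi.smul_apply, smul_eq_mul]
  ring

theorem EXI_mul1 (n k : ℕ) (R : Fin k → ℕ) (hR : ∀ j, R j < n) :
    mul1 n k R = ∑ j, Pi.single (⟨R j, hR j⟩ : Fin n) (1 : ℝ) := by
  funext u
  rw [Finset.sum_apply]
  unfold mul1
  rw [Finset.card_filter]
  push_cast
  refine Finset.sum_congr rfl fun j _ => ?_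
  by_cases h : R j = u.val
  · rw [if_pos h]
    have h1 : (⟨R j, hR j⟩ : Fin n) = u := Fin.ext h
    rw [h1, Pi.single_eq_same]
  · rw [if_neg h, Pi.single_eq_of_ne]
    intro h2
    apply h
    rw [h2]

theorem EXI_ind (n : ℕ) (A : Finset ℕ) (hA : ∀ a ∈ A, a < n) :
    ind n A = ∑ a : {w // w ∈ A}, Pi.single (⟨a.val, hA a.val a.2⟩ : Fin n) (1 : ℝ) := by
  funext u
  rw [Finset.sum_apply]
  unfold ind
  by_cases h : u.val ∈ A
  · rw [if_pos h, Finset.sum_eq_single (⟨u.val, h⟩ : {w // w ∈ A})]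
    · rw [Pi.single_eq_same]
    · intro b _ hb
      rw [Pi.single_eq_of_ne]
      intro h2
      apply hb
      ext
      exact (congrArg Fin.val h2).symm
    · intro h2
      exact absurd (Finset.mem_univ _) h2
  · rw [if_neg h, Finset.sum_eq_zero]
    intro b _
    rw [Pi.single_eq_of_ne]
    intro h2
    apply h
    rw [h2]
    exact b.2

theorem EXI_nind (n : ℕ) (A : Finset ℕ) : nsq (ind n A) ≤ A.card := by
  unfold nsq ind
  have h1 : ∀ u : Fin n, (if u.val ∈ A then (1 : ℝ) else 0) ^ 2 = if u.val ∈ A then 1 else 0 := by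
    intro u
    split_ifs <;> norm_num
  rw [Finset.sum_congr rfl fun u _ => h1 u, ← Finset.sum_filter, Finset.sum_const, nsmul_eq_mul,
    mul_one]
  have h2 : (Finset.univ.filter fun u : Fin n => u.val ∈ A).card ≤ A.card := by
    rw [← Finset.card_map Fin.valEmbedding]
    refine Finset.card_le_card ?_
    intro c hc
    rw [Finset.mem_map] at hc
    obtain ⟨v, hv, rfl⟩ := hc
    rw [Finset.mem_filter] at hv
    exact hv.2
  exact_mod_cast h2

theorem EXI_col {n : ℕ} (Q : Matrix (Fin n) (Fin n) ℝ) (A : Finset ℕ) (hA : ∀ a ∈ A, a < n) :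
    ∑ a : {w // w ∈ A}, nsq (Q *ᵥ Pi.single (⟨a.val, hA a.val a.2⟩ : Fin n) (1 : ℝ)) ≤
      ∑ i, ∑ j, Q i j ^ 2 := by
  have h1 : ∀ j : Fin n, nsq (Q *ᵥ Pi.single j (1 : ℝ)) = ∑ i, Q i j ^ 2 := by
    intro j
    rw [Matrix.mulVec_single_one]
    rfl
  rw [Finset.sum_comm, Finset.sum_congr rfl fun a _ => h1 _]
  let e : {w // w ∈ A} ↪ Fin n := ⟨fun a => ⟨a.val, hA a.val a.2⟩, fun a b h => by
    ext
    exact congrArg Fin.val h⟩
  have h2 : ∑ a : {w // w ∈ A}, ∑ i, Q i (⟨a.val, hA a.val a.2⟩ : Fin n) ^ 2 =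
      ∑ j ∈ Finset.univ.map e, ∑ i, Q i j ^ 2 := by
    rw [Finset.sum_map]
    rfl
  rw [h2]
  exact Finset.sum_le_sum_of_subset_of_nonneg (Finset.subset_univ _)
    fun j _ _ => Finset.sum_nonneg fun i _ => sq_nonneg _

theorem stmt_EXI (hOPA : Stmt_OPA) (hOPB : Stmt_OPB) (hCNC : Stmt_CNC) (hKFB : Stmt_KFB)
    (hKAP : Stmt_KAP) (hSMP : Stmt_SMP) (hMIN : Stmt_MIN) : Stmt_EXI := by
  classical
  intro T n L V A hT hL hV hline hAV hA hA1 h2 r m s k D hr hnr hD hm hs hk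
  have hAn : ∀ a ∈ A, a < n := fun a ha => hV a (hAV ha)
  have hne : Nonempty {w // w ∈ A} := by
    obtain ⟨a, ha⟩ := Finset.card_pos.1 hA1
    exact ⟨⟨a, ha⟩⟩
  have hcardK : Fintype.card {w // w ∈ A} = A.card := Fintype.card_coe A
  have hD3 : 1 ≤ D ^ 3 := Nat.one_le_pow _ _ hD
  have hm1 : 1 ≤ m := le_trans (by nlinarith) hm
  have hs1 : 1 ≤ s := le_trans (by nlinarith) hs
  have hk1 : 1 ≤ k := le_trans (Nat.mul_pos (by omega) (Nat.pow_pos hD)) hk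
  have hDr : (1 : ℝ) ≤ D := by exact_mod_cast hD
  have hD0 : (0 : ℝ) < D := by linarith
  have hmr : (1 : ℝ) ≤ m := by exact_mod_cast hm1
  have hm0 : (0 : ℝ) < m := by linarith
  have hkr : (1 : ℝ) ≤ k := by exact_mod_cast hk1
  have hk0 : (0 : ℝ) < k := by linarith
  have hsr : (1 : ℝ) ≤ s := by exact_mod_cast hs1
  have hs0 : (0 : ℝ) < s := by linarith
  have hAr : (1 : ℝ) ≤ A.card := by exact_mod_cast hA1
  have hA0 : (0 : ℝ) < A.card := by linarith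
  have hTm := hOPA T n L V hT hL hV hline
  obtain ⟨w, hw⟩ := hCNC (Fin n) {w // w ∈ A} (fun a => Tm T n V L a.val)
    (fun a => (hTm a.val).1) (fun a => (hTm a.val).2) s r hs1 hr (by simpa using hnr)
  have hG : (1 / (Fintype.card {w // w ∈ A} : ℝ)) • ∑ a : {w // w ∈ A}, Tm T n V L a.val =
      Gm T n V L A := by
    unfold Gm
    rw [hcardK]
    congr 1
    exact Finset.sum_coe_sort A (fun w => Tm T n V L w)
  rw [hG] at hw
  have hw8 : Con (1 / (8 * m)) (Mm T n V L s (fun i => (w i).val) - Gm T n V L A) := by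
    refine EXI_mono ?_ hw
    rw [div_le_div_iff₀ hs0 (by positivity)]
    have : ((128 * r * m : ℕ) : ℝ) ≤ s := by exact_mod_cast hs
    push_cast at this
    nlinarith
  obtain ⟨M, hMdef⟩ : ∃ M, M = Mm T n V L s (fun i => (w i).val) := ⟨_, rfl⟩
  rw [← hMdef] at hw8
  have hMs : Mᵀ = M := by
    rw [hMdef]
    unfold Mm
    rw [Matrix.transpose_smul, Matrix.transpose_sum]
    congr 1
    exact Finset.sum_congr rfl fun i _ => (hTm _).1
  have hMc : Con 1 M := by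
    rw [hMdef]
    exact hMIN.2.2 (Fin n) s (fun i => Tm T n V L (w i).val) fun i => (hTm _).2
  have hKF := hKFB (Fin n) M (Gm T n V L A) m r hMs hMc
    ((hOPB T n L V A hT hL hV hAV hA hA1).1 h2) hm1 hw8
  have hn4 : (Fintype.card (Fin n) : ℝ) / 4 ^ r ≤ 1 := by
    rw [div_le_one (by positivity), Fintype.card_fin]
    have h3 : (n : ℝ) ≤ 2 ^ r := by exact_mod_cast hnr
    have h4 : (2 : ℝ) ^ r ≤ 4 ^ r := pow_le_pow_left₀ (by norm_num) (by norm_num) r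
    linarith
  obtain ⟨R', hR'⟩ := hSMP (Fin n) {w // w ∈ A}
    (fun a => KM M m r *ᵥ Pi.single (⟨a.val, hAn a.val a.2⟩ : Fin n) (1 : ℝ)) k
  have hsum1 : ∑ j, KM M m r *ᵥ Pi.single (⟨(R' j).val, hAn _ (R' j).2⟩ : Fin n) (1 : ℝ) =
      KM M m r *ᵥ mul1 n k (fun j => (R' j).val) := by
    rw [EXI_mul1 n k (fun j => (R' j).val) (fun j => hAn _ (R' j).2)]
    exact (map_sum (Matrix.mulVecLin (KM M m r)) _ _).symm
  have hsum2 : ∑ a : {w // w ∈ A}, KM M m r *ᵥ Pi.single (⟨a.val, hAn a.val a.2⟩ : Fin n) (1 : ℝ) =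
      KM M m r *ᵥ ind n A := by
    rw [EXI_ind n A hAn]
    exact (map_sum (Matrix.mulVecLin (KM M m r)) _ _).symm
  rw [hsum1, hsum2, hcardK] at hR'
  have hcol := EXI_col (KM M m r) A hAn
  refine ⟨fun i => (w i).val, fun j => (R' j).val, fun i => (w i).2, fun j => (R' j).2, ?_, ?_⟩
  · rw [← hMdef]
    exact hw8
  rw [← hMdef]
  -- the three parts
  have hDk : (8 * (m : ℝ) + 1) * (D : ℝ) ^ 2 ≤ k := by exact_mod_cast hk
  have hmD : (D : ℝ) ^ 2 ≤ 8 * m := by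
    have h3 : ((r * D ^ 3 : ℕ) : ℝ) ≤ m := by exact_mod_cast hm
    push_cast at h3
    have h4 : (1 : ℝ) ≤ r := by exact_mod_cast hr
    have h5 : (D : ℝ) ^ 2 ≤ (D : ℝ) ^ 3 := pow_le_pow_right₀ hDr (by norm_num)
    have h6 : (D : ℝ) ^ 3 ≤ r * (D : ℝ) ^ 3 := by
      have : (0 : ℝ) < (D : ℝ) ^ 3 := by positivity
      nlinarith
    linarith
  have hv1 : nsq (((A.card : ℝ) / k) • (KM M m r *ᵥ mul1 n k (fun j => (R' j).val)) -
      KM M m r *ᵥ ind n A) ≤ A.card / (D : ℝ) ^ 2 := by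
    have h3 : ((A.card : ℝ) / k) • (KM M m r *ᵥ mul1 n k (fun j => (R' j).val)) -
        KM M m r *ᵥ ind n A = ((A.card : ℝ) / k) • (KM M m r *ᵥ mul1 n k (fun j => (R' j).val) -
          ((k : ℝ) / A.card) • (KM M m r *ᵥ ind n A)) := by
      rw [smul_sub, smul_smul]
      have : (A.card : ℝ) / k * (k / A.card) = 1 := by field_simp
      rw [this, one_smul]
    rw [h3, EXI_smul]
    have h4 : ((A.card : ℝ) / k) ^ 2 * nsq (KM M m r *ᵥ mul1 n k (fun j => (R' j).val) -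
          ((k : ℝ) / A.card) • (KM M m r *ᵥ ind n A)) ≤
        ((A.card : ℝ) / k) ^ 2 * ((k : ℝ) / A.card * (8 * m + 1)) := by
      refine mul_le_mul_of_nonneg_left (le_trans hR' ?_) (by positivity)
      refine mul_le_mul_of_nonneg_left ?_ (by positivity)
      linarith
    refine le_trans h4 ?_
    have h5 : ((A.card : ℝ) / k) ^ 2 * ((k : ℝ) / A.card * (8 * m + 1)) =
        A.card * (8 * m + 1) / k := by
      field_simp
    rw [h5, div_le_div_iff₀ hk0 (by positivity)]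
    nlinarith
  have hind := EXI_nind n A
  have hv2 : nsq ((KM M m r - M) *ᵥ ind n A) ≤ A.card / (D : ℝ) ^ 2 := by
    have h3 := hKAP (Fin n) M m r (1 / D) hMs hMc (by positivity) (by
      rw [div_le_one hD0]; exact hDr) (by
      have h3 : ((r * D ^ 3 : ℕ) : ℝ) ≤ m := by exact_mod_cast hm
      push_cast at h3
      refine le_trans (le_of_eq ?_) h3
      field_simp) (ind n A)
    refine le_trans h3 ?_
    have h4 : (1 / (D : ℝ)) ^ 2 * nsq (ind n A) ≤ (1 / (D : ℝ)) ^ 2 * A.card :=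
      mul_le_mul_of_nonneg_left hind (by positivity)
    refine le_trans h4 (le_of_eq ?_)
    field_simp
  have hv3 : nsq ((M - Gm T n V L A) *ᵥ ind n A) ≤ A.card / (D : ℝ) ^ 2 := by
    refine le_trans (hw8 (ind n A)) ?_
    have h4 : 1 / (8 * (m : ℝ)) * nsq (ind n A) ≤ 1 / (8 * (m : ℝ)) * A.card :=
      mul_le_mul_of_nonneg_left hind (by positivity)
    refine le_trans h4 ?_
    rw [one_div_mul_eq_div, div_le_div_iff₀ (by positivity) (by positivity)]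
    nlinarith
  have hdec : ((A.card : ℝ) / k) • (KM M m r *ᵥ mul1 n k (fun j => (R' j).val)) -
      Gm T n V L A *ᵥ ind n A =
      (((A.card : ℝ) / k) • (KM M m r *ᵥ mul1 n k (fun j => (R' j).val)) - KM M m r *ᵥ ind n A) +
        ((KM M m r - M) *ᵥ ind n A + (M - Gm T n V L A) *ᵥ ind n A) := by
    rw [Matrix.sub_mulVec, Matrix.sub_mulVec]
    abel
  rw [hdec]
  obtain ⟨x, hx⟩ : ∃ x, x = ((A.card : ℝ) / k) • (KM M m r *ᵥ mul1 n k (fun j => (R' j).val)) -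
    KM M m r *ᵥ ind n A := ⟨_, rfl⟩
  obtain ⟨y, hy⟩ : ∃ y, y = (KM M m r - M) *ᵥ ind n A := ⟨_, rfl⟩
  obtain ⟨z, hz⟩ : ∃ z, z = (M - Gm T n V L A) *ᵥ ind n A := ⟨_, rfl⟩
  rw [← hx] at hv1
  rw [← hy] at hv2
  rw [← hz] at hv3
  rw [← hx, ← hy, ← hz]
  obtain ⟨a, ha⟩ : ∃ a : ℝ, a = A.card / (D : ℝ) ^ 2 := ⟨_, rfl⟩
  have ha0 : 0 ≤ a := by rw [ha]; positivity
  rw [← ha] at hv1 hv2 hv3
  have hgoal : 9 / (D : ℝ) ^ 2 * A.card = 9 * a := by
    rw [ha]
    ring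
  rw [hgoal]
  have m1 := hMIN.1 (Fin n) x (y + z)
  have m2 := hMIN.1 (Fin n) y z
  have s1 := Real.sqrt_le_sqrt hv1
  have s2 := Real.sqrt_le_sqrt hv2
  have s3 := Real.sqrt_le_sqrt hv3
  have s4 : √(nsq (x + (y + z))) ≤ 3 * √a := by linarith
  have s5 : √(nsq (x + (y + z))) ^ 2 = nsq (x + (y + z)) := Real.sq_sqrt (EXI_nn _)
  have s6 : √a ^ 2 = a := Real.sq_sqrt ha0
  rw [← s5]
  calc √(nsq (x + (y + z))) ^ 2 ≤ (3 * √a) ^ 2 :=
        pow_le_pow_left₀ (Real.sqrt_nonneg _) s4 2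
    _ = 9 * a := by rw [mul_pow, s6]; norm_num

end Pool.Agent.Work.MP_a23c49_sub
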