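import Pool.Agent.Work.MP_a23c49_sub.Interface2

/-!
# HSH: hashing
-/

namespace Pool.Agent.Work.MP_a23c49_sub

open Finset
open Pool.Agent.Work.MP_a23c49_lc (LS)

theorem HSH_dist {T : ℕ → ℕ → ℕ → Bool} (h : LS T) {a b c : ℕ} (ht : T a b c = true) :
    a ≠ b ∧ a ≠ c ∧ b ≠ c := by
  refine ⟨h.ne _ _ _ ht, h.ne a c b ?_, h.ne b c a ?_⟩
  · rw [← h.swap23]; exact ht
  · rw [← h.swap23, ← h.swap12]; exact ht

theorem HSH_card (p J : ℕ) [NeZero p] (hJ : J ≤ p) :
    ((univ : Finset (ZMod p)).filter fun x => x.val < J).card = J := by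
  have h : ((univ : Finset (ZMod p)).filter fun x => x.val < J).card = (range J).card := by
    refine Finset.card_bij (fun x _ => x.val) ?_ ?_ ?_
    · intro x hx
      rw [mem_filter] at hx
      exact mem_range.2 hx.2
    · intro x _ y _ hxy
      exact ZMod.val_injective p hxy
    · intro n hn
      rw [mem_range] at hn
      refine ⟨(n : ZMod p), ?_, ?_⟩
      · rw [mem_filter, ZMod.val_natCast, Nat.mod_eq_of_lt (hn.trans_le hJ)]
        exact ⟨mem_univ _, hn⟩
      · rw [ZMod.val_natCast, Nat.mod_eq_of_lt (hn.trans_le hJ)]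
  rw [h, card_range]

/-- the value of the polynomial -/
def HSH_ev {p : ℕ} (t : ZMod p × ZMod p × ZMod p) (u : ℕ) : ZMod p :=
  t.1 * ((u : ZMod p) * u) + t.2.1 * u + t.2.2

theorem HSH_one (p J : ℕ) [NeZero p] (hJ : J ≤ p) (u : ℕ) :
    ((univ : Finset (ZMod p × ZMod p × ZMod p)).filter fun t => (HSH_ev t u).val < J).card = p * p * J := by
  have h : ((univ : Finset (ZMod p × ZMod p × ZMod p)).filter fun t => (HSH_ev t u).val < J).card =
      ((univ : Finset (ZMod p)) ×ˢ (univ : Finset (ZMod p)) ×ˢ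
        ((univ : Finset (ZMod p)).filter fun x => x.val < J)).card := by
    refine Finset.card_bij (fun t _ => (t.1, t.2.1, HSH_ev t u)) ?_ ?_ ?_
    · intro t ht
      rw [mem_filter] at ht
      simp only [mem_product, mem_univ, true_and, mem_filter]
      exact ht.2
    · intro t _ t' _ h
      simp only [Prod.mk.injEq, HSH_ev] at h
      obtain ⟨h1, h2, h3⟩ := h
      rw [h1, h2] at h3
      exact Prod.ext h1 (Prod.ext h2 (add_left_cancel h3))
    · rintro ⟨a, b, x⟩ hx
      simp only [mem_product, mem_univ, true_and, mem_filter] at hx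
      refine ⟨(a, b, x - (a * ((u : ZMod p) * u) + b * u)), ?_, ?_⟩
      · rw [mem_filter]
        refine ⟨mem_univ _, ?_⟩
        have : HSH_ev (a, b, x - (a * ((u : ZMod p) * u) + b * u)) u = x := by
          simp only [HSH_ev]; ring
        rw [this]
        exact hx
      · have : HSH_ev (a, b, x - (a * ((u : ZMod p) * u) + b * u)) u = x := by
          simp only [HSH_ev]; ring
        rw [this]
  rw [h, card_product, card_product, HSH_card p J hJ, Finset.card_univ, ZMod.card]
  ring

theorem HSH_three (p J : ℕ) [Fact p.Prime] (hJ : J ≤ p) (u v w : ℕ) (hu : u < p) (hv : v < p) (hw : w < p)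
    (h1 : u ≠ v) (h2 : u ≠ w) (h3 : v ≠ w) :
    ((univ : Finset (ZMod p × ZMod p × ZMod p)).filter fun t =>
      (HSH_ev t u).val < J ∧ (HSH_ev t v).val < J ∧ (HSH_ev t w).val < J).card ≤ J ^ 3 := by
  have cast_ne : ∀ a b : ℕ, a < p → b < p → a ≠ b → (a : ZMod p) - (b : ZMod p) ≠ 0 := by
    intro a b ha hb hab h
    apply hab
    rw [sub_eq_zero] at h
    have := congrArg ZMod.val h
    rwa [ZMod.val_natCast, ZMod.val_natCast, Nat.mod_eq_of_lt ha, Nat.mod_eq_of_lt hb] at this
  have hc : J ^ 3 = (((univ : Finset (ZMod p)).filter fun x => x.val < J) ×ˢ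
      ((univ : Finset (ZMod p)).filter fun x => x.val < J) ×ˢ
        ((univ : Finset (ZMod p)).filter fun x => x.val < J)).card := by
    rw [card_product, card_product, HSH_card p J hJ]
    ring
  rw [hc]
  refine Finset.card_le_card_of_injOn (fun t => (HSH_ev t u, HSH_ev t v, HSH_ev t w)) ?_ ?_
  · intro t ht
    simp only [coe_filter, Set.mem_ofPred_eq, mem_univ, true_and] at ht
    simp only [coe_product, Set.mem_prod, coe_filter, Set.mem_ofPred_eq, mem_univ, true_and]
    exact ht
  · rintro ⟨a, b, c⟩ _ ⟨a', b', c'⟩ _ h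
    simp only [Prod.mk.injEq, HSH_ev] at h
    obtain ⟨e1, e2, e3⟩ := h
    have f1 : (u : ZMod p) - v ≠ 0 := cast_ne u v hu hv h1
    have f2 : (u : ZMod p) - w ≠ 0 := cast_ne u w hu hw h2
    have f3 : (v : ZMod p) - w ≠ 0 := cast_ne v w hv hw h3
    have g1 : (a - a') * ((u : ZMod p) + v) + (b - b') = 0 := by
      apply mul_left_cancel₀ f1
      linear_combination e1 - e2
    have g2 : (a - a') * ((u : ZMod p) + w) + (b - b') = 0 := by
      apply mul_left_cancel₀ f2
      linear_combination e1 - e3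
    have g3 : a - a' = 0 := by
      apply mul_left_cancel₀ f3
      linear_combination g1 - g2
    have g4 : b - b' = 0 := by
      rw [g3] at g1
      linear_combination g1
    have ha : a = a' := sub_eq_zero.1 g3
    have hb : b = b' := sub_eq_zero.1 g4
    subst ha hb
    simp only [Prod.mk.injEq, true_and]
    linear_combination e1

theorem stmt_HSH : Stmt_HSH := by
  intro T p J B θ hT hp hJ hB hθ
  have : Fact p.Prime := ⟨hp⟩
  have : NeZero p := ⟨hp.ne_zero⟩
  set Ω : Finset (ZMod p × ZMod p × ZMod p) := univ with hΩ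
  set H : (ZMod p × ZMod p × ZMod p) → Finset ℕ := fun t => B.filter fun u => (HSH_ev t u).val < J with hH
  have hp0 : (0 : ℝ) < p := by exact_mod_cast hp.pos
  -- the number of good points
  have low : ∀ t, ((H t).card : ℝ) - ∑ u ∈ H t, (pairs T (H t) (H t) u : ℝ) ≤
      (((H t).filter fun u => pairs T (H t) (H t) u = 0).card : ℝ) := by
    intro t
    have h1 : (H t).card = ((H t).filter fun u => pairs T (H t) (H t) u = 0).card +
        ((H t).filter fun u => ¬ pairs T (H t) (H t) u = 0).card :=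
      (Finset.card_filter_add_card_filter_not _).symm
    have h2 : ((H t).filter fun u => ¬ pairs T (H t) (H t) u = 0).card ≤
        ∑ u ∈ H t, pairs T (H t) (H t) u := by
      rw [Finset.card_filter]
      refine Finset.sum_le_sum fun u _ => ?_
      split_ifs with h <;> omega
    have h3 : (H t).card ≤ ((H t).filter fun u => pairs T (H t) (H t) u = 0).card +
        ∑ u ∈ H t, pairs T (H t) (H t) u := by omega
    have h4 : ((H t).card : ℝ) ≤ (((H t).filter fun u => pairs T (H t) (H t) u = 0).card : ℝ) +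
        ∑ u ∈ H t, (pairs T (H t) (H t) u : ℝ) := by exact_mod_cast h3
    linarith
  -- first moment
  have s1 : ∑ t ∈ Ω, (H t).card = B.card * (p * p * J) := by
    have : ∀ t ∈ Ω, (H t).card = ∑ u ∈ B, if (HSH_ev t u).val < J then 1 else 0 := by
      intro t _
      rw [hH, Finset.card_filter]
    rw [Finset.sum_congr rfl this, Finset.sum_comm]
    rw [Finset.sum_congr rfl (g := fun _ => p * p * J)]
    · rw [Finset.sum_const, smul_eq_mul]
    · intro u _
      rw [← Finset.card_filter]
      exact HSH_one p J hJ u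
  -- second moment
  have s2 : ∑ t ∈ Ω, ∑ u ∈ H t, pairs T (H t) (H t) u ≤ ∑ u ∈ B, pairs T B B u * J ^ 3 := by
    have e1 : ∀ t ∈ Ω, ∑ u ∈ H t, pairs T (H t) (H t) u = ∑ u ∈ B, ∑ x ∈ (B ×ˢ B).filter
        (fun x => T u x.1 x.2 = true), if (HSH_ev t u).val < J ∧ (HSH_ev t x.1).val < J ∧
          (HSH_ev t x.2).val < J then 1 else 0 := by
      intro t _
      rw [hH]
      simp only
      rw [Finset.sum_filter]
      refine Finset.sum_congr rfl fun u _ => ?_
      by_cases hu : (HSH_ev t u).val < J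
      · rw [if_pos hu]
        unfold pairs
        rw [← Finset.card_filter]
        congr 1
        ext x
        simp only [mem_filter, mem_product]
        tauto
      · rw [if_neg hu]
        symm
        refine Finset.sum_eq_zero fun x _ => ?_
        rw [if_neg]
        exact fun h => hu h.1
    rw [Finset.sum_congr rfl e1, Finset.sum_comm]
    refine Finset.sum_le_sum fun u hu => ?_
    rw [Finset.sum_comm]
    have e2 : ∀ x ∈ (B ×ˢ B).filter (fun x => T u x.1 x.2 = true),
        (∑ t ∈ Ω, if (HSH_ev t u).val < J ∧ (HSH_ev t x.1).val < J ∧ (HSH_ev t x.2).val < J then 1 else 0) ≤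
          J ^ 3 := by
      intro x hx
      rw [mem_filter, mem_product] at hx
      obtain ⟨d1, d2, d3⟩ := HSH_dist hT hx.2
      rw [← Finset.card_filter]
      exact HSH_three p J hJ u x.1 x.2 (hB u hu) (hB _ hx.1.1) (hB _ hx.1.2) d1 d2 d3
    refine (Finset.sum_le_sum e2).trans ?_
    rw [Finset.sum_const, smul_eq_mul]
    exact le_rfl
  have s2' : ∑ t ∈ Ω, ∑ u ∈ H t, (pairs T (H t) (H t) u : ℝ) ≤ B.card * θ * (J : ℝ) ^ 3 := by
    have h1 : (∑ t ∈ Ω, ∑ u ∈ H t, (pairs T (H t) (H t) u : ℝ)) ≤ ∑ u ∈ B, (pairs T B B u : ℝ) * (J : ℝ) ^ 3 := by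
      exact_mod_cast s2
    refine h1.trans ?_
    rw [← Finset.sum_mul]
    refine mul_le_mul_of_nonneg_right ?_ (by positivity)
    refine (Finset.sum_le_sum hθ).trans ?_
    rw [Finset.sum_const, nsmul_eq_mul]
  have s1' : (∑ t ∈ Ω, ((H t).card : ℝ)) = B.card * (p * p * J) := by exact_mod_cast s1
  have cΩ : (Ω.card : ℝ) = (p : ℝ) ^ 3 := by
    rw [hΩ, Finset.card_univ, Fintype.card_prod, Fintype.card_prod, ZMod.card]
    push_cast
    ring
  have hne : Ω.Nonempty := ⟨0, mem_univ _⟩
  obtain ⟨t, -, ht⟩ := Finset.exists_le_of_sum_le hne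
    (f := fun _ => (B.card : ℝ) * ((J : ℝ) / p) - B.card * θ * ((J : ℝ) / p) ^ 3)
    (g := fun t => (((H t).filter fun u => pairs T (H t) (H t) u = 0).card : ℝ)) (by
      refine le_trans ?_ (Finset.sum_le_sum fun t _ => low t)
      have hL : ∑ _t ∈ Ω, ((B.card : ℝ) * ((J : ℝ) / p) - B.card * θ * ((J : ℝ) / p) ^ 3) =
          (p : ℝ) ^ 3 * ((B.card : ℝ) * ((J : ℝ) / p) - B.card * θ * ((J : ℝ) / p) ^ 3) := by
        rw [Finset.sum_const, nsmul_eq_mul, cΩ]
      have this : (p : ℝ) ^ 3 * ((B.card : ℝ) * ((J : ℝ) / p) - B.card * θ * ((J : ℝ) / p) ^ 3) =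
          B.card * (p * p * J) - B.card * θ * (J : ℝ) ^ 3 := by
        field_simp
      have hR := Finset.sum_sub_distrib (s := Ω) (f := fun t => ((H t).card : ℝ))
        (g := fun t => ∑ u ∈ H t, (pairs T (H t) (H t) u : ℝ))
      rw [hL, this, hR, s1']
      linarith)
  have hval : ∀ u : ℕ, (t.1.val * (u * u) + t.2.1.val * u + t.2.2.val) % p = (HSH_ev t u).val := by
    intro u
    rw [← ZMod.val_natCast]
    congr 1
    push_cast
    simp only [ZMod.natCast_val, ZMod.cast_id', id, HSH_ev]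
  refine ⟨t.1.val, ZMod.val_lt _, t.2.1.val, ZMod.val_lt _, t.2.2.val, ZMod.val_lt _, ?_⟩
  simp only [hval]
  exact ht

end Pool.Agent.Work.MP_a23c49_sub
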