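import Pool.Agent.Work.MP_a23c49_sub.Interface2

/-!
# IDX: the ratio of the deterministic procedure
-/

namespace Pool.Agent.Work.MP_a23c49_sub

open Finset
open Pool.Agent.Work.MP_a23c49_lc (LS Ind prune grd lg gst gst_inv grd_large)

theorem IDX_ell (n : ℕ) : n < 2 ^ ell n := by
  unfold ell
  rw [Nat.size_eq_bits_len]
  exact Nat.lt_size_self n

theorem IDX_ell2 {n : ℕ} (hn : 3 ≤ n) : (ell n : ℝ) ≤ 3 * Real.log n ∧ 1 ≤ ell n := by
  have h0 : ell n = n.size := Nat.size_eq_bits_len n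
  have h1 : 1 ≤ n.size := by
    rw [Nat.one_le_iff_ne_zero]
    intro h
    rw [Nat.size_eq_zero] at h
    omega
  have h2 : 2 ^ (n.size - 1) ≤ n := by
    rw [← Nat.lt_size]
    omega
  have hn0 : (0 : ℝ) < n := by
    have : (3 : ℝ) ≤ n := by exact_mod_cast hn
    linarith
  have h3 : ((n.size - 1 : ℕ) : ℝ) * Real.log 2 ≤ Real.log n := by
    rw [← Real.log_pow]
    apply Real.log_le_log (by positivity)
    exact_mod_cast h2
  have h4 : ((n.size - 1 : ℕ) : ℝ) = (n.size : ℝ) - 1 := by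
    rw [Nat.cast_sub h1, Nat.cast_one]
  have h5 : 1 ≤ Real.log n := by
    rw [Real.le_log_iff_exp_le hn0]
    have h6 : (3 : ℝ) ≤ n := by exact_mod_cast hn
    linarith [Real.exp_one_lt_d9]
  rw [h4] at h3
  have h7 := Real.log_two_gt_d9
  rw [h0]
  refine ⟨?_, h1⟩
  have h8 : (1 : ℝ) ≤ n.size := by exact_mod_cast h1
  nlinarith

theorem IDX_memb (u : ℕ) (V : List ℕ) : memb u V = true ↔ u ∈ V := by
  unfold memb
  rw [Bool.not_eq_true', ← Bool.not_eq_true, List.all_eq_true]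
  push Not
  constructor
  · rintro ⟨v, hv, h⟩
    have : v = u := by simpa using h
    exact this ▸ hv
  · intro h
    exact ⟨u, h, by simp⟩

theorem IDX_grd {T : ℕ → ℕ → ℕ → Bool} (hT : LS T) {w : List ℕ} (hw : w.Nodup) {O : Finset ℕ}
    (hO : Ind T O) (h1 : w.toFinset ⊆ O) (h2 : O ⊆ w.toFinset) : O.card ≤ (grd T w).length := by
  obtain ⟨a1, a2, a3, a4⟩ := gst_inv hT w [] hw List.nodup_nil (by intro a ha; simp at ha) (by simp)
  have h3 : O ⊆ (grd T w).toFinset := by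
    intro v hv
    have hvw : v ∈ w := List.mem_toFinset.mp (h2 hv)
    rw [List.mem_toFinset]
    rcases a4 v hvw with h | ⟨a, ha, b, hb, h⟩
    · exact h
    · exfalso
      have ha' : a ∈ O := by
        rcases a3 a ha with h4 | h4
        · exact h1 (List.mem_toFinset.mpr h4)
        · simp at h4
      have hb' : b ∈ O := by
        rcases a3 b hb with h4 | h4
        · exact h1 (List.mem_toFinset.mpr h4)
        · simp at h4
      rw [hO a ha' b hb' v hv] at h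
      cases h
  exact le_trans (card_le_card h3) (List.toFinset_card_le _)

theorem IDX_size {n Δ : ℕ} (hl : 1 ≤ ell n) (hΔ : 1 ≤ Δ) :
    7 + ps n Δ + pk n Δ ≤ 2 ^ 130 * ell n ^ 2 * Δ ^ 50 := by
  unfold ps pk pm pD
  set e := ell n with he
  have a1 : 1 ≤ Δ ^ 20 := Nat.one_le_pow _ _ hΔ
  have a2 : 1 ≤ Δ ^ 30 := Nat.one_le_pow _ _ hΔ
  have a3 : 1 ≤ Δ ^ 50 := Nat.one_le_pow _ _ hΔ
  have a4 : Δ ^ 50 = Δ ^ 30 * Δ ^ 20 := by ring
  have b1 : 128 * e * (e * (33554432 * Δ ^ 10) ^ 3) = 2 ^ 82 * (e ^ 2 * Δ ^ 30) := by ring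
  have b2 : (8 * (e * (33554432 * Δ ^ 10) ^ 3) + 1) * (33554432 * Δ ^ 10) ^ 2 =
      2 ^ 128 * (e * Δ ^ 50) + 2 ^ 50 * Δ ^ 20 := by ring
  rw [b1, b2]
  have e1 : 1 ≤ e ^ 2 := Nat.one_le_pow _ _ hl
  have c1 : e ^ 2 * Δ ^ 30 ≤ e ^ 2 * Δ ^ 50 := Nat.mul_le_mul_left _ (by
    rw [a4]; exact Nat.le_mul_of_pos_right _ a1)
  have c2 : e * Δ ^ 50 ≤ e ^ 2 * Δ ^ 50 := Nat.mul_le_mul_right _ (by
    rw [sq]; exact Nat.le_mul_of_pos_right _ hl)
  have c3 : Δ ^ 20 ≤ e ^ 2 * Δ ^ 50 := by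
    calc Δ ^ 20 ≤ Δ ^ 50 := Nat.pow_le_pow_right hΔ (by norm_num)
      _ ≤ e ^ 2 * Δ ^ 50 := Nat.le_mul_of_pos_left _ e1
  have c4 : 1 ≤ e ^ 2 * Δ ^ 50 := Nat.mul_pos e1 a3
  have c5 : 2 ^ 130 * e ^ 2 * Δ ^ 50 = 2 ^ 130 * (e ^ 2 * Δ ^ 50) := by ring
  rw [c5]
  generalize e ^ 2 * Δ ^ 50 = X at *
  generalize e ^ 2 * Δ ^ 30 = Y at *
  generalize e * Δ ^ 50 = Z at *
  generalize Δ ^ 20 = W at *
  omega

/-- the number of attempts suffices -/
theorem IDX_time {n Δ : ℕ} {D : ℝ} (hn : 3 ≤ n) (hΔ : 1 ≤ Δ) (hΔD : (Δ : ℝ) ≤ 3 * D)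
    {K i : ℕ} (hK : K ≤ 2 ^ 130 * ell n ^ 2 * Δ ^ 50) (hi : i < 2 ^ ((ell n + 1) * K + 1)) :
    (i : ℝ) < Real.exp (2 ^ 132 * 27 * 3 ^ 50 * D ^ 50 * Real.log n ^ 3) := by
  obtain ⟨h1, h2⟩ := IDX_ell2 hn
  have h3 : (ell n + 1) * K + 1 ≤ 2 ^ 132 * (ell n ^ 3 * Δ ^ 50) := by
    have a1 : (ell n + 1) * K ≤ (2 * ell n) * (2 ^ 130 * ell n ^ 2 * Δ ^ 50) :=
      Nat.mul_le_mul (by omega) hK
    have a2 : (2 * ell n) * (2 ^ 130 * ell n ^ 2 * Δ ^ 50) = 2 ^ 131 * (ell n ^ 3 * Δ ^ 50) := by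
      ring
    have a3 : 1 ≤ ell n ^ 3 * Δ ^ 50 :=
      Nat.mul_pos (Nat.one_le_pow _ _ h2) (Nat.one_le_pow _ _ hΔ)
    rw [a2] at a1
    generalize ell n ^ 3 * Δ ^ 50 = X at *
    generalize (ell n + 1) * K = Y at *
    omega
  have h4 : (i : ℝ) < 2 ^ ((ell n + 1) * K + 1) := by exact_mod_cast hi
  have h5 : (2 : ℝ) ^ ((ell n + 1) * K + 1) ≤ Real.exp (((ell n + 1) * K + 1 : ℕ) : ℝ) := by
    rw [← Real.exp_one_rpow, ← Real.rpow_natCast]
    apply Real.rpow_le_rpow (by norm_num) _ (Nat.cast_nonneg _)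
    linarith [Real.exp_one_gt_d9]
  have h6 : (((ell n + 1) * K + 1 : ℕ) : ℝ) ≤ 2 ^ 132 * 27 * 3 ^ 50 * D ^ 50 * Real.log n ^ 3 := by
    have a1 : (((ell n + 1) * K + 1 : ℕ) : ℝ) ≤ 2 ^ 132 * ((ell n : ℝ) ^ 3 * (Δ : ℝ) ^ 50) := by
      exact_mod_cast h3
    have a2 : (ell n : ℝ) ^ 3 ≤ (3 * Real.log n) ^ 3 := pow_le_pow_left₀ (Nat.cast_nonneg _) h1 3
    have a3 : (Δ : ℝ) ^ 50 ≤ (3 * D) ^ 50 := pow_le_pow_left₀ (Nat.cast_nonneg _) hΔD 50
    have a4 : (ell n : ℝ) ^ 3 * (Δ : ℝ) ^ 50 ≤ (3 * Real.log n) ^ 3 * (3 * D) ^ 50 :=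
      mul_le_mul a2 a3 (by positivity) (le_trans (by positivity) a2)
    have a5 : (2 : ℝ) ^ 132 * ((3 * Real.log n) ^ 3 * (3 * D) ^ 50) =
        2 ^ 132 * 27 * 3 ^ 50 * D ^ 50 * Real.log n ^ 3 := by ring
    rw [← a5]
    exact le_trans a1 (mul_le_mul_of_nonneg_left a4 (by positivity))
  exact lt_of_lt_of_le h4 (le_trans h5 (Real.exp_le_exp.mpr h6))

theorem stmt_IDX (hCOR : Stmt_COR) (hDEC : Stmt_DEC) (hINV : Stmt_INV) : Stmt_IDX := by
  classical
  refine ⟨2 ^ 132 * 27 * 3 ^ 50, ?_⟩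
  intro T n t O D hT hsup hO hOn hn hD ht
  obtain ⟨-, -, -, hg, hatt⟩ := (hINV T n hT).2 t
  have hD0 : (0 : ℝ) < D := by linarith
  have hnr : (3 : ℝ) ≤ n := by exact_mod_cast hn
  have hs0 : 0 < √(n : ℝ) := Real.sqrt_pos.mpr (by linarith)
  have hss : √(n : ℝ) * √n = n := Real.mul_self_sqrt (by linarith)
  obtain ⟨Δ, hΔ⟩ : ∃ Δ, Δ = ⌈2 * D⌉₊ := ⟨_, rfl⟩
  have hΔ1 : 2 * D ≤ Δ := by rw [hΔ]; exact Nat.le_ceil _
  have hΔ2 : (Δ : ℝ) ≤ 3 * D := by
    have : (Δ : ℝ) < 2 * D + 1 := by rw [hΔ]; exact Nat.ceil_lt_add_one (by linarith)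
    linarith
  have hΔ3 : 1 ≤ Δ := by
    have : (1 : ℝ) ≤ Δ := by linarith
    exact_mod_cast this
  have hOR : O ⊆ (List.range n).toFinset := by
    intro v hv
    rw [List.mem_toFinset, List.mem_range]
    exact hOn v hv
  have hOc : O.card ≤ n := by
    have := card_le_card hOR
    rw [List.toFinset_card_of_nodup List.nodup_range, List.length_range] at this
    exact this
  have hl := (IDX_ell2 hn).2
  have hdal : (0 : ℝ) ≤ (dalg T n t).length := Nat.cast_nonneg _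
  by_cases hbig : (n : ℝ) ≤ Δ ^ 2 * O.card
  · by_cases hlen : 7 + ps n Δ + pk n Δ ≤ n
    · -- the main case
      obtain ⟨g, hgl, hgx, hgc⟩ := hCOR T n Δ O hT hsup hO hOn hΔ3 hn hbig hlen
      have hx : ∀ x ∈ g, x < 2 ^ (ell n + 1) ∧ x ≤ 4 * n := by
        intro x hx
        have h1 := hgx x hx
        have h2 := IDX_ell n
        rw [pow_succ]
        omega
      obtain ⟨i, hi, hig⟩ := hDEC (ell n + 1) (4 * n) g (by omega) hx
      have hit : i < t := by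
        have h1 := IDX_time hn hΔ3 hΔ2 (K := g.length) (by rw [hgl]; exact IDX_size hl hΔ3) hi
        have h2 : (i : ℝ) < t := lt_of_lt_of_le h1 ht
        exact_mod_cast h2
      have h1 := (hatt i hit).2
      rw [hig] at h1
      have h2 : (3 / 4 : ℝ) * Δ * √n ≤ (dalg T n t).length :=
        le_trans hgc (by exact_mod_cast h1)
      have h3 : (O.card : ℝ) ≤ n := by exact_mod_cast hOc
      have h4 : (n : ℝ) ≤ √n / D * ((3 / 4 : ℝ) * Δ * √n) := by
        have h5 : √(n : ℝ) / D * ((3 / 4 : ℝ) * Δ * √n) = n * ((3 / 4 : ℝ) * Δ / D) := by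
          calc √(n : ℝ) / D * ((3 / 4 : ℝ) * Δ * √n) = (√(n : ℝ) * √n) * ((3 / 4 : ℝ) * Δ / D) := by
                ring
            _ = n * ((3 / 4 : ℝ) * Δ / D) := by rw [hss]
        rw [h5]
        have h6 : 1 ≤ (3 / 4 : ℝ) * Δ / D := by
          rw [le_div_iff₀ hD0]
          linarith
        nlinarith
      calc (O.card : ℝ) ≤ √n / D * ((3 / 4 : ℝ) * Δ * √n) := le_trans h3 h4
        _ ≤ √n / D * (dalg T n t).length := mul_le_mul_of_nonneg_left h2 (by positivity)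
        _ ≤ max 1 (√n / D) * (dalg T n t).length :=
            mul_le_mul_of_nonneg_right (le_max_right _ _) hdal
    · -- few points: guess the optimum
      push Not at hlen
      obtain ⟨g, hg1⟩ : ∃ g, g = O.toList := ⟨_, rfl⟩
      have hgl : g.length = O.card := by rw [hg1]; exact Finset.length_toList _
      have hgm : ∀ x, x ∈ g ↔ x ∈ O := by intro x; rw [hg1]; exact Finset.mem_toList
      have hx : ∀ x ∈ g, x < 2 ^ (ell n + 1) ∧ x ≤ 4 * n := by
        intro x hx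
        have h1 := hOn x ((hgm x).mp hx)
        have h2 := IDX_ell n
        rw [pow_succ]
        omega
      obtain ⟨i, hi, hig⟩ := hDEC (ell n + 1) (4 * n) g (by omega) hx
      have hit : i < t := by
        have h1 := IDX_time hn hΔ3 hΔ2 (K := g.length) (by
          rw [hgl]
          exact le_trans hOc (le_trans hlen.le (IDX_size hl hΔ3))) hi
        have h2 : (i : ℝ) < t := lt_of_lt_of_le h1 ht
        exact_mod_cast h2
      have h1 := (hatt i hit).1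
      rw [hig] at h1
      have h2 : O.card ≤ (grd T ((List.range n).filter fun u => memb u g)).length := by
        apply IDX_grd hT (List.nodup_range.filter _) hO
        · intro v hv
          rw [List.mem_toFinset, List.mem_filter, IDX_memb, hgm] at hv
          exact hv.2
        · intro v hv
          rw [List.mem_toFinset, List.mem_filter, IDX_memb, hgm, List.mem_range]
          exact ⟨hOn v hv, hv⟩
      have h3 : (O.card : ℝ) ≤ (dalg T n t).length := by exact_mod_cast le_trans h2 h1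
      calc (O.card : ℝ) ≤ 1 * (dalg T n t).length := by rw [one_mul]; exact h3
        _ ≤ max 1 (√n / D) * (dalg T n t).length :=
            mul_le_mul_of_nonneg_right (le_max_left _ _) hdal
  · -- the optimum is small
    push Not at hbig
    have h1 := grd_large hT List.nodup_range hO hOR
    have h2 : (O.card : ℝ) ≤ 3 * (dalg T n t).length ^ 2 := by
      have h3 : O.card ≤ 3 * (dalg T n t).length ^ 2 :=
        le_trans h1 (Nat.mul_le_mul_left _ (Nat.pow_le_pow_left hg 2))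
      exact_mod_cast h3
    have hOc0 : (0 : ℝ) ≤ O.card := Nat.cast_nonneg _
    have h3 : 4 * D ^ 2 * (O.card : ℝ) ≤ n := by
      have h4 : 4 * D ^ 2 ≤ (Δ : ℝ) ^ 2 := by nlinarith
      nlinarith
    have h4 : (O.card : ℝ) ≤ √n / D * (dalg T n t).length := by
      rw [← pow_le_pow_iff_left₀ hOc0 (by positivity) two_ne_zero]
      have h5 : (√(n : ℝ) / D * (dalg T n t).length) ^ 2 = n / D ^ 2 * (dalg T n t).length ^ 2 := by
        rw [mul_pow, div_pow, Real.sq_sqrt (by linarith)]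
      rw [h5, sq (O.card : ℝ), div_mul_eq_mul_div, le_div_iff₀ (by positivity)]
      generalize ((dalg T n t).length : ℝ) = G at *
      generalize (O.card : ℝ) = o at *
      have h6 : o * (4 * D ^ 2 * o) ≤ (3 * G ^ 2) * n :=
        mul_le_mul h2 h3 (by positivity) (by positivity)
      nlinarith
    calc (O.card : ℝ) ≤ √n / D * (dalg T n t).length := h4
      _ ≤ max 1 (√n / D) * (dalg T n t).length :=
          mul_le_mul_of_nonneg_right (le_max_right _ _) hdal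

end Pool.Agent.Work.MP_a23c49_sub
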