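import Pool.Agent.Work.MP_a23c49_sub.Interface2

/-!
# Block INV: the output is always independent
-/

namespace Pool.Agent.Work.MP_a23c49_sub

open Matrix Finset
open Pool.Agent.Work.MP_a23c49_lc (LS Ind prune grd lg gst canAdd)
open Pool.Agent.Work.MP_a23c49_lc

theorem INV_grd_mem (T : ℕ → ℕ → ℕ → Bool) (w : List ℕ) : ∀ (G : List ℕ) (P : ℕ → Prop),
    (∀ v ∈ w, P v) → (∀ v ∈ G, P v) → ∀ v ∈ w.foldl (gst T) G, P v := by
  induction w with
  | nil => intro G P _ h; exact h
  | cons u w ih =>
    intro G P h1 h2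
    rw [List.foldl_cons]
    apply ih _ P fun v hv => h1 v (List.mem_cons_of_mem _ hv)
    unfold gst
    cases canAdd T G u
    · exact h2
    · intro v hv
      rcases List.mem_cons.mp hv with h | h
      · rw [h]; exact h1 u List.mem_cons_self
      · exact h2 v h

theorem INV_grd (T : ℕ → ℕ → ℕ → Bool) (S : List ℕ) : ∀ v ∈ grd T S, v ∈ S := by
  rw [grd_eq]
  exact INV_grd_mem T S [] (fun v => v ∈ S) (fun v hv => hv) (by simp)

theorem INV_gH_sub (T : ℕ → ℕ → ℕ → Bool) (n : ℕ) (g : List ℕ) :
    (gH T n g).Sublist (List.range n) := by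
  have h1 : (gV T n g).Sublist (List.range n) := prune_sub _ _
  have h2 : (gB1 T n g).Sublist (gV T n g) := List.filter_sublist
  have h3 : (gB2 T n g).Sublist (gB1 T n g) := List.filter_sublist
  have h4 : (gB3 T n g).Sublist (gB2 T n g) := List.filter_sublist
  have h5 : (gH T n g).Sublist (gB3 T n g) := List.filter_sublist
  exact h5.trans (h4.trans (h3.trans (h2.trans h1)))

theorem INV_core_sub (T : ℕ → ℕ → ℕ → Bool) (n : ℕ) (g : List ℕ) :
    (core T n g).Sublist (List.range n) :=
  List.Sublist.trans List.filter_sublist (INV_gH_sub T n g)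

theorem INV_core (T : ℕ → ℕ → ℕ → Bool) (n : ℕ) (g : List ℕ) :
    (core T n g).Nodup ∧ Ind T (core T n g).toFinset ∧ ∀ v ∈ core T n g, v < n := by
  refine ⟨List.nodup_range.sublist (INV_core_sub T n g), ?_, ?_⟩
  · intro a ha b hb c hc
    rw [List.mem_toFinset] at ha hb hc
    unfold core at ha hb hc
    rw [List.mem_filter] at ha hb hc
    have h1 := List.all_eq_true.mp ha.2 b hb.1
    have h2 := List.all_eq_true.mp h1 c hc.1
    simpa using h2
  · intro v hv
    exact List.mem_range.mp ((INV_core_sub T n g).subset hv)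

theorem stmt_INV : Stmt_INV := by
  intro T n hT
  refine ⟨fun g => INV_core T n g, fun t => ?_⟩
  have hg : ∀ S : List ℕ, S.Sublist (List.range n) →
      (grd T S).Nodup ∧ Ind T (grd T S).toFinset ∧ ∀ v ∈ grd T S, v < n := by
    intro S hS
    obtain ⟨a1, a2, a3⟩ := grd_inv hT (List.nodup_range.sublist hS)
    exact ⟨a1, a2, fun v hv => List.mem_range.mp (hS.subset (a3 v hv))⟩
  obtain ⟨a1, a2, a3⟩ := foldl_lg (fun i : ℕ => salg T n i.bits)
    (fun B => B.Nodup ∧ Ind T B.toFinset ∧ ∀ v ∈ B, v < n) (List.range t)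
    (grd T (List.range n)) (hg _ (List.Sublist.refl _)) (fun i _ => by
      unfold salg
      rcases lg_cases (grd T ((List.range n).filter fun u => memb u (nums (ell n + 1) (4 * n) i.bits)))
        (core T n (nums (ell n + 1) (4 * n) i.bits)) with h | h
      · rw [h]; exact INV_core T n _
      · rw [h]; exact hg _ List.filter_sublist)
  refine ⟨a1.1, a1.2.1, a1.2.2, a2, fun i hi => ?_⟩
  have h := a3 i (List.mem_range.mpr hi)
  unfold salg at h
  rw [lg_length] at h
  exact ⟨(le_max_left _ _).trans h, (le_max_right _ _).trans h⟩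

theorem stmt_INM : Stmt_INM := by
  intro T n t
  have hg : ∀ S : List ℕ, S.Sublist (List.range n) → ∀ v ∈ grd T S, v < n :=
    fun S hS v hv => List.mem_range.mp (hS.subset (INV_grd T S v hv))
  obtain ⟨a1, a2, a3⟩ := foldl_lg (fun i : ℕ => salg T n i.bits)
    (fun B => ∀ v ∈ B, v < n) (List.range t)
    (grd T (List.range n)) (hg _ (List.Sublist.refl _)) (fun i _ => by
      unfold salg
      rcases lg_cases (grd T ((List.range n).filter fun u => memb u (nums (ell n + 1) (4 * n) i.bits)))
        (core T n (nums (ell n + 1) (4 * n) i.bits)) with h | h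
      · rw [h]; exact (INV_core T n _).2.2
      · rw [h]; exact hg _ List.filter_sublist)
  exact a1

end Pool.Agent.Work.MP_a23c49_sub
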