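import Pool.Agent.Work.MP_a23c49_sub.Interface1

/-! # Block KAP: the smoothing operator is close to `M` (helper58) -/

namespace Pool.Agent.Work.MP_a23c49_sub

open Matrix Finset

theorem KAP_scalar (x δ : ℝ) (m h : ℕ) (hx : x ^ 2 ≤ 1) (hδ : 0 < δ) (hδ1 : δ ≤ 1)
    (hm : (h : ℝ) / δ ^ 3 ≤ m) : (Pv m h x - x) ^ 2 ≤ δ ^ 2 := by
  have hx1 : |x| ≤ 1 := by
    rw [← sq_abs] at hx
    have := abs_nonneg x
    nlinarith
  have hh : (h : ℝ) ≤ m * δ ^ 3 := (div_le_iff₀ (by positivity)).1 hm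
  have h0 : 0 ≤ 1 - x * x := by nlinarith
  have h1 : 1 - x * x ≤ 1 := by nlinarith [mul_self_nonneg x]
  set t : ℝ := (1 - x * x) ^ m with ht
  have ht0 : 0 ≤ t := pow_nonneg h0 m
  have ht1 : t ≤ 1 := pow_le_one₀ h0 h1
  have hp0 : 0 ≤ (1 - t) ^ h := pow_nonneg (by linarith) h
  have hp1 : (1 - t) ^ h ≤ 1 := pow_le_one₀ (by linarith) (by linarith)
  have he : Pv m h x - x = -(x * (1 - (1 - t) ^ h)) := by
    unfold Pv
    rw [← ht]; ring
  have hgoal : |Pv m h x - x| ≤ δ := by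
    rw [he, abs_neg, abs_mul, abs_of_nonneg (by linarith : 0 ≤ 1 - (1 - t) ^ h)]
    by_cases hc : |x| ≤ δ
    · calc |x| * (1 - (1 - t) ^ h) ≤ |x| * 1 := by
            apply mul_le_mul_of_nonneg_left (by linarith) (abs_nonneg x)
        _ ≤ δ := by linarith
    · rw [not_le] at hc
      have hb : 1 - (1 - t) ^ h ≤ h * t := by
        have := one_add_mul_le_pow (a := -t) (by linarith) h
        have e : (1 + -t) ^ h = (1 - t) ^ h := by ring
        rw [e] at this
        linarith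
      have hxx : δ ^ 2 ≤ x * x := by
        have : δ ^ 2 ≤ |x| ^ 2 := pow_le_pow_left₀ hδ.le hc.le 2
        rw [sq_abs] at this
        nlinarith
      have ht2 : t * (1 + m * δ ^ 2) ≤ 1 := by
        have e1 : t ≤ (1 - δ ^ 2) ^ m := pow_le_pow_left₀ h0 (by linarith) m
        have e2 : 1 + m * δ ^ 2 ≤ (1 + δ ^ 2) ^ m :=
          one_add_mul_le_pow (a := δ ^ 2) (by nlinarith [sq_nonneg δ]) m
        have e3 : (0 : ℝ) ≤ 1 - δ ^ 2 := by nlinarith
        calc t * (1 + m * δ ^ 2) ≤ (1 - δ ^ 2) ^ m * (1 + δ ^ 2) ^ m := by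
              apply mul_le_mul e1 e2 (by positivity) (pow_nonneg e3 m)
          _ = ((1 - δ ^ 2) * (1 + δ ^ 2)) ^ m := by rw [mul_pow]
          _ ≤ 1 := by
              apply pow_le_one₀
              · apply mul_nonneg e3 (by positivity)
              · nlinarith [sq_nonneg (δ ^ 2)]
      have hht : h * t ≤ δ := by
        have hpos : (0 : ℝ) < 1 + m * δ ^ 2 := by positivity
        have e4 : h * t * (1 + m * δ ^ 2) ≤ δ * (1 + m * δ ^ 2) := by
          calc (h : ℝ) * t * (1 + m * δ ^ 2) = (h : ℝ) * (t * (1 + m * δ ^ 2)) := by ring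
            _ ≤ (h : ℝ) * 1 := by apply mul_le_mul_of_nonneg_left ht2 (Nat.cast_nonneg h)
            _ ≤ m * δ ^ 3 := by linarith
            _ ≤ δ * (1 + m * δ ^ 2) := by nlinarith
        exact le_of_mul_le_mul_right e4 hpos
      calc |x| * (1 - (1 - t) ^ h) ≤ 1 * (1 - (1 - t) ^ h) :=
            mul_le_mul_of_nonneg_right hx1 (by linarith)
        _ ≤ δ := by linarith
  calc (Pv m h x - x) ^ 2 = |Pv m h x - x| ^ 2 := (sq_abs _).symm
    _ ≤ δ ^ 2 := pow_le_pow_left₀ (abs_nonneg _) hgoal 2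

theorem stmt_KAP (hE : Stmt_EIG) (hV : Stmt_EVB) (hK : Stmt_KSP) : Stmt_KAP := by
  intro ι _ _ M m h δ hM hC hδ hδ1 hm
  obtain ⟨U, l, hU, hU', rfl⟩ := hE ι M hM
  have hl := (hV ι U l 1 hU hU').1 hC
  have hk := hK ι U l m h hU hU'
  have e : KM (U * diagonal l * Uᵀ) m h - U * diagonal l * Uᵀ =
      U * diagonal (fun i => Pv m h (l i) - l i) * Uᵀ := by
    have : diagonal (fun i => Pv m h (l i) - l i) =
        diagonal (fun i => Pv m h (l i)) - diagonal l := by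
      rw [diagonal_sub]
    rw [hk, this, Matrix.mul_sub, Matrix.sub_mul]
  rw [e]
  exact (hV ι U _ (δ ^ 2) hU hU').2 fun i => KAP_scalar (l i) δ m h (hl i) hδ hδ1 hm

end Pool.Agent.Work.MP_a23c49_sub
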