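import Pool.Agent.Work.MP_a23c49_sub.Interface1

namespace Pool.Agent.Work.MP_a23c49_sub

open Matrix Finset

theorem KCN_mul {ι : Type} [Fintype ι] [DecidableEq ι] (U : Matrix ι ι ℝ) (h1 : Uᵀ * U = 1)
    (f g : ι → ℝ) : (U * diagonal f * Uᵀ) * (U * diagonal g * Uᵀ) =
      U * diagonal (fun i => f i * g i) * Uᵀ := by
  calc (U * diagonal f * Uᵀ) * (U * diagonal g * Uᵀ)
      = U * (diagonal f * (Uᵀ * U) * diagonal g) * Uᵀ := by simp only [Matrix.mul_assoc]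
    _ = _ := by rw [h1, Matrix.mul_one, diagonal_mul_diagonal]

theorem KCN_sub {ι : Type} [Fintype ι] [DecidableEq ι] (U : Matrix ι ι ℝ) (h2 : U * Uᵀ = 1)
    (f : ι → ℝ) : 1 - U * diagonal f * Uᵀ = U * diagonal (fun i => 1 - f i) * Uᵀ := by
  have h : diagonal (fun i => 1 - f i) = (1 : Matrix ι ι ℝ) - diagonal f := by
    rw [← diagonal_one, diagonal_sub]
  rw [h, Matrix.mul_sub, Matrix.sub_mul, Matrix.mul_one, h2]

theorem stmt_KCN (h : Stmt_EIG) (h' : Stmt_EGP) (h'' : Stmt_EVB) : Stmt_KCN := by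
  intro ι _ _ M m hM hC
  obtain ⟨U, l, h1, h2, hU⟩ := h ι M hM
  have hl : ∀ i, l i ^ 2 ≤ 1 := (h'' ι U l 1 h1 h2).1 (hU ▸ hC)
  have e1 : 1 - M * M = U * diagonal (fun i => 1 - l i * l i) * Uᵀ := by
    rw [hU, KCN_mul U h1, KCN_sub U h2]
  have e2 : (1 - M * M) ^ m = U * diagonal (fun i => (1 - l i * l i) ^ m) * Uᵀ := by
    rw [e1, h' ι U _ m h1 h2]
  have e3 : 1 - (1 - M * M) ^ m = U * diagonal (fun i => 1 - (1 - l i * l i) ^ m) * Uᵀ := by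
    rw [e2, KCN_sub U h2]
  have b : ∀ i, 0 ≤ 1 - l i * l i ∧ 1 - l i * l i ≤ 1 := by
    intro i
    have h3 := hl i
    have h4 := mul_self_nonneg (l i)
    constructor <;> nlinarith
  have b2 : ∀ i, 0 ≤ (1 - l i * l i) ^ m ∧ (1 - l i * l i) ^ m ≤ 1 := fun i =>
    ⟨pow_nonneg (b i).1 m, pow_le_one₀ (b i).1 (b i).2⟩
  refine ⟨?_, ?_, ?_⟩
  · rw [e1]
    refine (h'' ι U _ 1 h1 h2).2 fun i => ?_
    exact pow_le_one₀ (b i).1 (b i).2
  · rw [e2]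
    refine (h'' ι U _ 1 h1 h2).2 fun i => ?_
    exact pow_le_one₀ (b2 i).1 (b2 i).2
  · rw [e3]
    refine (h'' ι U _ 1 h1 h2).2 fun i => ?_
    exact pow_le_one₀ (by linarith [(b2 i).2]) (by linarith [(b2 i).1])

end Pool.Agent.Work.MP_a23c49_sub
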