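import Pool.Agent.Work.MP_a23c49_sub.Interface1

namespace Pool.Agent.Work.MP_a23c49_sub

open Matrix Finset

section
variable {ι : Type} [Fintype ι] [DecidableEq ι]

omit [DecidableEq ι] in
theorem KFB_add (x y : ι → ℝ) : nsq x ≤ 2 * nsq y + 2 * nsq (x - y) := by
  simp only [nsq, Finset.mul_sum, ← Finset.sum_add_distrib]
  refine Finset.sum_le_sum fun i _ => ?_
  simp only [Pi.sub_apply]
  nlinarith [sq_nonneg (x i - 2 * y i)]

theorem KFB_col (U : Matrix ι ι ℝ) (hU : Uᵀ * U = 1) (i k : ι) :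
    (Uᵀ *ᵥ (fun j => U j i)) k = if k = i then 1 else 0 := by
  have := congrFun (congrFun hU k) i
  rw [Matrix.one_apply] at this
  rw [← this]
  rfl

theorem KFB_frob (hNSU : Stmt_NSU) (U : Matrix ι ι ℝ) (l : ι → ℝ) (hU : Uᵀ * U = 1)
    (hU' : U * Uᵀ = 1) :
    ∑ i, ∑ j, (U * diagonal l * Uᵀ) i j ^ 2 = ∑ i, l i ^ 2 := by
  rw [Finset.sum_comm]
  have h1 : ∀ j, ∑ i, (U * diagonal l * Uᵀ) i j ^ 2 = ∑ i, l i ^ 2 * U j i ^ 2 := by
    intro j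
    have e : ∀ A : Matrix ι ι ℝ, A *ᵥ (Pi.single j 1) = fun i => A i j := by
      intro A
      ext i
      simp
    have := (hNSU ι U l (Pi.single j 1) hU hU').2
    rw [e, e] at this
    exact this
  rw [Finset.sum_congr rfl fun j _ => h1 j, Finset.sum_comm]
  refine Finset.sum_congr rfl fun i _ => ?_
  rw [← Finset.mul_sum]
  have h2 : ∑ j, U j i ^ 2 = 1 := by
    have := congrFun (congrFun hU i) i
    rw [Matrix.one_apply_eq, Matrix.mul_apply] at this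
    rw [← this]
    exact Finset.sum_congr rfl fun j _ => by rw [Matrix.transpose_apply, sq]
  rw [h2, mul_one]

theorem KFB_G (hNSU : Stmt_NSU) (U G : Matrix ι ι ℝ) (hU : Uᵀ * U = 1)
    (hU' : U * Uᵀ = 1) :
    ∑ i, nsq (G *ᵥ (fun j => U j i)) = ∑ i, ∑ j, G i j ^ 2 := by
  simp only [nsq]
  rw [Finset.sum_comm]
  refine Finset.sum_congr rfl fun a _ => ?_
  have := (hNSU ι U 0 (G a) hU hU').1
  simp only [nsq] at this
  rw [← this]
  refine Finset.sum_congr rfl fun i _ => ?_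
  congr 1
  simp only [Matrix.mulVec, dotProduct, Matrix.transpose_apply]
  exact Finset.sum_congr rfl fun b _ => mul_comm _ _

theorem KFB_Pv1 (m h : ℕ) (x : ℝ) (hx : x ^ 2 ≤ 1) : Pv m h x ^ 2 ≤ 1 := by
  have h0 : 0 ≤ 1 - x * x := by nlinarith
  have h1 : 1 - x * x ≤ 1 := by nlinarith [mul_self_nonneg x]
  have h2 : 0 ≤ (1 - x * x) ^ m := pow_nonneg h0 m
  have h3 : (1 - x * x) ^ m ≤ 1 := pow_le_one₀ h0 h1
  have h4 : 0 ≤ (1 - (1 - x * x) ^ m) ^ h := pow_nonneg (by linarith) h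
  have h5 : (1 - (1 - x * x) ^ m) ^ h ≤ 1 := pow_le_one₀ (by linarith) (by linarith)
  rw [Pv, mul_pow]
  have h6 : ((1 - (1 - x * x) ^ m) ^ h) ^ 2 ≤ 1 := pow_le_one₀ h4 h5
  nlinarith [sq_nonneg x, sq_nonneg ((1 - (1 - x * x) ^ m) ^ h)]

theorem KFB_Pv2 (m h : ℕ) (hm : 1 ≤ m) (x : ℝ) (hx : x ^ 2 ≤ 1) (hx2 : x ^ 2 < 1 / (2 * m)) :
    Pv m h x ^ 2 ≤ 1 / 4 ^ h := by
  have hm' : (0 : ℝ) < m := by exact_mod_cast hm
  have h0 : 0 ≤ 1 - x * x := by nlinarith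
  have h1 : 1 - x * x ≤ 1 := by nlinarith [mul_self_nonneg x]
  have h2 : 0 ≤ (1 - x * x) ^ m := pow_nonneg h0 m
  have h3 : (1 - x * x) ^ m ≤ 1 := pow_le_one₀ h0 h1
  have hb : 1 + (m : ℝ) * (-(x * x)) ≤ (1 + -(x * x)) ^ m :=
    one_add_mul_le_pow (by nlinarith) m
  have hhalf : (m : ℝ) * (x * x) ≤ 1 / 2 := by
    rw [lt_div_iff₀ (by positivity)] at hx2
    nlinarith
  have h4 : 1 - (1 - x * x) ^ m ≤ 1 / 2 := by
    have e : (1 + -(x * x)) ^ m = (1 - x * x) ^ m := by ring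
    rw [e] at hb
    linarith
  have h5 : (1 - (1 - x * x) ^ m) ^ h ≤ (1 / 2) ^ h := pow_le_pow_left₀ (by linarith) h4 h
  have h6 : 0 ≤ (1 - (1 - x * x) ^ m) ^ h := pow_nonneg (by linarith) h
  rw [Pv, mul_pow]
  have h7 : ((1 - (1 - x * x) ^ m) ^ h) ^ 2 ≤ ((1 / 2 : ℝ) ^ h) ^ 2 := pow_le_pow_left₀ h6 h5 2
  have h8 : ((1 / 2 : ℝ) ^ h) ^ 2 = 1 / 4 ^ h := by
    rw [← pow_mul, mul_comm h 2, pow_mul, ← _root_.one_div_pow]
    norm_num
  rw [h8] at h7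
  have h9 : (0 : ℝ) ≤ ((1 - (1 - x * x) ^ m) ^ h) ^ 2 := sq_nonneg _
  nlinarith [sq_nonneg x]

end

theorem stmt_KFB (hEIG : Stmt_EIG) (hNSU : Stmt_NSU) (hKSP : Stmt_KSP) (hEVB : Stmt_EVB) :
    Stmt_KFB := by
  classical
  intro ι _ _ M G m h hM hM1 hG hm hMG
  have hm' : (0 : ℝ) < m := by exact_mod_cast hm
  obtain ⟨U, l, hU, hU', hMU⟩ := hEIG ι M hM
  have hl : ∀ i, l i ^ 2 ≤ 1 := by
    rw [hMU] at hM1
    exact (hEVB ι U l 1 hU hU').1 hM1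
  have hK : ∑ i, ∑ j, KM M m h i j ^ 2 = ∑ i, Pv m h (l i) ^ 2 := by
    rw [hMU, hKSP ι U l m h hU hU']
    exact KFB_frob hNSU U _ hU hU'
  rw [hK]
  set B := univ.filter fun i => 1 / (2 * (m : ℝ)) ≤ l i ^ 2 with hB
  have hlow : ∀ i ∈ B, 1 / (8 * (m : ℝ)) ≤ nsq (G *ᵥ (fun j => U j i)) := by
    intro i hi
    have hi' : 1 / (2 * (m : ℝ)) ≤ l i ^ 2 := (Finset.mem_filter.1 hi).2
    have e1 : nsq (fun j => U j i) = 1 := by
      rw [← (hNSU ι U 0 (fun j => U j i) hU hU').1]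
      simp [nsq, KFB_col U hU i]
    have e2 : nsq (M *ᵥ (fun j => U j i)) = l i ^ 2 := by
      rw [hMU, (hNSU ι U l (fun j => U j i) hU hU').2]
      simp [KFB_col U hU i]
    have e3 := hMG (fun j => U j i)
    rw [e1, mul_one, Matrix.sub_mulVec] at e3
    have e4 := KFB_add (M *ᵥ (fun j => U j i)) (G *ᵥ (fun j => U j i))
    rw [e2] at e4
    have e5 : 1 / (2 * (m : ℝ)) = 4 * (1 / (8 * (m : ℝ))) := by field_simp; norm_num
    linarith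
  have hcard : (B.card : ℝ) ≤ 8 * m := by
    have h1 : (B.card : ℝ) * (1 / (8 * m)) ≤ 1 := by
      calc (B.card : ℝ) * (1 / (8 * m)) = ∑ _i ∈ B, 1 / (8 * (m : ℝ)) := by
            rw [Finset.sum_const, nsmul_eq_mul]
        _ ≤ ∑ i ∈ B, nsq (G *ᵥ (fun j => U j i)) := Finset.sum_le_sum hlow
        _ ≤ ∑ i, nsq (G *ᵥ (fun j => U j i)) :=
            Finset.sum_le_sum_of_subset_of_nonneg (Finset.subset_univ _) fun i _ _ =>
              Finset.sum_nonneg fun _ _ => sq_nonneg _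
        _ = ∑ i, ∑ j, G i j ^ 2 := KFB_G hNSU U G hU hU'
        _ ≤ 1 := hG
    rwa [mul_one_div, div_le_one (by positivity)] at h1
  rw [← Finset.sum_filter_add_sum_filter_not univ (fun i => 1 / (2 * (m : ℝ)) ≤ l i ^ 2)]
  have p1 : ∑ i ∈ B, Pv m h (l i) ^ 2 ≤ 8 * m := by
    calc ∑ i ∈ B, Pv m h (l i) ^ 2 ≤ ∑ _i ∈ B, (1 : ℝ) :=
          Finset.sum_le_sum fun i _ => KFB_Pv1 m h (l i) (hl i)
      _ = B.card := by simp
      _ ≤ 8 * m := hcard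
  have p2 : ∑ i ∈ univ.filter (fun i => ¬ 1 / (2 * (m : ℝ)) ≤ l i ^ 2), Pv m h (l i) ^ 2 ≤
      Fintype.card ι / 4 ^ h := by
    calc ∑ i ∈ univ.filter (fun i => ¬ 1 / (2 * (m : ℝ)) ≤ l i ^ 2), Pv m h (l i) ^ 2
        ≤ ∑ _i ∈ univ.filter (fun i => ¬ 1 / (2 * (m : ℝ)) ≤ l i ^ 2), (1 / 4 ^ h : ℝ) := by
          refine Finset.sum_le_sum fun i hi => ?_
          exact KFB_Pv2 m h hm (l i) (hl i) (not_le.1 (Finset.mem_filter.1 hi).2)
      _ ≤ ∑ _i : ι, (1 / 4 ^ h : ℝ) :=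
          Finset.sum_le_sum_of_subset_of_nonneg (Finset.filter_subset _ _) fun i _ _ => by positivity
      _ = Fintype.card ι / 4 ^ h := by
          rw [Finset.sum_const, Finset.card_univ, nsmul_eq_mul, mul_one_div]
  exact add_le_add p1 p2

end Pool.Agent.Work.MP_a23c49_sub
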