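import Pool.Agent.Work.MP_a23c49_sub.Interface1

namespace Pool.Agent.Work.MP_a23c49_sub

open Matrix Finset

theorem KSP_mul {ι : Type} [Fintype ι] [DecidableEq ι] (U : Matrix ι ι ℝ) (h1 : Uᵀ * U = 1)
    (f g : ι → ℝ) : (U * diagonal f * Uᵀ) * (U * diagonal g * Uᵀ) =
      U * diagonal (fun i => f i * g i) * Uᵀ := by
  calc (U * diagonal f * Uᵀ) * (U * diagonal g * Uᵀ)
      = U * (diagonal f * (Uᵀ * U) * diagonal g) * Uᵀ := by simp only [Matrix.mul_assoc]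
    _ = _ := by rw [h1, Matrix.mul_one, diagonal_mul_diagonal]

theorem KSP_sub {ι : Type} [Fintype ι] [DecidableEq ι] (U : Matrix ι ι ℝ) (h2 : U * Uᵀ = 1)
    (f : ι → ℝ) : 1 - U * diagonal f * Uᵀ = U * diagonal (fun i => 1 - f i) * Uᵀ := by
  have h : diagonal (fun i => 1 - f i) = (1 : Matrix ι ι ℝ) - diagonal f := by
    rw [← diagonal_one, diagonal_sub]
  rw [h, Matrix.mul_sub, Matrix.sub_mul, Matrix.mul_one, h2]

theorem stmt_KSP (h : Stmt_EGP) : Stmt_KSP := by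
  intro ι _ _ U l m k h1 h2
  unfold KM
  rw [KSP_mul U h1, KSP_sub U h2, h ι U _ m h1 h2, KSP_sub U h2, h ι U _ k h1 h2, KSP_mul U h1]
  rfl

end Pool.Agent.Work.MP_a23c49_sub
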