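import Pool.Agent.Work.MP_a23c49_sub.Interface1

/-!
# Block MIN (helper62)
-/

namespace Pool.Agent.Work.MP_a23c49_sub

open Matrix Finset

theorem MIN_avg {ι κ : Type} [Fintype ι] [DecidableEq ι] (A : Finset κ) (T : κ → Matrix ι ι ℝ)
    (hT : ∀ a ∈ A, Con 1 (T a)) : Con 1 ((1 / (A.card : ℝ)) • ∑ a ∈ A, T a) := by
  intro x
  rw [one_mul]
  rcases A.eq_empty_or_nonempty with rfl | hne
  · simp only [Finset.sum_empty, smul_zero, zero_mulVec]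
    unfold nsq
    have : ∑ i : ι, (0 : ι → ℝ) i ^ 2 = 0 := by simp
    rw [this]
    exact Finset.sum_nonneg fun i _ => sq_nonneg _
  have hc : (0 : ℝ) < A.card := by exact_mod_cast hne.card_pos
  have h1 : ((1 / (A.card : ℝ)) • ∑ a ∈ A, T a) *ᵥ x =
      fun i => (1 / (A.card : ℝ)) * ∑ a ∈ A, (T a *ᵥ x) i := by
    rw [smul_mulVec, sum_mulVec]
    ext i
    simp only [Pi.smul_apply, smul_eq_mul, Finset.sum_apply]
  rw [h1]
  have h2 : ∀ i, ((1 / (A.card : ℝ)) * ∑ a ∈ A, (T a *ᵥ x) i) ^ 2 ≤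
      (1 / (A.card : ℝ)) * ∑ a ∈ A, (T a *ᵥ x) i ^ 2 := by
    intro i
    have h3 : (∑ a ∈ A, (T a *ᵥ x) i) ^ 2 ≤ A.card * ∑ a ∈ A, (T a *ᵥ x) i ^ 2 :=
      sq_sum_le_card_mul_sum_sq
    have h4 : ((1 / (A.card : ℝ)) * ∑ a ∈ A, (T a *ᵥ x) i) ^ 2 =
        (1 / (A.card : ℝ)) ^ 2 * (∑ a ∈ A, (T a *ᵥ x) i) ^ 2 := by ring
    rw [h4]
    have h5 : (1 / (A.card : ℝ)) ^ 2 * (∑ a ∈ A, (T a *ᵥ x) i) ^ 2 ≤
        (1 / (A.card : ℝ)) ^ 2 * (A.card * ∑ a ∈ A, (T a *ᵥ x) i ^ 2) :=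
      mul_le_mul_of_nonneg_left h3 (by positivity)
    refine h5.trans (le_of_eq ?_)
    field_simp
  unfold nsq
  calc ∑ i, ((1 / (A.card : ℝ)) * ∑ a ∈ A, (T a *ᵥ x) i) ^ 2
      ≤ ∑ i, (1 / (A.card : ℝ)) * ∑ a ∈ A, (T a *ᵥ x) i ^ 2 := Finset.sum_le_sum fun i _ => h2 i
    _ = (1 / (A.card : ℝ)) * ∑ a ∈ A, ∑ i, (T a *ᵥ x) i ^ 2 := by
        rw [← Finset.mul_sum, Finset.sum_comm]
    _ ≤ (1 / (A.card : ℝ)) * ∑ a ∈ A, ∑ i, x i ^ 2 := by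
        refine mul_le_mul_of_nonneg_left (Finset.sum_le_sum fun a ha => ?_) (by positivity)
        have := hT a ha x
        rw [one_mul] at this
        exact this
    _ = ∑ i, x i ^ 2 := by
        rw [Finset.sum_const, nsmul_eq_mul]
        field_simp

theorem stmt_MIN : Stmt_MIN := by
  refine ⟨?_, fun ι κ _ _ A T hT => MIN_avg A T hT, ?_⟩
  · intro ι _ x y
    have h : ∀ z : ι → ℝ, √(nsq z) = ‖WithLp.toLp 2 z‖ := by
      intro z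
      rw [EuclideanSpace.norm_eq]
      unfold nsq
      congr 1
      exact Finset.sum_congr rfl fun i _ => by rw [Real.norm_eq_abs, sq_abs]
    rw [h, h, h, WithLp.toLp_add]
    exact norm_add_le _ _
  · intro ι _ _ s T hT
    have h := MIN_avg (univ : Finset (Fin s)) T (fun a _ => hT a)
    rwa [Finset.card_fin] at h

end Pool.Agent.Work.MP_a23c49_sub
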