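import Pool.Agent.Work.MP_a23c49_sub.Interface1

namespace Pool.Agent.Work.MP_a23c49_sub

open Matrix Finset

set_option linter.unusedSectionVars false

section
variable {ι κ : Type} [Fintype ι] [DecidableEq ι] [Fintype κ] [DecidableEq κ]

/-- exchange the `i`-th coordinate with the spare value -/
def MOM_e {s : ℕ} (i : Fin s) : Equiv.Perm ((Fin s → κ) × κ) where
  toFun p := (Function.update p.1 i p.2, p.1 i)
  invFun p := (Function.update p.1 i p.2, p.1 i)
  left_inv p := by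
    ext1
    · simp
    · simp
  right_inv p := by
    ext1
    · simp
    · simp

theorem MOM_swap {s : ℕ} (i : Fin s) (f : (Fin s → κ) × κ → ℝ) :
    ∑ p : (Fin s → κ) × κ, f (Function.update p.1 i p.2, p.1 i) = ∑ p, f p :=
  Equiv.sum_comp (MOM_e i) f

theorem MOM_upd {s : ℕ} (i : Fin s) (X : κ → Matrix ι ι ℝ) (w : Fin s → κ) (c : κ) :
    (∑ j, X (w j)) - (∑ j, X (Function.update w i c j)) = X (w i) - X c := by
  have e : ∑ j ∈ univ.erase i, X (Function.update w i c j) = ∑ j ∈ univ.erase i, X (w j) := by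
    refine Finset.sum_congr rfl fun j hj => ?_
    rw [Function.update_of_ne (Finset.ne_of_mem_erase hj)]
  have e1 := Finset.add_sum_erase univ (fun j => X (w j)) (Finset.mem_univ i)
  have e2 := Finset.add_sum_erase univ (fun j => X (Function.update w i c j)) (Finset.mem_univ i)
  rw [← e1, ← e2, e, Function.update_self]
  abel

omit [Fintype ι] [DecidableEq ι] [Fintype κ] [DecidableEq κ] in
theorem MOM_T (X : κ → Matrix ι ι ℝ) (hX : ∀ a, (X a)ᵀ = X a) {s : ℕ} (w : Fin s → κ) :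
    (∑ i, X (w i))ᵀ = ∑ i, X (w i) := by
  rw [Matrix.transpose_sum]
  exact Finset.sum_congr rfl fun i _ => hX _

theorem MOM_F (hTRI : Stmt_TRI) (hTRY : Stmt_TRY) (X : κ → Matrix ι ι ℝ)
    (hX : ∀ a, (X a)ᵀ = X a) (h0 : ∑ a, X a = 0) (h4 : ∀ a b, Con 4 (X a - X b)) {s : ℕ}
    (r : ℕ) (i : Fin s) :
    ∑ w : Fin s → κ, trace (X (w i) * (∑ j, X (w j)) ^ (2 * r + 1)) ≤
      4 * (2 * r + 1) * ∑ w : Fin s → κ, trace ((∑ j, X (w j)) ^ (2 * r)) := by
  rcases isEmpty_or_nonempty κ with hκ | hκ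
  · have : IsEmpty (Fin s → κ) := ⟨fun w => hκ.elim (w i)⟩
    simp
  set S : (Fin s → κ) → Matrix ι ι ℝ := fun w => ∑ j, X (w j) with hS
  set N : ℝ := (Fintype.card κ : ℝ) with hN
  have hNpos : 0 < N := by rw [hN]; exact_mod_cast Fintype.card_pos
  set F := ∑ w : Fin s → κ, trace (X (w i) * S w ^ (2 * r + 1)) with hF
  set G := ∑ w : Fin s → κ, trace (S w ^ (2 * r)) with hG
  have hc1 : ∀ f : (Fin s → κ) → ℝ, ∑ p : (Fin s → κ) × κ, f p.1 = N * ∑ w, f w := by
    intro f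
    rw [Fintype.sum_prod_type]
    simp [hN, Finset.mul_sum]
  have h1 : ∑ p : (Fin s → κ) × κ, trace (X (p.1 i) * S p.1 ^ (2 * r + 1)) = N * F :=
    hc1 (fun w => trace (X (w i) * S w ^ (2 * r + 1)))
  have h2 : ∑ p : (Fin s → κ) × κ, trace (X p.2 * S p.1 ^ (2 * r + 1)) = 0 := by
    rw [Fintype.sum_prod_type]
    refine Finset.sum_eq_zero fun w _ => ?_
    have : ∑ c, trace (X c * S w ^ (2 * r + 1)) = trace ((∑ c, X c) * S w ^ (2 * r + 1)) := by
      rw [Finset.sum_mul, Matrix.trace_sum]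
    rw [this, h0]
    simp
  have h3 : ∑ p : (Fin s → κ) × κ, trace (X (p.1 i) * S (Function.update p.1 i p.2) ^ (2 * r + 1))
      = 0 := by
    rw [← h2, ← MOM_swap i]
    refine Finset.sum_congr rfl fun p _ => ?_
    simp
  have h4' : ∑ p : (Fin s → κ) × κ, trace (X p.2 * S (Function.update p.1 i p.2) ^ (2 * r + 1))
      = N * F := by
    rw [← h1, ← MOM_swap i]
    refine Finset.sum_congr rfl fun p _ => ?_
    simp
  have h5 : 2 * (N * F) = ∑ p : (Fin s → κ) × κ, trace ((S p.1 - S (Function.update p.1 i p.2)) *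
      (S p.1 ^ (2 * r + 1) - S (Function.update p.1 i p.2) ^ (2 * r + 1))) := by
    have : ∀ p : (Fin s → κ) × κ, trace ((S p.1 - S (Function.update p.1 i p.2)) *
      (S p.1 ^ (2 * r + 1) - S (Function.update p.1 i p.2) ^ (2 * r + 1))) =
      trace (X (p.1 i) * S p.1 ^ (2 * r + 1)) - trace (X p.2 * S p.1 ^ (2 * r + 1)) -
      trace (X (p.1 i) * S (Function.update p.1 i p.2) ^ (2 * r + 1)) +
      trace (X p.2 * S (Function.update p.1 i p.2) ^ (2 * r + 1)) := by
      intro p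
      have hd : S p.1 - S (Function.update p.1 i p.2) = X (p.1 i) - X p.2 := MOM_upd i X p.1 p.2
      rw [hd, sub_mul, mul_sub, mul_sub]
      simp only [Matrix.trace_sub]
      ring
    rw [Finset.sum_congr rfl fun p _ => this p]
    rw [Finset.sum_add_distrib, Finset.sum_sub_distrib, Finset.sum_sub_distrib, h1, h2, h3, h4']
    ring
  have h6 : ∑ p : (Fin s → κ) × κ, trace ((S p.1 - S (Function.update p.1 i p.2)) *
      (S p.1 ^ (2 * r + 1) - S (Function.update p.1 i p.2) ^ (2 * r + 1))) ≤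
      ∑ p : (Fin s → κ) × κ, (2 * (r : ℝ) + 1) * (4 * trace (S p.1 ^ (2 * r)) +
        4 * trace (S (Function.update p.1 i p.2) ^ (2 * r))) := by
    refine Finset.sum_le_sum fun p _ => ?_
    refine (hTRI ι _ _ r (MOM_T X hX _) (MOM_T X hX _)).trans ?_
    have hd : S p.1 - S (Function.update p.1 i p.2) = X (p.1 i) - X p.2 := MOM_upd i X p.1 p.2
    have hYT : (X (p.1 i) - X p.2)ᵀ = X (p.1 i) - X p.2 := by
      rw [Matrix.transpose_sub, hX, hX]
    have e1 := hTRY ι (X (p.1 i) - X p.2) (S p.1) r 4 hYT (MOM_T X hX _) (h4 _ _)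
    have e2 := hTRY ι (X (p.1 i) - X p.2) (S (Function.update p.1 i p.2)) r 4 hYT
      (MOM_T X hX _) (h4 _ _)
    rw [← hd] at e1 e2
    exact mul_le_mul_of_nonneg_left (add_le_add e1 e2) (by positivity)
  have h7 : ∑ p : (Fin s → κ) × κ, (2 * (r : ℝ) + 1) * (4 * trace (S p.1 ^ (2 * r)) +
        4 * trace (S (Function.update p.1 i p.2) ^ (2 * r))) = 2 * (N * (4 * (2 * r + 1) * G)) := by
    rw [← Finset.mul_sum, Finset.sum_add_distrib, ← Finset.mul_sum, ← Finset.mul_sum]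
    have e1 : ∑ p : (Fin s → κ) × κ, trace (S p.1 ^ (2 * r)) = N * G :=
      hc1 (fun w => trace (S w ^ (2 * r)))
    have e2 : ∑ p : (Fin s → κ) × κ, trace (S (Function.update p.1 i p.2) ^ (2 * r)) = N * G := by
      rw [← e1, ← MOM_swap i]
      refine Finset.sum_congr rfl fun p _ => ?_
      simp
    rw [e1, e2]
    ring
  have h8 : 2 * (N * F) ≤ 2 * (N * (4 * (2 * r + 1) * G)) := by
    rw [h5, ← h7]; exact h6
  have h9 : N * F ≤ N * (4 * (2 * r + 1) * G) := by linarith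
  exact le_of_mul_le_mul_left h9 hNpos

end

theorem stmt_MOM (hTRI : Stmt_TRI) (hTRY : Stmt_TRY) : Stmt_MOM := by
  intro ι κ _ _ _ _ X hX h0 h4 s r
  have h1 : ∀ w : Fin s → κ, trace ((∑ i, X (w i)) ^ (2 * (r + 1))) =
      ∑ i, trace (X (w i) * (∑ j, X (w j)) ^ (2 * r + 1)) := by
    intro w
    rw [show 2 * (r + 1) = (2 * r + 1) + 1 by ring, pow_succ', Finset.sum_mul, Matrix.trace_sum]
  rw [Finset.sum_congr rfl fun w _ => h1 w, Finset.sum_comm]
  calc ∑ i : Fin s, ∑ w : Fin s → κ, trace (X (w i) * (∑ j, X (w j)) ^ (2 * r + 1))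
      ≤ ∑ i : Fin s, 4 * (2 * (r : ℝ) + 1) * ∑ w : Fin s → κ, trace ((∑ j, X (w j)) ^ (2 * r)) :=
        Finset.sum_le_sum fun i _ => MOM_F hTRI hTRY X hX h0 h4 r i
    _ = 4 * s * (2 * r + 1) * ∑ w : Fin s → κ, trace ((∑ i, X (w i)) ^ (2 * r)) := by
        rw [Finset.sum_const, Finset.card_univ, Fintype.card_fin, nsmul_eq_mul]
        ring

end Pool.Agent.Work.MP_a23c49_sub
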