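import Pool.Agent.Work.MP_a23c49_sub.Interface1

/-! # Block OPA (helper96) -/

namespace Pool.Agent.Work.MP_a23c49_sub

open Matrix Finset
open Pool.Agent.Work.MP_a23c49_lc (LS Ind)

theorem stmt_OPA (hSCH : Stmt_SCH) : Stmt_OPA := by
  intro T n L V hT hL _ hline w
  have hLr : (0 : ℝ) < L := by exact_mod_cast hL
  have hsym : (Tm T n V L w)ᵀ = Tm T n V L w := by
    funext u v
    rw [Matrix.transpose_apply]
    unfold Tm
    have h1 : T v.val u.val w = T u.val v.val w := hT.swap12 _ _ _
    rw [h1]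
    by_cases h : u.val ∈ V ∧ v.val ∈ V ∧ T u.val v.val w = true
    · rw [if_pos h, if_pos ⟨h.2.1, h.1, h.2.2⟩]
    · rw [if_neg h, if_neg fun h2 => h ⟨h2.2.1, h2.1, h2.2.2⟩]
  refine ⟨hsym, hSCH (Fin n) _ hsym ?_ ?_⟩
  · intro i j
    unfold Tm
    split_ifs
    · positivity
    · exact le_rfl
  · intro u
    have h1 : ∑ v, Tm T n V L w u v ≤
        ∑ v ∈ (Finset.univ.filter fun v : Fin n => v.val ∈ V ∧ T u.val w v.val = true), 1 / (L : ℝ) := by
      rw [Finset.sum_filter]
      refine Finset.sum_le_sum fun v _ => ?_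
      unfold Tm
      by_cases h : u.val ∈ V ∧ v.val ∈ V ∧ T u.val v.val w = true
      · rw [if_pos h, if_pos ⟨h.2.1, by rw [← h.2.2]; exact hT.swap23 _ _ _⟩]
      · rw [if_neg h]
        split_ifs
        · positivity
        · exact le_rfl
    have h2 : (Finset.univ.filter fun v : Fin n => v.val ∈ V ∧ T u.val w v.val = true).card ≤ L := by
      refine le_trans ?_ (hline u.val w)
      rw [← Finset.card_map Fin.valEmbedding]
      refine Finset.card_le_card ?_
      intro c hc
      rw [Finset.mem_map] at hc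
      obtain ⟨v, hv, rfl⟩ := hc
      rw [Finset.mem_filter] at hv ⊢
      exact hv.2
    refine h1.trans ?_
    rw [Finset.sum_const, nsmul_eq_mul, mul_one_div, div_le_one hLr]
    exact_mod_cast h2

end Pool.Agent.Work.MP_a23c49_sub
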