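import Pool.Agent.Work.MP_a23c49_sub.Interface1
import Pool.Agent.Work.MP_a23c49_lc.Prune

/-! # Block OPB of MP_a23c49_sub (helper60) -/

set_option autoImplicit false

namespace Pool.Agent.Work.MP_a23c49_sub

open Matrix Finset
open Pool.Agent.Work.MP_a23c49_lc (LS Ind line_le_two)

theorem OPB_G (T : ℕ → ℕ → ℕ → Bool) (n L : ℕ) (V A : Finset ℕ) (i j : Fin n) :
    Gm T n V L A i j = if i.val ∈ V ∧ j.val ∈ V then
      ((A.filter fun w => T i.val j.val w = true).card : ℝ) / (L * A.card) else 0 := by
  unfold Gm
  rw [Matrix.smul_apply, Matrix.sum_apply, smul_eq_mul]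
  unfold Tm
  split_ifs with h
  · have e : ∑ c ∈ A, (if i.val ∈ V ∧ j.val ∈ V ∧ T i.val j.val c = true then 1 / (L : ℝ) else 0) =
        ((A.filter fun w => T i.val j.val w = true).card : ℝ) * (1 / L) := by
      rw [card_filter, Nat.cast_sum, sum_mul]
      apply sum_congr rfl
      intro c _
      by_cases hc : T i.val j.val c = true
      · rw [if_pos ⟨h.1, h.2, hc⟩, if_pos hc]
        simp
      · rw [if_neg (fun hh => hc hh.2.2), if_neg hc]
        simp
    rw [e, ← div_div]
    ring
  · have e : ∑ c ∈ A, (if i.val ∈ V ∧ j.val ∈ V ∧ T i.val j.val c = true then 1 / (L : ℝ) else 0) =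
        0 := by
      apply sum_eq_zero
      intro c _
      rw [if_neg (fun hh => h ⟨hh.1, hh.2.1⟩)]
    rw [e, mul_zero]

theorem stmt_OPB : Stmt_OPB := by
  intro T n L V A hT hL hV hAV hA hA1
  have hLR : (0 : ℝ) < L := by exact_mod_cast hL
  have hAR : (0 : ℝ) < A.card := by exact_mod_cast hA1
  constructor
  · intro h2
    have hent : ∀ i j : Fin n, Gm T n V L A i j ^ 2 ≤ (2 / (L * A.card)) ^ 2 := by
      intro i j
      rw [OPB_G]
      split_ifs with h
      · apply pow_le_pow_left₀ (by positivity)
        apply div_le_div_of_nonneg_right _ (by positivity)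
        have := line_le_two hT hA i.val j.val
        exact_mod_cast this
      · rw [zero_pow two_ne_zero]
        positivity
    calc ∑ i, ∑ j, Gm T n V L A i j ^ 2 ≤ ∑ i : Fin n, ∑ j : Fin n, (2 / ((L : ℝ) * A.card)) ^ 2 :=
          sum_le_sum fun i _ => sum_le_sum fun j _ => hent i j
      _ = (2 * n / (L * A.card)) ^ 2 := by
          simp only [sum_const, card_univ, Fintype.card_fin, nsmul_eq_mul]
          ring
      _ ≤ 1 := by
          rw [sq_le_one_iff₀ (by positivity), div_le_one (by positivity)]
          exact h2
  · intro B hB u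
    have e1 : (Gm T n V L A *ᵥ ind n B) u = ∑ v : Fin n,
        (fun v : ℕ => if u.val ∈ V ∧ v ∈ B then
          ((A.filter fun w => T u.val v w = true).card : ℝ) / (L * A.card) else 0) v.val := by
      rw [Matrix.mulVec, dotProduct]
      apply sum_congr rfl
      intro v _
      rw [OPB_G]
      unfold ind
      by_cases hv : v.val ∈ B
      · have hvV := hB hv
        by_cases hu : u.val ∈ V
        · simp [hv, hvV, hu]
        · simp [hu]
      · simp [hv]
    rw [e1, Fin.sum_univ_eq_sum_range (fun v : ℕ => if u.val ∈ V ∧ v ∈ B then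
          ((A.filter fun w => T u.val v w = true).card : ℝ) / (L * A.card) else 0)]
    split_ifs with hu
    · have e2 : ∑ v ∈ range n, (if u.val ∈ V ∧ v ∈ B then
          ((A.filter fun w => T u.val v w = true).card : ℝ) / (L * A.card) else 0) =
          ∑ v ∈ B, ((A.filter fun w => T u.val v w = true).card : ℝ) / (L * A.card) := by
        have e3 : (range n).filter (fun v => v ∈ B) = B := by
          ext v
          rw [mem_filter, mem_range]
          exact ⟨fun h => h.2, fun h => ⟨hV v (hB h), h⟩⟩
        rw [← e3, sum_filter, e3]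
        apply sum_congr rfl
        intro v _
        simp [hu]
      rw [e2, ← sum_div]
      congr 1
      unfold pairs
      rw [card_filter, sum_product]
      push_cast
      apply sum_congr rfl
      intro v _
      rw [card_filter]
      push_cast
      rfl
    · apply sum_eq_zero
      intro v _
      rw [if_neg (fun h => hu h.1)]

end Pool.Agent.Work.MP_a23c49_sub

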