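import Pool.Agent.Work.MP_a23c49_sub.Interface2

/-!
# Block PCR: the procedure for a guess is polynomial-time
-/

namespace Pool.Agent.Work.MP_a23c49_sub

open Pool.Agent.Work.MP_a23c49_lc (LS Ind prune grd lg TL)
open Pool.Agent.Work.TMLib

set_option linter.unusedSectionVars false

/-- input type -/
abbrev PCR_I : Type := List (ℕ × ℕ × ℕ) × ℕ × List ℕ

section
variable {α : Type} [DE α]

theorem PCR_lv {n : α → ℕ} {f : α → ℕ → ℕ} (hn : PolyF n)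
    (hf : PolyF (fun p : α × ℕ => f p.1 p.2)) : PolyF (fun x => lv (n x) (f x)) := by
  unfold lv
  exact PolyF.map (by fun_prop) hf

@[fun_prop]
theorem PCR_ell {n : α → ℕ} (hn : PolyF n) : PolyF (fun x => ell (n x)) := by
  unfold ell
  fun_prop

variable [hP : Fact Stmt_PDM]

@[fun_prop]
theorem PCR_div {f g : α → ℕ} (hf : PolyF f) (hg : PolyF g) : PolyF (fun x => f x / g x) :=
  hP.out.1 α f g hf hg

@[fun_prop]
theorem PCR_mod {f g : α → ℕ} (hf : PolyF f) (hg : PolyF g) : PolyF (fun x => f x % g x) :=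
  hP.out.2.1 α f g hf hg

@[fun_prop]
theorem PCR_min {f g : α → ℕ} (hf : PolyF f) (hg : PolyF g) : PolyF (fun x => min (f x) (g x)) :=
  hP.out.2.2.1 α f g hf hg

theorem PCR_pow {f : α → ℕ} (k : ℕ) (hf : PolyF f) : PolyF (fun x => f x ^ k) :=
  hP.out.2.2.2.1 α f k hf

@[fun_prop]
theorem PCR_pD {f : α → ℕ} (hf : PolyF f) : PolyF (fun x => pD (f x)) := by
  have := PCR_pow 10 hf
  unfold pD
  exact PolyF.mul (by fun_prop) this

@[fun_prop]
theorem PCR_pL {f : α → ℕ} (hf : PolyF f) : PolyF (fun x => pL (f x)) := by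
  have := PCR_pow 2 hf
  unfold pL
  exact PolyF.mul (by fun_prop) this

@[fun_prop]
theorem PCR_pm {n f : α → ℕ} (hn : PolyF n) (hf : PolyF f) : PolyF (fun x => pm (n x) (f x)) := by
  have := PCR_pow 3 (PCR_pD hf)
  unfold pm
  exact PolyF.mul (by fun_prop) this

@[fun_prop]
theorem PCR_ps {n f : α → ℕ} (hn : PolyF n) (hf : PolyF f) : PolyF (fun x => ps (n x) (f x)) := by
  unfold ps
  fun_prop

@[fun_prop]
theorem PCR_pk {n f : α → ℕ} (hn : PolyF n) (hf : PolyF f) : PolyF (fun x => pk (n x) (f x)) := by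
  have := PCR_pow 2 (PCR_pD hf)
  unfold pk
  exact PolyF.mul (by fun_prop) this

@[fun_prop]
theorem PCR_pN {n f : α → ℕ} (hn : PolyF n) (hf : PolyF f) : PolyF (fun x => pN (n x) (f x)) := by
  unfold pN
  fun_prop

@[fun_prop]
theorem PCR_pcap {n f : α → ℕ} (hn : PolyF n) (hf : PolyF f) :
    PolyF (fun x => pcap (n x) (f x)) := by
  unfold pcap
  fun_prop

theorem PCR_cnt' : PolyF (fun p : (List (ℕ × ℕ × ℕ) × List ℕ) × (List ℕ × List ℕ × ℕ) =>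
    cnt (TL p.1.1) p.1.2 p.2.1 p.2.2.1 p.2.2.2) := by
  unfold cnt
  refine PolyF.sum (PolyF.map
    (f := fun (p : (List (ℕ × ℕ × ℕ) × List ℕ) × (List ℕ × List ℕ × ℕ)) (w : ℕ) =>
      (p.1.2.map fun v => bif TL p.1.1 p.2.2.2 v w then p.2.2.1.getD v 0 else 0).sum)
    (by fun_prop) ?_)
  refine PolyF.sum (PolyF.map
    (f := fun (p : ((List (ℕ × ℕ × ℕ) × List ℕ) × (List ℕ × List ℕ × ℕ)) × ℕ) (v : ℕ) =>
      bif TL p.1.1.1 p.1.2.2.2 v p.2 then p.1.2.2.1.getD v 0 else 0)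
    (by fun_prop) ?_)
  fun_prop

@[fun_prop]
theorem PCR_cnt {L : α → List (ℕ × ℕ × ℕ)} {V W z : α → List ℕ} {u : α → ℕ} (hL : PolyF L)
    (hV : PolyF V) (hW : PolyF W) (hz : PolyF z) (hu : PolyF u) :
    PolyF (fun x => cnt (TL (L x)) (V x) (W x) (z x) (u x)) :=
  PolyF.comp (f := fun p : (List (ℕ × ℕ × ℕ) × List ℕ) × (List ℕ × List ℕ × ℕ) =>
    cnt (TL p.1.1) p.1.2 p.2.1 p.2.2.1 p.2.2.2)
    (g := fun x => ((L x, V x), (W x, z x, u x))) PCR_cnt' (by fun_prop)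

theorem PCR_degL' : PolyF (fun p : List (ℕ × ℕ × ℕ) × List ℕ × ℕ =>
    degL (TL p.1) p.2.1 p.2.2) := by
  unfold degL
  refine PolyF.sum (PolyF.map
    (f := fun (p : List (ℕ × ℕ × ℕ) × List ℕ × ℕ) (v : ℕ) =>
      (p.2.1.filter fun w => TL p.1 p.2.2 v w).length) (by fun_prop) ?_)
  refine PolyF.length (PolyF.filter
    (f := fun (p : (List (ℕ × ℕ × ℕ) × List ℕ × ℕ) × ℕ) (w : ℕ) => TL p.1.1 p.1.2.2 p.2 w)
    (by fun_prop) ?_)
  fun_prop

@[fun_prop]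
theorem PCR_degL {L : α → List (ℕ × ℕ × ℕ)} {B : α → List ℕ} {u : α → ℕ} (hL : PolyF L)
    (hB : PolyF B) (hu : PolyF u) : PolyF (fun x => degL (TL (L x)) (B x) (u x)) :=
  PolyF.comp (f := fun p : List (ℕ × ℕ × ℕ) × List ℕ × ℕ => degL (TL p.1) p.2.1 p.2.2)
    (g := fun x => (L x, B x, u x)) PCR_degL' (by fun_prop)

/-! ### The procedure -/

theorem PCR_gV' : PolyF (fun p : PCR_I => gV (TL p.1) p.2.1 p.2.2) := by
  unfold gV
  fun_prop

@[fun_prop]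
theorem PCR_gV {L : α → List (ℕ × ℕ × ℕ)} {n : α → ℕ} {g : α → List ℕ} (hL : PolyF L)
    (hn : PolyF n) (hg : PolyF g) : PolyF (fun x => gV (TL (L x)) (n x) (g x)) :=
  PolyF.comp (f := fun p : PCR_I => gV (TL p.1) p.2.1 p.2.2) (g := fun x => (L x, n x, g x))
    PCR_gV' (by fun_prop)

theorem PCR_gW' : PolyF (fun p : ℕ × List ℕ => gW p.1 p.2) := by
  unfold gW
  exact PolyF.map (f := fun (p : ℕ × List ℕ) (i : ℕ) => p.2.getD (7 + i) 0) (by fun_prop)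
    (by fun_prop)

@[fun_prop]
theorem PCR_gW {n : α → ℕ} {g : α → List ℕ} (hn : PolyF n) (hg : PolyF g) :
    PolyF (fun x => gW (n x) (g x)) :=
  PolyF.comp (f := fun p : ℕ × List ℕ => gW p.1 p.2) (g := fun x => (n x, g x))
    PCR_gW' (by fun_prop)

theorem PCR_gR' : PolyF (fun p : ℕ × List ℕ => gR p.1 p.2) := by
  unfold gR
  exact PolyF.map (f := fun (p : ℕ × List ℕ) (i : ℕ) =>
    p.2.getD (7 + ps p.1 (p.2.getD 0 0) + i) 0) (by fun_prop) (by fun_prop)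

@[fun_prop]
theorem PCR_gR {n : α → ℕ} {g : α → List ℕ} (hn : PolyF n) (hg : PolyF g) :
    PolyF (fun x => gR (n x) (g x)) :=
  PolyF.comp (f := fun p : ℕ × List ℕ => gR p.1 p.2) (g := fun x => (n x, g x))
    PCR_gR' (by fun_prop)

variable [hM : Fact Stmt_PML]

@[fun_prop]
theorem PCR_gM {L : α → List (ℕ × ℕ × ℕ)} {n : α → ℕ} {g z : α → List ℕ} (hL : PolyF L)
    (hn : PolyF n) (hg : PolyF g) (hz : PolyF z) :
    PolyF (fun x => gM (TL (L x)) (n x) (g x) (z x)) := by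
  unfold gM
  exact hM.out α L n (fun x => ps (n x) ((g x).getD 0 0) * pL ((g x).getD 0 0))
    (fun x => gV (TL (L x)) (n x) (g x)) (fun x => gW (n x) (g x)) z hL hn (by fun_prop)
    (by fun_prop) (by fun_prop) hz

variable [hS : Fact Stmt_PSM]

theorem PCR_gZ' : PolyF (fun p : PCR_I => gZ (TL p.1) p.2.1 p.2.2) := by
  have h1 : PolyF (fun p : PCR_I => lv p.2.1 fun u => pN p.2.1 (p.2.2.getD 0 0) *
      ((gR p.2.1 p.2.2).filter fun r => decide (r = u)).length) := by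
    refine PCR_lv (f := fun (p : PCR_I) u => pN p.2.1 (p.2.2.getD 0 0) *
      ((gR p.2.1 p.2.2).filter fun r => decide (r = u)).length) (by fun_prop) ?_
    refine PolyF.mul (by fun_prop) (PolyF.length (PolyF.filter
      (f := fun (p : PCR_I × ℕ) r => decide (r = p.2)) (by fun_prop) (by fun_prop)))
  have h2 : PolyF (fun p : PCR_I => lv p.2.1 fun _ => 0) :=
    PCR_lv (f := fun (p : PCR_I) _ => 0) (by fun_prop) (by fun_prop)
  exact hS.out PCR_I (fun p => p.1) (fun p => p.2.1)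
    (fun p => ps p.2.1 (p.2.2.getD 0 0) * pL (p.2.2.getD 0 0))
    (fun p => pcap p.2.1 (p.2.2.getD 0 0)) (fun p => pm p.2.1 (p.2.2.getD 0 0))
    (fun p => ell p.2.1) (fun p => gV (TL p.1) p.2.1 p.2.2) (fun p => gW p.2.1 p.2.2)
    (fun p => (lv p.2.1 fun u => pN p.2.1 (p.2.2.getD 0 0) *
      ((gR p.2.1 p.2.2).filter fun r => decide (r = u)).length, lv p.2.1 fun _ => 0))
    (by fun_prop) (by fun_prop) (by fun_prop) (by fun_prop) (by fun_prop) (by fun_prop)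
    (by fun_prop) (by fun_prop) (PolyF.pair h1 h2)

@[fun_prop]
theorem PCR_gZ {L : α → List (ℕ × ℕ × ℕ)} {n : α → ℕ} {g : α → List ℕ} (hL : PolyF L)
    (hn : PolyF n) (hg : PolyF g) : PolyF (fun x => gZ (TL (L x)) (n x) (g x)) :=
  PolyF.comp (f := fun p : PCR_I => gZ (TL p.1) p.2.1 p.2.2) (g := fun x => (L x, n x, g x))
    PCR_gZ' (by fun_prop)

theorem PCR_gB1' : PolyF (fun p : PCR_I => gB1 (TL p.1) p.2.1 p.2.2) := by
  unfold gB1
  refine PolyF.filter (f := fun (p : PCR_I) u =>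
    decide (p.2.2.getD 1 0 * pD (p.2.2.getD 0 0) *
      (gM (TL p.1) p.2.1 p.2.2 (gZ (TL p.1) p.2.1 p.2.2).1).getD u 0 ≤
      p.2.2.getD 1 0 * pD (p.2.2.getD 0 0) *
      (gM (TL p.1) p.2.1 p.2.2 (gZ (TL p.1) p.2.1 p.2.2).2).getD u 0 +
        16 * pk p.2.1 (p.2.2.getD 0 0) * pN p.2.1 (p.2.2.getD 0 0))) (by fun_prop) ?_
  fun_prop

@[fun_prop]
theorem PCR_gB1 {L : α → List (ℕ × ℕ × ℕ)} {n : α → ℕ} {g : α → List ℕ} (hL : PolyF L)
    (hn : PolyF n) (hg : PolyF g) : PolyF (fun x => gB1 (TL (L x)) (n x) (g x)) :=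
  PolyF.comp (f := fun p : PCR_I => gB1 (TL p.1) p.2.1 p.2.2) (g := fun x => (L x, n x, g x))
    PCR_gB1' (by fun_prop)

theorem PCR_gB2' : PolyF (fun p : PCR_I => gB2 (TL p.1) p.2.1 p.2.2) := by
  have h1 : PolyF (fun p : PCR_I × ℕ => lv p.1.2.1 fun _ => 1) :=
    PCR_lv (f := fun (p : PCR_I × ℕ) _ => 1) (by fun_prop) (by fun_prop)
  have h2 : PolyF (fun p : PCR_I × ℕ => p.1.2.2.getD 0 0 ^ 8) := PCR_pow 8 (by fun_prop)
  unfold gB2
  refine PolyF.filter (f := fun (p : PCR_I) u =>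
    decide (cnt (TL p.1) (gB1 (TL p.1) p.2.1 p.2.2) (gW p.2.1 p.2.2) (lv p.2.1 fun _ => 1) u *
      (16384 * p.2.2.getD 0 0 ^ 8) ≤
      ps p.2.1 (p.2.2.getD 0 0) * pL (p.2.2.getD 0 0))) (by fun_prop) ?_
  refine PolyF.le (PolyF.mul ?_ (PolyF.mul (by fun_prop) h2)) (by fun_prop)
  exact PCR_cnt (by fun_prop) (by fun_prop) (by fun_prop) h1 (by fun_prop)

@[fun_prop]
theorem PCR_gB2 {L : α → List (ℕ × ℕ × ℕ)} {n : α → ℕ} {g : α → List ℕ} (hL : PolyF L)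
    (hn : PolyF n) (hg : PolyF g) : PolyF (fun x => gB2 (TL (L x)) (n x) (g x)) :=
  PolyF.comp (f := fun p : PCR_I => gB2 (TL p.1) p.2.1 p.2.2) (g := fun x => (L x, n x, g x))
    PCR_gB2' (by fun_prop)

theorem PCR_gB3' : PolyF (fun p : PCR_I => gB3 (TL p.1) p.2.1 p.2.2) := by
  have h2 : PolyF (fun p : PCR_I × ℕ => p.1.2.2.getD 0 0 ^ 6) := PCR_pow 6 (by fun_prop)
  unfold gB3
  refine PolyF.filter (f := fun (p : PCR_I) u => decide (128 * p.2.2.getD 0 0 ^ 6 *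
    degL (TL p.1) (gB2 (TL p.1) p.2.1 p.2.2) u ≤ p.2.1)) (by fun_prop) ?_
  exact PolyF.le (PolyF.mul (PolyF.mul (by fun_prop) h2) (by fun_prop)) (by fun_prop)

@[fun_prop]
theorem PCR_gB3 {L : α → List (ℕ × ℕ × ℕ)} {n : α → ℕ} {g : α → List ℕ} (hL : PolyF L)
    (hn : PolyF n) (hg : PolyF g) : PolyF (fun x => gB3 (TL (L x)) (n x) (g x)) :=
  PolyF.comp (f := fun p : PCR_I => gB3 (TL p.1) p.2.1 p.2.2) (g := fun x => (L x, n x, g x))
    PCR_gB3' (by fun_prop)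

theorem PCR_gH' : PolyF (fun p : PCR_I => gH (TL p.1) p.2.1 p.2.2) := by
  unfold gH
  refine PolyF.filter (f := fun (p : PCR_I) u => decide ((p.2.2.getD 3 0 * (u * u) +
    p.2.2.getD 4 0 * u + p.2.2.getD 5 0) % p.2.2.getD 2 0 < p.2.2.getD 6 0)) (by fun_prop) ?_
  fun_prop

@[fun_prop]
theorem PCR_gH {L : α → List (ℕ × ℕ × ℕ)} {n : α → ℕ} {g : α → List ℕ} (hL : PolyF L)
    (hn : PolyF n) (hg : PolyF g) : PolyF (fun x => gH (TL (L x)) (n x) (g x)) :=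
  PolyF.comp (f := fun p : PCR_I => gH (TL p.1) p.2.1 p.2.2) (g := fun x => (L x, n x, g x))
    PCR_gH' (by fun_prop)

theorem PCR_core' : PolyF (fun p : PCR_I => core (TL p.1) p.2.1 p.2.2) := by
  unfold core
  refine PolyF.filter (f := fun (p : PCR_I) u => (gH (TL p.1) p.2.1 p.2.2).all fun v =>
    (gH (TL p.1) p.2.1 p.2.2).all fun w => !(TL p.1 u v w)) (by fun_prop) ?_
  refine PolyF.all (l := fun q : PCR_I × ℕ => gH (TL q.1.1) q.1.2.1 q.1.2.2)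
    (f := fun (q : PCR_I × ℕ) v => (gH (TL q.1.1) q.1.2.1 q.1.2.2).all fun w =>
      !(TL q.1.1 q.2 v w)) (by fun_prop) ?_
  refine PolyF.all (l := fun q : (PCR_I × ℕ) × ℕ => gH (TL q.1.1.1) q.1.1.2.1 q.1.1.2.2)
    (f := fun (q : (PCR_I × ℕ) × ℕ) w => !(TL q.1.1.1 q.1.2 q.2 w)) (by fun_prop) ?_
  fun_prop

end

theorem stmt_PCR (h1 : Stmt_PDM) (h2 : Stmt_PML) (h3 : Stmt_PSM) : Stmt_PCR := by
  have := Fact.mk h1
  have := Fact.mk h2
  have := Fact.mk h3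
  exact PCR_core'

end Pool.Agent.Work.MP_a23c49_sub
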