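import Pool.Agent.Work.MP_a23c49_sub.Interface2

/-!
# Block PDA: the deterministic procedure is polynomial-time
-/

namespace Pool.Agent.Work.MP_a23c49_sub

open Pool.Agent.Work.MP_a23c49_lc (LS Ind prune grd lg TL sz_lg_le)
open Pool.Agent.Work.TMLib
open Polynomial

theorem PDA_memb {α : Type} [DE α] {u : α → ℕ} {V : α → List ℕ} (hu : PolyF u) (hV : PolyF V) :
    PolyF (fun x => memb (u x) (V x)) := by
  unfold memb
  refine PolyF.not (PolyF.all (f := fun x v => !decide (v = u x)) hV ?_)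
  fun_prop

theorem PDA_salg (h1 : Stmt_PCR) (h2 : Stmt_PNM) {α : Type} [DE α] {L : α → List (ℕ × ℕ × ℕ)}
    {n : α → ℕ} {w : α → List Bool} (hL : PolyF L) (hn : PolyF n) (hw : PolyF w) :
    PolyF (fun x => salg (TL (L x)) (n x) (w x)) := by
  have hb : PolyF (fun x => ell (n x) + 1) := by
    unfold ell
    fun_prop
  have hc : PolyF (fun x => 4 * n x) := by fun_prop
  have hN : PolyF (fun x => nums (ell (n x) + 1) (4 * n x) (w x)) :=
    h2 α (fun x => ell (n x) + 1) (fun x => 4 * n x) w hb hc hw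
  have hC : PolyF (fun x => core (TL (L x)) (n x) (nums (ell (n x) + 1) (4 * n x) (w x))) :=
    PolyF.comp (f := fun p : List (ℕ × ℕ × ℕ) × ℕ × List ℕ => core (TL p.1) p.2.1 p.2.2)
      (g := fun x => (L x, n x, nums (ell (n x) + 1) (4 * n x) (w x))) h1
      (PolyF.pair hL (PolyF.pair hn hN))
  have hF : PolyF (fun x => (List.range (n x)).filter fun u =>
      memb u (nums (ell (n x) + 1) (4 * n x) (w x))) := by
    refine PolyF.filter (f := fun x u => memb u (nums (ell (n x) + 1) (4 * n x) (w x)))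
      (by fun_prop) ?_
    refine PDA_memb (by fun_prop) ?_
    exact PolyF.comp (f := fun x => nums (ell (n x) + 1) (4 * n x) (w x))
      (g := fun p : α × ℕ => p.1) hN (by fun_prop)
  unfold salg
  exact MP_a23c49_lc.PolyF.lg (MP_a23c49_lc.PolyF.grd hL hF) hC

theorem stmt_PDA (h1 : Stmt_PCR) (h2 : Stmt_PNM) : Stmt_PDA := by
  have hs : PolyF (fun p : (List (ℕ × ℕ × ℕ) × ℕ × ℕ) × ℕ =>
      salg (TL p.1.1) p.1.2.1 p.2.bits) :=
    PDA_salg h1 h2 (by fun_prop) (by fun_prop) (by fun_prop)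
  obtain ⟨qa, hqa⟩ := hs.size
  have hr : PolyF (fun p : List (ℕ × ℕ × ℕ) × ℕ × ℕ => List.range p.2.2) := by fun_prop
  obtain ⟨qg, hqg⟩ := hr.size
  unfold Stmt_PDA dalg
  refine PolyF.foldl_add (l := fun p : List (ℕ × ℕ × ℕ) × ℕ × ℕ => List.range p.2.2)
    (g := fun p => grd (TL p.1) (List.range p.2.1))
    (h := fun p B i => lg B (salg (TL p.1) p.2.1 i.bits)) hr
    (MP_a23c49_lc.PolyF.grd (by fun_prop) (by fun_prop)) ?_ (qa.comp (X + qg + 1)) ?_
  · refine MP_a23c49_lc.PolyF.lg (by fun_prop) ?_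
    exact PolyF.comp (f := fun p : (List (ℕ × ℕ × ℕ) × ℕ × ℕ) × ℕ =>
      salg (TL p.1.1) p.1.2.1 p.2.bits)
      (g := fun p : (List (ℕ × ℕ × ℕ) × ℕ × ℕ) × List ℕ × ℕ => (p.1, p.2.2)) hs (by fun_prop)
  · intro p B i hi
    have h1 := sz_lg_le B (salg (TL p.1) p.2.1 i.bits)
    have h2 := hqa (p, i)
    have h3 := sz_le_of_mem hi
    have h4 := hqg p
    have h5 : qa.eval (sz (p, i)) ≤ (qa.comp (X + qg + 1)).eval (sz p) := by
      rw [eval_comp]
      apply poly_mono
      simp only [eval_add, eval_X, eval_one]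
      have h6 : sz (p, i) = sz p + sz i + 1 := rfl
      omega
    simp only at h2
    omega

end Pool.Agent.Work.MP_a23c49_sub
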