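import Pool.Agent.Work.MP_a23c49_sub.Interface2

/-!
# Block PDM (MP_a23c49_sub): division, remainder, minimum, powers

Written by helper55.
-/

namespace Pool.Agent.Work.MP_a23c49_sub

open Pool.Agent.Work.TMLib (DE PolyF)
open Pool.Agent.Work.TMLib

theorem PDM_len (c n : ℕ) :
    ((List.range n).filter (fun k => decide (k < c))).length = min c n := by
  induction n with
  | zero => simp
  | succ n ih =>
    rw [List.range_succ, List.filter_append, List.length_append, ih]
    by_cases h : n < c
    · rw [List.filter_cons_of_pos (by simpa using h)]
      simp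
      omega
    · rw [List.filter_cons_of_neg (by simpa using h)]
      simp
      omega

theorem PDM_div (α : Type) [DE α] (f g : α → ℕ) (hf : PolyF f) (hg : PolyF g) :
    PolyF (fun x => f x / g x) := by
  have h1 : PolyF (fun x => ((List.range (f x)).filter
      (fun k => decide ((k + 1) * g x ≤ f x) && decide (0 < g x))).length) := by
    refine PolyF.length (PolyF.filter (PolyF.range hf)
      (f := fun x k => decide ((k + 1) * g x ≤ f x) && decide (0 < g x)) ?_)
    fun_prop
  refine h1.congrF fun x => ?_
  by_cases hg0 : 0 < g x
  · have h2 : (fun k => decide ((k + 1) * g x ≤ f x) && decide (0 < g x)) =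
        fun k => decide (k < f x / g x) := by
      funext k
      have h3 : ((k + 1) * g x ≤ f x) ↔ k < f x / g x := by
        rw [← Nat.le_div_iff_mul_le hg0, Nat.succ_le_iff]
      simp [hg0, h3]
    rw [h2, PDM_len]
    exact min_eq_left (Nat.div_le_self _ _)
  · have h0 : g x = 0 := by omega
    simp [h0]

theorem stmt_PDM : Stmt_PDM := by
  refine ⟨PDM_div, ?_, ?_, ?_, ?_⟩
  · intro α _ f g hf hg
    have hd := PDM_div α f g hf hg
    have h1 : PolyF (fun x => f x - g x * (f x / g x)) := PolyF.sub hf (PolyF.mul hg hd)
    exact h1.congrF fun x => (Nat.mod_def (f x) (g x)).symm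
  · intro α _ f g hf hg
    have h1 : PolyF (fun x => f x - (f x - g x)) := by fun_prop
    exact h1.congrF fun x => by omega
  · intro α _ f k hf
    induction k with
    | zero =>
      have h1 : PolyF (fun _ : α => 1) := by fun_prop
      exact h1.congrF fun x => by simp
    | succ k ih =>
      have h1 : PolyF (fun x => f x ^ k * f x) := PolyF.mul ih hf
      exact h1.congrF fun x => (pow_succ (f x) k).symm
  · intro α _ u V hu hV
    unfold memb
    refine PolyF.not (PolyF.all hV (f := fun x v => !decide (v = u x)) ?_)
    fun_prop

end Pool.Agent.Work.MP_a23c49_sub
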