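import Pool.Agent.Work.MP_a23c49_sub.Interface2

/-!
# Block PML: the list multiplication is computed in polynomial time (helper63)
-/

namespace Pool.Agent.Work.MP_a23c49_sub

open Pool.Agent.Work.MP_a23c49_lc (LS Ind prune grd lg TL)
open Pool.Agent.Work.TMLib (DE PolyF)

set_option linter.unusedSectionVars false

theorem PML_polyF_cnt' : PolyF (fun p : (List (ℕ × ℕ × ℕ) × List ℕ × List ℕ × List ℕ) × ℕ =>
    cnt (TL p.1.1) p.1.2.1 p.1.2.2.1 p.1.2.2.2 p.2) := by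
  unfold cnt
  refine PolyF.sum (PolyF.map (l := fun p : (List (ℕ × ℕ × ℕ) × List ℕ × List ℕ × List ℕ) × ℕ =>
    p.1.2.2.1) (f := fun p w =>
      (p.1.2.1.map fun v => bif TL p.1.1 p.2 v w then p.1.2.2.2.getD v 0 else 0).sum)
    (by fun_prop) ?_)
  refine PolyF.sum (PolyF.map
    (l := fun q : ((List (ℕ × ℕ × ℕ) × List ℕ × List ℕ × List ℕ) × ℕ) × ℕ => q.1.1.2.1)
    (f := fun q v => bif TL q.1.1.1 q.1.2 v q.2 then q.1.1.2.2.2.getD v 0 else 0)
    (by fun_prop) ?_)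
  fun_prop

theorem PML_polyF_cnt {α : Type} [DE α] {L : α → List (ℕ × ℕ × ℕ)} {V W z : α → List ℕ} {u : α → ℕ}
    (hL : PolyF L) (hV : PolyF V) (hW : PolyF W) (hz : PolyF z) (hu : PolyF u) :
    PolyF (fun x => cnt (TL (L x)) (V x) (W x) (z x) (u x)) :=
  PolyF.comp (f := fun p : (List (ℕ × ℕ × ℕ) × List ℕ × List ℕ × List ℕ) × ℕ =>
    cnt (TL p.1.1) p.1.2.1 p.1.2.2.1 p.1.2.2.2 p.2)
    (g := fun x => ((L x, V x, W x, z x), u x)) PML_polyF_cnt' (by fun_prop)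

theorem stmt_PML (hPDM : Stmt_PDM) : Stmt_PML := by
  intro α _ L n d V W z hL hn hV hW hd hz
  obtain ⟨hdiv, -, -, -, hmem⟩ := hPDM
  unfold mulL lv
  have e : ∀ {δ : Type} [DE δ] {f : α → δ}, PolyF f → PolyF (fun p : α × ℕ => f p.1) :=
    fun {δ} _ {f} hf => PolyF.comp (f := f) (g := fun p : α × ℕ => p.1) hf (by fun_prop)
  have hu : PolyF (fun p : α × ℕ => p.2) := by fun_prop
  refine PolyF.map (l := fun x => List.range (n x))
    (f := fun x u => bif memb u (V x) then cnt (TL (L x)) (V x) (W x) (z x) u / d x else 0)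
    (by fun_prop) ?_
  refine PolyF.cond ?_ ?_ (PolyF.const 0)
  · exact hmem (α × ℕ) (fun p => p.2) (fun p => V p.1) hu (e hV)
  · exact hdiv (α × ℕ) (fun p => cnt (TL (L p.1)) (V p.1) (W p.1) (z p.1) p.2) (fun p => d p.1)
      (PML_polyF_cnt (e hL) (e hV) (e hW) (e hz) hu) (e hd)

end Pool.Agent.Work.MP_a23c49_sub
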