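import Pool.Agent.Work.MP_a23c49_sub.Interface2

/-!
# Block PNM: decoding is polynomial-time
-/

namespace Pool.Agent.Work.MP_a23c49_sub

open Pool.Agent.Work.MP_a23c49_lc (LS Ind prune grd lg TL)
open Pool.Agent.Work.TMLib
open Polynomial

theorem PNM_step (hP : Stmt_PDM) : PolyF (fun p : (ℕ × ℕ) × (ℕ × ℕ × List ℕ) × Bool =>
    numStep p.1.1 p.1.2 p.2.1 p.2.2) := by
  have h1 : PolyF (fun p : (ℕ × ℕ) × (ℕ × ℕ × List ℕ) × Bool =>
      min p.1.2 (2 * p.2.1.2.1 + bif p.2.2 then 1 else 0)) :=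
    hP.2.2.1 ((ℕ × ℕ) × (ℕ × ℕ × List ℕ) × Bool) (fun p => p.1.2)
      (fun p => 2 * p.2.1.2.1 + bif p.2.2 then 1 else 0)
      (by fun_prop) (by fun_prop)
  unfold numStep
  refine PolyF.cond (by fun_prop) ?_ ?_
  · refine PolyF.pair (by fun_prop) (PolyF.pair (by fun_prop) ?_)
    exact PolyF.append (by fun_prop) (PolyF.cons h1 (by fun_prop))
  · refine PolyF.pair (by fun_prop) (PolyF.pair h1 (by fun_prop))

theorem PNM_sz (b cap : ℕ) (s : ℕ × ℕ × List ℕ) (x : Bool) :
    sz (numStep b cap s x) ≤ sz s + (4 * cap + 6) := by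
  have h1 : min cap (2 * s.2.1 + bif x then 1 else 0) ≤ cap := min_le_left _ _
  unfold numStep
  generalize min cap (2 * s.2.1 + bif x then 1 else 0) = y at h1 ⊢
  cases decide (s.1 + 1 = b)
  · simp only [cond_false, sz_pair, sz_nat]
    omega
  · have h2 := sz_append s.2.2 [y]
    simp only [sz_cons, sz_nil, sz_nat] at h2
    simp only [cond_true, sz_pair, sz_nat]
    omega

theorem stmt_PNM (hP : Stmt_PDM) : Stmt_PNM := by
  intro α _ b cap ω hb hc hω
  obtain ⟨q, hq⟩ := hc.size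
  have h : PolyF (fun x => (ω x).foldl (numStep (b x) (cap x)) (0, 0, [])) := by
    refine PolyF.foldl_add (l := ω) (g := fun _ => ((0 : ℕ), (0 : ℕ), ([] : List ℕ)))
      (h := fun x s y => numStep (b x) (cap x) s y) hω (by fun_prop) ?_ (4 * q + 6) ?_
    · exact PolyF.comp (f := fun p : (ℕ × ℕ) × (ℕ × ℕ × List ℕ) × Bool =>
        numStep p.1.1 p.1.2 p.2.1 p.2.2)
        (g := fun p : α × (ℕ × ℕ × List ℕ) × Bool => ((b p.1, cap p.1), p.2.1, p.2.2))
        (PNM_step hP) (by fun_prop)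
    · intro a s y _
      have h1 := PNM_sz (b a) (cap a) s y
      have h2 := hq a
      simp only [sz_nat] at h2
      simp only [eval_add, eval_mul, eval_ofNat]
      omega
  unfold nums
  fun_prop

end Pool.Agent.Work.MP_a23c49_sub
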