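import Pool.Agent.Work.MP_a23c49_sub.Interface2

/-!
# Block PRU: the three prunings
-/

namespace Pool.Agent.Work.MP_a23c49_sub

open Finset
open Pool.Agent.Work.MP_a23c49_lc (LS Ind)

theorem PRU_pairs (T : ℕ → ℕ → ℕ → Bool) (B C : Finset ℕ) (u : ℕ) :
    (pairs T B C u : ℝ) = ∑ v ∈ B, ∑ w ∈ C, (if T u v w = true then (1 : ℝ) else 0) := by
  unfold pairs
  rw [card_filter, sum_product]
  push_cast
  rfl

theorem PRU_swap (T : ℕ → ℕ → ℕ → Bool) (h : LS T) (P Q R : Finset ℕ) :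
    ∑ u ∈ P, (pairs T Q R u : ℝ) = ∑ u ∈ Q, (pairs T P R u : ℝ) := by
  simp only [PRU_pairs]
  rw [sum_comm]
  refine sum_congr rfl fun u _ => sum_congr rfl fun v _ => sum_congr rfl fun w _ => ?_
  rw [h.swap12]

theorem PRU_comm (T : ℕ → ℕ → ℕ → Bool) (h : LS T) (Q R : Finset ℕ) (u : ℕ) :
    (pairs T Q R u : ℝ) = (pairs T R Q u : ℝ) := by
  simp only [PRU_pairs]
  rw [sum_comm]
  refine sum_congr rfl fun v _ => sum_congr rfl fun w _ => ?_
  rw [h.swap23]

theorem PRU_mono (T : ℕ → ℕ → ℕ → Bool) {P Q R : Finset ℕ} (h : P ⊆ Q) (u : ℕ) :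
    (pairs T P R u : ℝ) ≤ (pairs T Q R u : ℝ) := by
  unfold pairs
  exact_mod_cast card_le_card (filter_subset_filter _ (product_subset_product_left h))

/-- Markov -/
theorem PRU_markov (S : Finset ℕ) (f : ℕ → ℝ) (t M : ℝ) (ht : 0 < t) (hf : ∀ u ∈ S, t ≤ f u)
    (hM : ∑ u ∈ S, f u ≤ M) : (S.card : ℝ) ≤ M / t := by
  rw [le_div_iff₀ ht]
  calc (S.card : ℝ) * t = ∑ _u ∈ S, t := by rw [sum_const, nsmul_eq_mul]
    _ ≤ ∑ u ∈ S, f u := sum_le_sum hf
    _ ≤ M := hM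

/-- sum of the difference from the sum of the squares -/
theorem PRU_diff (S V : Finset ℕ) (hS : S ⊆ V) (n : ℕ) (hV : V.card ≤ n) (f g : ℕ → ℝ)
    (t M a : ℝ) (ht : 0 < t) (ha : 0 ≤ a) (hM : ∑ u ∈ V, (f u - g u) ^ 2 ≤ M) (hMt : M ≤ t ^ 2 * n)
    (hf : ∀ u ∈ S, f u ≤ a) : ∑ u ∈ S, g u ≤ (t + a) * n := by
  have h1 : ∀ u ∈ S, g u ≤ (f u - g u) ^ 2 / (2 * t) + (t / 2 + a) := by
    intro u hu
    have h2 : g u - f u ≤ (f u - g u) ^ 2 / (2 * t) + t / 2 := by
      have h3 : (f u - g u) ^ 2 / (2 * t) + t / 2 - (g u - f u) =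
          (f u - g u + t) ^ 2 / (2 * t) := by
        field_simp
        ring
      have h4 : 0 ≤ (f u - g u + t) ^ 2 / (2 * t) := by positivity
      linarith
    linarith [hf u hu]
  have hSn : (S.card : ℝ) ≤ n := by exact_mod_cast (card_le_card hS).trans hV
  have h5 : ∑ u ∈ S, (f u - g u) ^ 2 ≤ t ^ 2 * n := by
    refine le_trans ?_ (hM.trans hMt)
    exact sum_le_sum_of_subset_of_nonneg hS fun i _ _ => sq_nonneg _
  calc ∑ u ∈ S, g u ≤ ∑ u ∈ S, ((f u - g u) ^ 2 / (2 * t) + (t / 2 + a)) := sum_le_sum h1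
    _ = (∑ u ∈ S, (f u - g u) ^ 2) / (2 * t) + S.card * (t / 2 + a) := by
        rw [sum_add_distrib, sum_div, sum_const, nsmul_eq_mul]
    _ ≤ t ^ 2 * n / (2 * t) + n * (t / 2 + a) := by
        gcongr
    _ = (t + a) * n := by
        field_simp
        ring

/-- block PRU -/
theorem stmt_PRU : Stmt_PRU := by
  classical
  intro T n L V A B1 B2 B3 y q δ ε θ2 θ3 hT hL hVn hAV hInd hA1 hδ hε hεθ hθ2 hθ3 hy hB1 hq hB2 hB3
    hfin
  have hVc : V.card ≤ n := by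
    have : V ⊆ range n := fun v hv => mem_range.2 (hVn v hv)
    simpa using card_le_card this
  have hAn : (A.card : ℝ) ≤ n := by exact_mod_cast (card_le_card hAV).trans hVc
  have hB1V : B1 ⊆ V := fun u hu => ((hB1 u).1 hu).1
  have hB21 : B2 ⊆ B1 := fun u hu => ((hB2 u).1 hu).1
  have hB32 : B3 ⊆ B2 := fun u hu => ((hB3 u).1 hu).1
  have hα : (0 : ℝ) < A.card := by exact_mod_cast hA1
  have hL0 : (0 : ℝ) < L := by exact_mod_cast hL
  have hLα : (0 : ℝ) < L * A.card := mul_pos hL0 hα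
  set gA : ℕ → ℝ := fun u => (pairs T A A u : ℝ) / (L * A.card) with hgA
  set gB : ℕ → ℝ := fun u => (pairs T B1 A u : ℝ) / (L * A.card) with hgB
  have hgA0 : ∀ u ∈ A, gA u = 0 := by
    intro u hu
    have : pairs T A A u = 0 := by
      unfold pairs
      rw [card_eq_zero, filter_eq_empty_iff]
      rintro ⟨v, w⟩ hvw
      rw [mem_product] at hvw
      simp only [hInd u hu v hvw.1 w hvw.2]
      decide
    simp [hgA, this]
  have hgB0 : ∀ u, 0 ≤ gB u := fun u => by positivity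
  -- first loss
  have l1 : ((A \ B1).card : ℝ) ≤ A.card / 16 := by
    have h := PRU_markov (A \ B1) (fun u => (y u - gA u) ^ 2) (16 * δ ^ 2) (δ ^ 2 * A.card)
      (by positivity) (by
        intro u hu
        rw [mem_sdiff] at hu
        have h1 : 4 * δ < y u := by
          by_contra hcon
          exact hu.2 ((hB1 u).2 ⟨hAV hu.1, not_lt.1 hcon⟩)
        simp only [hgA0 u hu.1, sub_zero]
        nlinarith) (by
        refine le_trans ?_ hy
        exact sum_le_sum_of_subset_of_nonneg (sdiff_subset.trans hAV) fun i _ _ => sq_nonneg _)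
    refine h.trans (le_of_eq ?_)
    field_simp
  -- sum of gA over B1
  have s1 : ∑ u ∈ B1, gA u ≤ 5 * δ * n := by
    have h := PRU_diff B1 V hB1V n hVc y gA δ (δ ^ 2 * A.card) (4 * δ) hδ (by positivity) hy
      (by gcongr) (fun u hu => ((hB1 u).1 hu).2)
    refine h.trans (le_of_eq ?_)
    ring
  have s2 : ∑ u ∈ A, gB u ≤ 5 * δ * n := by
    refine le_trans (le_of_eq ?_) s1
    simp only [hgA, hgB]
    rw [← sum_div, ← sum_div, PRU_swap T hT A B1 A]
  -- second loss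
  have l2 : (((A ∩ B1) \ B2).card : ℝ) ≤ 10 * δ * n / θ2 + 4 * ε ^ 2 * n / θ2 ^ 2 := by
    set X := ((A ∩ B1) \ B2).filter fun u => θ2 / 2 ≤ gB u with hX
    set Y := ((A ∩ B1) \ B2).filter fun u => ¬ θ2 / 2 ≤ gB u with hY
    have hXY : ((A ∩ B1) \ B2).card = X.card + Y.card :=
      (card_filter_add_card_filter_not _).symm
    have hXc : (X.card : ℝ) ≤ 5 * δ * n / (θ2 / 2) := by
      refine PRU_markov X gB (θ2 / 2) (5 * δ * n) (by positivity) (fun u hu => (mem_filter.1 hu).2) ?_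
      refine le_trans ?_ s2
      refine sum_le_sum_of_subset_of_nonneg ?_ fun i _ _ => hgB0 i
      intro u hu
      rw [hX, mem_filter, mem_sdiff, mem_inter] at hu
      exact hu.1.1.1
    have hYc : (Y.card : ℝ) ≤ ε ^ 2 * n / (θ2 ^ 2 / 4) := by
      refine PRU_markov Y (fun u => (q u - gB u) ^ 2) (θ2 ^ 2 / 4) (ε ^ 2 * n) (by positivity) ?_ ?_
      · intro u hu
        rw [hY, mem_filter, mem_sdiff, mem_inter] at hu
        have h1 : θ2 < q u := by
          by_contra hcon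
          exact hu.1.2 ((hB2 u).2 ⟨hu.1.1.2, not_lt.1 hcon⟩)
        have h2 : gB u < θ2 / 2 := not_le.1 hu.2
        have h3 : θ2 / 2 ≤ q u - gB u := by linarith
        have h4 : (θ2 / 2) ^ 2 ≤ (q u - gB u) ^ 2 := by
          apply pow_le_pow_left₀ (by positivity) h3
        calc θ2 ^ 2 / 4 = (θ2 / 2) ^ 2 := by ring
          _ ≤ _ := h4
      · refine le_trans ?_ hq
        refine sum_le_sum_of_subset_of_nonneg ?_ fun i _ _ => sq_nonneg _
        intro u hu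
        rw [hY, mem_filter, mem_sdiff, mem_inter] at hu
        exact hAV hu.1.1.1
    rw [hXY]
    push_cast
    calc (X.card : ℝ) + Y.card ≤ 5 * δ * n / (θ2 / 2) + ε ^ 2 * n / (θ2 ^ 2 / 4) :=
          add_le_add hXc hYc
      _ = _ := by
          field_simp
          ring
  -- sum of gB over B2
  have s3 : ∑ u ∈ B2, gB u ≤ 2 * θ2 * n := by
    have h := PRU_diff B2 V (hB21.trans hB1V) n hVc q gB θ2 (ε ^ 2 * n) θ2 hθ2 hθ2.le hq
      (by gcongr) (fun u hu => ((hB2 u).1 hu).2)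
    refine h.trans (le_of_eq ?_)
    ring
  have s4 : ∑ u ∈ A, (pairs T B2 B2 u : ℝ) ≤ 2 * L * A.card * θ2 * n := by
    calc ∑ u ∈ A, (pairs T B2 B2 u : ℝ) = ∑ u ∈ B2, (pairs T A B2 u : ℝ) := PRU_swap T hT A B2 B2
      _ = ∑ u ∈ B2, (pairs T B2 A u : ℝ) := sum_congr rfl fun u _ => PRU_comm T hT A B2 u
      _ ≤ ∑ u ∈ B2, (pairs T B1 A u : ℝ) := sum_le_sum fun u _ => PRU_mono T hB21 u
      _ = (L * A.card) * ∑ u ∈ B2, gB u := by
          rw [mul_sum]
          refine sum_congr rfl fun u _ => ?_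
          simp only [hgB]
          field_simp
      _ ≤ (L * A.card) * (2 * θ2 * n) := by gcongr
      _ = _ := by ring
  -- third loss
  have l3 : (((A ∩ B2) \ B3).card : ℝ) ≤ 2 * L * A.card * θ2 * n / θ3 := by
    refine PRU_markov _ (fun u => (pairs T B2 B2 u : ℝ)) θ3 _ hθ3 ?_ ?_
    · intro u hu
      rw [mem_sdiff, mem_inter] at hu
      by_contra hcon
      exact hu.2 ((hB3 u).2 ⟨hu.1.2, (not_le.1 hcon).le⟩)
    · refine le_trans ?_ s4
      refine sum_le_sum_of_subset_of_nonneg ?_ fun i _ _ => by positivity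
      intro u hu
      rw [mem_sdiff, mem_inter] at hu
      exact hu.1.1
  -- total
  have hsub : A ⊆ (A ∩ B3) ∪ ((A \ B1) ∪ (((A ∩ B1) \ B2) ∪ ((A ∩ B2) \ B3))) := by
    intro u hu
    simp only [mem_union, mem_inter, mem_sdiff]
    by_cases h3 : u ∈ B3
    · exact Or.inl ⟨hu, h3⟩
    · by_cases h2 : u ∈ B2
      · exact Or.inr (Or.inr (Or.inr ⟨⟨hu, h2⟩, h3⟩))
      · by_cases h1 : u ∈ B1
        · exact Or.inr (Or.inr (Or.inl ⟨⟨hu, h1⟩, h2⟩))
        · exact Or.inr (Or.inl ⟨hu, h1⟩)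
  have hcard : (A.card : ℝ) ≤ (A ∩ B3).card + ((A \ B1).card + (((A ∩ B1) \ B2).card +
      ((A ∩ B2) \ B3).card)) := by
    have h1 := card_le_card hsub
    have h2 := card_union_le (A ∩ B3) ((A \ B1) ∪ (((A ∩ B1) \ B2) ∪ ((A ∩ B2) \ B3)))
    have h3 := card_union_le (A \ B1) (((A ∩ B1) \ B2) ∪ ((A ∩ B2) \ B3))
    have h4 := card_union_le ((A ∩ B1) \ B2) ((A ∩ B2) \ B3)
    exact_mod_cast (by omega : A.card ≤ (A ∩ B3).card + ((A \ B1).card + (((A ∩ B1) \ B2).card +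
      ((A ∩ B2) \ B3).card)))
  linarith

end Pool.Agent.Work.MP_a23c49_sub
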