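import Pool.Agent.Work.MP_a23c49_sub.Interface2

/-!
# Block PSM: the smoothing iteration is computed in polynomial time
-/

namespace Pool.Agent.Work.MP_a23c49_sub

open Pool.Agent.Work.MP_a23c49_lc (LS Ind prune grd lg TL)
open Pool.Agent.Work.TMLib

theorem PSM_getD_sz (n : ℕ) (f : ℕ → ℕ) (c : ℕ) (h : ∀ u, f u ≤ c) :
    sz (lv n f) ≤ n * (2 * c + 2) + 1 := by
  unfold lv
  induction n with
  | zero => simp
  | succ n ih =>
    rw [List.range_succ, List.map_append]
    have e := sz_append ((List.range n).map f) ([n].map f)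
    have e2 : sz ([n].map f) = 2 * f n + 3 := by simp
    have := h n
    rw [e2] at e
    have e3 : (n + 1) * (2 * c + 2) = n * (2 * c + 2) + (2 * c + 2) := by ring
    rw [e3]
    omega

theorem PSM_sub_sz (cap n : ℕ) (x y : List ℕ) : sz (subL cap n x y) ≤ n * (2 * cap + 2) + 1 :=
  PSM_getD_sz n _ cap fun _ => min_le_left _ _

theorem PSM_step_sz (mul : List ℕ → List ℕ) (cap n : ℕ) (s : List ℕ × List ℕ) :
    sz (stepL mul cap n s) ≤ 2 * (n * (2 * cap + 2) + 1) + 1 := by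
  unfold stepL
  rw [sz_pair]
  have h1 := PSM_sub_sz cap n (addL n s.1 (mul (mul s.2))) (addL n s.2 (mul (mul s.1)))
  have h2 := PSM_sub_sz cap n (addL n s.2 (mul (mul s.1))) (addL n s.1 (mul (mul s.2)))
  simp only
  omega

theorem PSM_dif_sz (cap n : ℕ) (s t : List ℕ × List ℕ) :
    sz (difL cap n s t) ≤ 2 * (n * (2 * cap + 2) + 1) + 1 := by
  unfold difL
  rw [sz_pair]
  have h1 := PSM_sub_sz cap n (addL n s.1 t.2) (addL n s.2 t.1)
  have h2 := PSM_sub_sz cap n (addL n s.2 t.1) (addL n s.1 t.2)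
  simp only
  omega

section

variable {α : Type} [DE α]

theorem PSM_sub (hP : Stmt_PDM) {n cap : α → ℕ} {x y : α → List ℕ} (hn : PolyF n) (hc : PolyF cap)
    (hx : PolyF x) (hy : PolyF y) : PolyF (fun a => subL (cap a) (n a) (x a) (y a)) := by
  unfold subL lv
  refine PolyF.map (l := fun a => List.range (n a))
    (f := fun a u => min (cap a) ((x a).getD u 0 - (y a).getD u 0)) (by fun_prop) ?_
  have hc' : PolyF (fun p : α × ℕ => cap p.1) := by fun_prop
  have hx' : PolyF (fun p : α × ℕ => x p.1) := by fun_prop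
  have hy' : PolyF (fun p : α × ℕ => y p.1) := by fun_prop
  exact hP.2.2.1 (α × ℕ) (fun p => cap p.1) (fun p => (x p.1).getD p.2 0 - (y p.1).getD p.2 0) hc'
    (by fun_prop)

theorem PSM_add {n : α → ℕ} {x y : α → List ℕ} (hn : PolyF n)
    (hx : PolyF x) (hy : PolyF y) : PolyF (fun a => addL (n a) (x a) (y a)) := by
  unfold addL lv
  refine PolyF.map (l := fun a => List.range (n a))
    (f := fun a u => (x a).getD u 0 + (y a).getD u 0) (by fun_prop) ?_
  have hx' : PolyF (fun p : α × ℕ => x p.1) := by fun_prop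
  have hy' : PolyF (fun p : α × ℕ => y p.1) := by fun_prop
  fun_prop

theorem PSM_K {n cap : α → ℕ} (hn : PolyF n) (hc : PolyF cap) : ∃ K : Polynomial ℕ, ∀ a,
    2 * (n a * (2 * cap a + 2) + 1) + 1 ≤ K.eval (sz a) := by
  have h : PolyF (fun a => 2 * (n a * (2 * cap a + 2) + 1) + 1) := by fun_prop
  obtain ⟨q, hq⟩ := h.size
  refine ⟨q, fun a => ?_⟩
  have := hq a
  rw [sz_nat] at this
  omega

variable {L : α → List (ℕ × ℕ × ℕ)} {n d cap m h : α → ℕ} {V W : α → List ℕ}

theorem PSM_step (hP : Stmt_PDM) (hM : Stmt_PML) (hL : PolyF L) (hn : PolyF n) (hV : PolyF V)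
    (hW : PolyF W) (hd : PolyF d) (hc : PolyF cap) :
    PolyF (fun p : α × (List ℕ × List ℕ) =>
      stepL (mulL (TL (L p.1)) (n p.1) (V p.1) (W p.1) (d p.1)) (cap p.1) (n p.1) p.2) := by
  have hL' : PolyF (fun p : α × (List ℕ × List ℕ) => L p.1) := by fun_prop
  have hn' : PolyF (fun p : α × (List ℕ × List ℕ) => n p.1) := by fun_prop
  have hV' : PolyF (fun p : α × (List ℕ × List ℕ) => V p.1) := by fun_prop
  have hW' : PolyF (fun p : α × (List ℕ × List ℕ) => W p.1) := by fun_prop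
  have hd' : PolyF (fun p : α × (List ℕ × List ℕ) => d p.1) := by fun_prop
  have hc' : PolyF (fun p : α × (List ℕ × List ℕ) => cap p.1) := by fun_prop
  have m1 : ∀ {z : α × (List ℕ × List ℕ) → List ℕ}, PolyF z →
      PolyF (fun p => mulL (TL (L p.1)) (n p.1) (V p.1) (W p.1) (d p.1) (z p)) :=
    fun {z} hz => hM (α × (List ℕ × List ℕ)) (fun p => L p.1) (fun p => n p.1) (fun p => d p.1)
      (fun p => V p.1) (fun p => W p.1) z hL' hn' hV' hW' hd' hz
  have s1 : PolyF (fun p : α × (List ℕ × List ℕ) => p.2.1) := by fun_prop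
  have s2 : PolyF (fun p : α × (List ℕ × List ℕ) => p.2.2) := by fun_prop
  have a1 := PSM_add hn' s1 (m1 (m1 s2))
  have a2 := PSM_add hn' s2 (m1 (m1 s1))
  exact PolyF.pair (PSM_sub hP hn' hc' a1 a2) (PSM_sub hP hn' hc' a2 a1)

theorem PSM_lev (hP : Stmt_PDM) (hM : Stmt_PML) (hL : PolyF L) (hn : PolyF n) (hV : PolyF V)
    (hW : PolyF W) (hd : PolyF d) (hc : PolyF cap) (hm : PolyF m) :
    PolyF (fun p : α × (List ℕ × List ℕ) =>
      levL (mulL (TL (L p.1)) (n p.1) (V p.1) (W p.1) (d p.1)) (cap p.1) (n p.1) (m p.1) p.2) := by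
  have hn' : PolyF (fun p : α × (List ℕ × List ℕ) => n p.1) := by fun_prop
  have hc' : PolyF (fun p : α × (List ℕ × List ℕ) => cap p.1) := by fun_prop
  have hm' : PolyF (fun p : α × (List ℕ × List ℕ) => m p.1) := by fun_prop
  obtain ⟨K, hK⟩ := PSM_K hn' hc'
  have hit : PolyF (fun p : α × (List ℕ × List ℕ) =>
      (stepL (mulL (TL (L p.1)) (n p.1) (V p.1) (W p.1) (d p.1)) (cap p.1) (n p.1))^[m p.1] p.2) := by
    refine PolyF.iterate_add (n := fun p : α × (List ℕ × List ℕ) => m p.1)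
      (g := fun p => p.2) (h := fun p =>
        stepL (mulL (TL (L p.1)) (n p.1) (V p.1) (W p.1) (d p.1)) (cap p.1) (n p.1)) hm'
      (by fun_prop) ?_ K ?_
    · exact PolyF.comp (f := fun p : α × (List ℕ × List ℕ) =>
        stepL (mulL (TL (L p.1)) (n p.1) (V p.1) (W p.1) (d p.1)) (cap p.1) (n p.1) p.2)
        (g := fun q : (α × (List ℕ × List ℕ)) × (List ℕ × List ℕ) => (q.1.1, q.2))
        (PSM_step hP hM hL hn hV hW hd hc) (by fun_prop)
    · intro p s
      exact le_trans (PSM_step_sz _ _ _ _) (le_trans (hK p) (Nat.le_add_left _ _))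
  have s1 : PolyF (fun p : α × (List ℕ × List ℕ) => p.2.1) := by fun_prop
  have s2 : PolyF (fun p : α × (List ℕ × List ℕ) => p.2.2) := by fun_prop
  have t1 : PolyF (fun p : α × (List ℕ × List ℕ) =>
      ((stepL (mulL (TL (L p.1)) (n p.1) (V p.1) (W p.1) (d p.1)) (cap p.1)
        (n p.1))^[m p.1] p.2).1) := by fun_prop
  have t2 : PolyF (fun p : α × (List ℕ × List ℕ) =>
      ((stepL (mulL (TL (L p.1)) (n p.1) (V p.1) (W p.1) (d p.1)) (cap p.1)
        (n p.1))^[m p.1] p.2).2) := by fun_prop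
  exact PolyF.pair (PSM_sub hP hn' hc' (PSM_add hn' s1 t2) (PSM_add hn' s2 t1))
    (PSM_sub hP hn' hc' (PSM_add hn' s2 t1) (PSM_add hn' s1 t2))

end

theorem stmt_PSM (hP : Stmt_PDM) (hM : Stmt_PML) : Stmt_PSM := by
  intro α _ L n d cap m h V W s hL hn hV hW hd hc hm hh hs
  obtain ⟨K, hK⟩ := PSM_K hn hc
  refine PolyF.iterate_add (n := h) (g := s) (h := fun x =>
    levL (mulL (TL (L x)) (n x) (V x) (W x) (d x)) (cap x) (n x) (m x)) hh hs
    (PSM_lev hP hM hL hn hV hW hd hc hm) K ?_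
  intro a s
  exact le_trans (PSM_dif_sz _ _ _ _) (le_trans (hK a) (Nat.le_add_left _ _))

end Pool.Agent.Work.MP_a23c49_sub
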