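import Pool.Agent.Work.MP_a23c49_sub.B_RND2

/-! # Block RND of MP_a23c49_sub (helper60) -/

set_option autoImplicit false

namespace Pool.Agent.Work.MP_a23c49_sub

open Matrix Finset
open Pool.Agent.Work.MP_a23c49_lc (LS Ind)

theorem stmt_RND (h2 : Stmt_RND2) (hK : Stmt_KCN) (hM : Stmt_MIN) : Stmt_RND := by
  intro n N cap m h M mul s hMt hMc hA hN hcap
  obtain ⟨_, _, hQ⟩ := hK (Fin n) M m hMt hMc
  have hNR : (0 : ℝ) < N := by exact_mod_cast hN
  have hsn : 0 ≤ √(n : ℝ) := Real.sqrt_nonneg _
  set Q : Matrix (Fin n) (Fin n) ℝ := 1 - (1 - M * M) ^ m with hQdef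
  set v : ℕ → Fin n → ℝ := fun j => val n N ((levL mul cap n m)^[j] s) with hv
  have hcap' : N * RND2_n (v 0) + 4 * m * h * √n ≤ cap := hcap
  have key : ∀ j : ℕ, j ≤ h → RND2_n (v j - Q ^ j *ᵥ v 0) ≤ 4 * m * j * √n / N := by
    intro j
    induction j with
    | zero =>
        intro _
        rw [pow_zero, one_mulVec, sub_self]
        unfold RND2_n nsq
        simp
    | succ j ih =>
        intro hj
        have ih' := ih (by omega)
        have hjm : ((j : ℝ) + 1) ≤ h := by exact_mod_cast hj
        have a1 : RND2_n (v j) ≤ RND2_n (v 0) + 4 * m * j * √n / N := by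
          have : v j = Q ^ j *ᵥ v 0 + (v j - Q ^ j *ᵥ v 0) := by abel
          calc RND2_n (v j) = RND2_n (Q ^ j *ᵥ v 0 + (v j - Q ^ j *ᵥ v 0)) := by rw [← this]
            _ ≤ _ := RND2_add hM _ _
            _ ≤ _ := add_le_add (RND2_pow Q hQ j _) ih'
        have a2 : N * RND2_n (v j) + 4 * m * √n ≤ cap := by
          calc N * RND2_n (v j) + 4 * m * √n ≤
              N * (RND2_n (v 0) + 4 * m * j * √n / N) + 4 * m * √n := by
                have := mul_le_mul_of_nonneg_left a1 hNR.le
                linarith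
            _ = N * RND2_n (v 0) + 4 * m * ((j : ℝ) + 1) * √n := by
                field_simp
                ring
            _ ≤ N * RND2_n (v 0) + 4 * m * h * √n := by
                have := mul_le_mul_of_nonneg_right hjm hsn
                have := mul_le_mul_of_nonneg_left this (show (0 : ℝ) ≤ 4 * m by positivity)
                linarith
            _ ≤ cap := hcap'
        have a3 : RND2_n (v (j + 1) - Q *ᵥ v j) ≤ 4 * m * √n / N := by
          have := h2 n N cap m M mul ((levL mul cap n m)^[j] s) hMt hMc hA hN a2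
          have e : v (j + 1) = val n N (levL mul cap n m ((levL mul cap n m)^[j] s)) := by
            simp only [hv]
            rw [Function.iterate_succ_apply']
          rw [e]
          exact this
        have a4 : v (j + 1) - Q ^ (j + 1) *ᵥ v 0 =
            (v (j + 1) - Q *ᵥ v j) + Q *ᵥ (v j - Q ^ j *ᵥ v 0) := by
          rw [pow_succ', ← mulVec_mulVec, mulVec_sub]
          abel
        rw [a4]
        calc _ ≤ _ := RND2_add hM _ _
          _ ≤ 4 * m * √n / N + 4 * m * j * √n / N :=
              add_le_add a3 ((RND2_con Q hQ _).trans ih')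
          _ = _ := by
              push_cast
              ring
  have kh := key h le_rfl
  -- the last multiplication
  set t := smL mul cap n m h s with ht
  have hvt : v h = val n N t := rfl
  have hlast : RND2_n (val n N (mul t.1, mul t.2) - M *ᵥ val n N t) ≤ √n / N := by
    have hent : ∀ u : Fin n, ((val n N (mul t.1, mul t.2) - M *ᵥ val n N t) u) ^ 2 ≤
        (1 / (N : ℝ)) ^ 2 := by
      intro u
      obtain ⟨b1, b2⟩ := hA t.1 u
      obtain ⟨c1, c2⟩ := hA t.2 u
      have e1 : (M *ᵥ val n N t) u = ((M *ᵥ fun v => (t.1.getD v.val 0 : ℝ)) u -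
          (M *ᵥ fun v => (t.2.getD v.val 0 : ℝ)) u) / N := by
        have : val n N t = (1 / (N : ℝ)) • ((fun v : Fin n => (t.1.getD v.val 0 : ℝ)) -
            fun v : Fin n => (t.2.getD v.val 0 : ℝ)) := by
          funext u
          unfold val
          rw [Pi.smul_apply, Pi.sub_apply, smul_eq_mul]
          ring
        rw [this, mulVec_smul, mulVec_sub, Pi.smul_apply, Pi.sub_apply, smul_eq_mul]
        ring
      rw [Pi.sub_apply, e1]
      have e2 : val n N (mul t.1, mul t.2) u =
          (((mul t.1).getD u.val 0 : ℝ) - (mul t.2).getD u.val 0) / N := rfl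
      rw [e2, ← sub_div, div_pow, div_pow]
      apply div_le_div_of_nonneg_right _ (by positivity)
      rw [one_pow, sq_le_one_iff_abs_le_one, abs_le]
      constructor <;> linarith
    unfold RND2_n nsq
    calc √(∑ u, ((val n N (mul t.1, mul t.2) - M *ᵥ val n N t) u) ^ 2) ≤
        √(n * (1 / (N : ℝ)) ^ 2) := by
          apply Real.sqrt_le_sqrt
          calc _ ≤ ∑ _u : Fin n, (1 / (N : ℝ)) ^ 2 := sum_le_sum fun u _ => hent u
            _ = _ := by rw [sum_const, card_univ, Fintype.card_fin, nsmul_eq_mul]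
      _ = √n / N := by
          rw [Real.sqrt_mul (by positivity), Real.sqrt_sq (by positivity)]
          ring
  have hKM : KM M m h *ᵥ v 0 = M *ᵥ (Q ^ h *ᵥ v 0) := by
    rw [mulVec_mulVec]
    rfl
  show RND2_n (val n N (mul t.1, mul t.2) - KM M m h *ᵥ v 0) ≤ (4 * m * h + 2) * √n / N
  have e : val n N (mul t.1, mul t.2) - KM M m h *ᵥ v 0 =
      (val n N (mul t.1, mul t.2) - M *ᵥ val n N t) + M *ᵥ (v h - Q ^ h *ᵥ v 0) := by
    rw [hKM, mulVec_sub, hvt]
    abel
  rw [e]
  have hsnN : 0 ≤ √(n : ℝ) / N := by positivity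
  calc _ ≤ _ := RND2_add hM _ _
    _ ≤ √n / N + 4 * m * h * √n / N := add_le_add hlast ((RND2_con M hMc _).trans kh)
    _ ≤ _ := by
        have : (4 * (m : ℝ) * h + 2) * √n / N = 2 * (√n / N) + 4 * m * h * √n / N := by ring
        rw [this]
        linarith

end Pool.Agent.Work.MP_a23c49_sub

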