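import Pool.Agent.Work.MP_a23c49_sub.Interface2

/-!
# RND1: one step of the rounded iteration
-/

set_option autoImplicit false

namespace Pool.Agent.Work.MP_a23c49_sub

open Matrix Finset

theorem RND1_smul {n : ℕ} (c : ℝ) (hc : 0 ≤ c) (x : Fin n → ℝ) : √(nsq (c • x)) = c * √(nsq x) := by
  have h1 : nsq (c • x) = c ^ 2 * nsq x := by
    unfold nsq
    rw [Finset.mul_sum]
    refine Finset.sum_congr rfl fun i _ => ?_
    rw [Pi.smul_apply, smul_eq_mul]
    ring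
  rw [h1, Real.sqrt_mul (sq_nonneg c), Real.sqrt_sq hc]

theorem RND1_le {n : ℕ} (x : Fin n → ℝ) (hx : ∀ u, |x u| ≤ 1) : √(nsq x) ≤ √n := by
  refine Real.sqrt_le_sqrt ?_
  unfold nsq
  have h1 : ∀ u ∈ (univ : Finset (Fin n)), x u ^ 2 ≤ 1 := by
    intro u _
    rw [← sq_abs]
    have := hx u
    have h0 := abs_nonneg (x u)
    nlinarith
  have h2 := Finset.sum_le_sum h1
  simpa using h2

theorem RND1_coord {n : ℕ} (x : Fin n → ℝ) (u : Fin n) : |x u| ≤ √(nsq x) := by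
  rw [← Real.sqrt_sq_eq_abs]
  refine Real.sqrt_le_sqrt ?_
  unfold nsq
  exact Finset.single_le_sum (f := fun u => x u ^ 2) (fun i _ => sq_nonneg _) (mem_univ u)

theorem RND1_lv (n : ℕ) (f : ℕ → ℕ) (u : Fin n) : (lv n f).getD u.val 0 = f u.val := by
  unfold lv
  rw [List.getD_eq_getElem _ _ (by simp)]
  simp

theorem stmt_RND1 (hMIN : Stmt_MIN) : Stmt_RND1 := by
  intro n N cap M mul s hM hA hN hcap
  obtain ⟨hmin, -, -⟩ := hMIN
  have hN' : (0 : ℝ) < N := Nat.cast_pos.2 hN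
  obtain ⟨z, hz⟩ : ∃ z : List ℕ → Fin n → ℝ, z = fun l v => (l.getD v.val 0 : ℝ) := ⟨_, rfl⟩
  have hr : ∀ l u, 0 ≤ (M *ᵥ z l - z (mul l)) u ∧ (M *ᵥ z l - z (mul l)) u ≤ 1 := by
    intro l u
    have h1 := hA l u
    rw [hz]
    simp only [Pi.sub_apply]
    constructor <;> linarith [h1.1, h1.2]
  obtain ⟨r1, hr1⟩ : ∃ r1, r1 = M *ᵥ z s.1 - z (mul s.1) := ⟨_, rfl⟩
  obtain ⟨r2, hr2⟩ : ∃ r2, r2 = M *ᵥ z s.2 - z (mul s.2) := ⟨_, rfl⟩
  obtain ⟨q1, hq1⟩ : ∃ q1, q1 = M *ᵥ z (mul s.1) - z (mul (mul s.1)) := ⟨_, rfl⟩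
  obtain ⟨q2, hq2⟩ : ∃ q2, q2 = M *ᵥ z (mul s.2) - z (mul (mul s.2)) := ⟨_, rfl⟩
  obtain ⟨e, he⟩ : ∃ e, e = M *ᵥ (r1 - r2) + (q1 - q2) := ⟨_, rfl⟩
  have hdiff : ∀ l l' : List ℕ, ∀ u, |((M *ᵥ z l - z (mul l)) - (M *ᵥ z l' - z (mul l'))) u| ≤ 1 := by
    intro l l' u
    have h1 := hr l u
    have h2 := hr l' u
    rw [Pi.sub_apply, abs_le]
    constructor <;> linarith [h1.1, h1.2, h2.1, h2.2]
  have hen : √(nsq e) ≤ 2 * √n := by
    have h1 := hmin (Fin n) (M *ᵥ (r1 - r2)) (q1 - q2)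
    have h2 : √(nsq (M *ᵥ (r1 - r2))) ≤ √(nsq (r1 - r2)) := by
      refine Real.sqrt_le_sqrt ?_
      have := hM (r1 - r2)
      rwa [one_mul] at this
    have h3 := RND1_le (r1 - r2) (by rw [hr1, hr2]; exact hdiff s.1 s.2)
    have h4 := RND1_le (q1 - q2) (by rw [hq1, hq2]; exact hdiff (mul s.1) (mul s.2))
    rw [he]
    linarith
  -- the vectors before truncation
  obtain ⟨a, ha⟩ : ∃ a : Fin n → ℕ, a = fun u => s.1.getD u.val 0 + (mul (mul s.2)).getD u.val 0 :=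
    ⟨_, rfl⟩
  obtain ⟨b, hb⟩ : ∃ b : Fin n → ℕ, b = fun u => s.2.getD u.val 0 + (mul (mul s.1)).getD u.val 0 :=
    ⟨_, rfl⟩
  obtain ⟨x, hx⟩ : ∃ x, x = (1 - M * M) *ᵥ val n N s := ⟨_, rfl⟩
  have hval : (N : ℝ) • val n N s = z s.1 - z s.2 := by
    funext u
    rw [Pi.smul_apply, Pi.sub_apply, hz]
    unfold val
    simp only [smul_eq_mul]
    field_simp
  have hab : (fun u => (a u : ℝ) - b u) = (N : ℝ) • x + e := by
    have h1 : (N : ℝ) • x = (z s.1 - z s.2) - M *ᵥ (M *ᵥ (z s.1 - z s.2)) := by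
      rw [hx, ← Matrix.mulVec_smul, hval, Matrix.sub_mulVec, Matrix.one_mulVec, Matrix.mulVec_mulVec]
    have h2 : z (mul (mul s.1)) = M *ᵥ (M *ᵥ z s.1) - M *ᵥ r1 - q1 := by
      have h3 : z (mul s.1) = M *ᵥ z s.1 - r1 := by rw [hr1]; abel
      have h4 : z (mul (mul s.1)) = M *ᵥ z (mul s.1) - q1 := by rw [hq1]; abel
      rw [h4, h3, Matrix.mulVec_sub]
    have h2' : z (mul (mul s.2)) = M *ᵥ (M *ᵥ z s.2) - M *ᵥ r2 - q2 := by
      have h3 : z (mul s.2) = M *ᵥ z s.2 - r2 := by rw [hr2]; abel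
      have h4 : z (mul (mul s.2)) = M *ᵥ z (mul s.2) - q2 := by rw [hq2]; abel
      rw [h4, h3, Matrix.mulVec_sub]
    have h5 : (fun u => (a u : ℝ) - b u) = (z s.1 + z (mul (mul s.2))) - (z s.2 + z (mul (mul s.1))) := by
      funext u
      rw [Pi.sub_apply, Pi.add_apply, Pi.add_apply, ha, hb, hz]
      push_cast
      ring
    rw [h5, h1, h2, h2', he]
    simp only [Matrix.mulVec_sub]
    abel
  have hsz : ∀ u, |(a u : ℝ) - b u| ≤ cap := by
    intro u
    have h1 := RND1_coord (fun u => (a u : ℝ) - b u) u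
    have h2 : √(nsq (fun u => (a u : ℝ) - b u)) ≤ N * √(nsq x) + 2 * √n := by
      rw [hab]
      refine (hmin (Fin n) _ _).trans ?_
      rw [RND1_smul _ hN'.le]
      linarith
    have h3 : (0 : ℝ) ≤ √n := Real.sqrt_nonneg _
    rw [← hx] at hcap
    linarith
  have hstep : ∀ u, val n N (stepL mul cap n s) u = ((a u : ℝ) - b u) / N := by
    intro u
    unfold val stepL subL addL
    simp only [RND1_lv]
    have h1 := hsz u
    have h2 : s.1.getD u.val 0 + (mul (mul s.2)).getD u.val 0 = a u := by rw [ha]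
    have h3 : s.2.getD u.val 0 + (mul (mul s.1)).getD u.val 0 = b u := by rw [hb]
    rw [h2, h3]
    congr 1
    rcases le_total (a u) (b u) with h | h
    · have h4 : a u - b u = 0 := by omega
      have h5 : b u - a u ≤ cap := by
        have h6 : ((b u : ℝ) - a u) ≤ cap := by
          have := (abs_le.1 h1).1
          linarith
        have h7 : (b u : ℝ) ≤ (cap + a u : ℕ) := by push_cast; linarith
        have h8 := Nat.cast_le.1 h7
        omega
      rw [h4, min_eq_right h5, Nat.cast_sub h]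
      simp
    · have h4 : b u - a u = 0 := by omega
      have h5 : a u - b u ≤ cap := by
        have h6 : ((a u : ℝ) - b u) ≤ cap := (abs_le.1 h1).2
        have h7 : (a u : ℝ) ≤ (cap + b u : ℕ) := by push_cast; linarith
        have h8 := Nat.cast_le.1 h7
        omega
      rw [h4, min_eq_right h5, Nat.cast_sub h]
      simp
  have hfin : val n N (stepL mul cap n s) - (1 - M * M) *ᵥ val n N s = (1 / (N : ℝ)) • e := by
    rw [← hx]
    funext u
    have h1 := congrFun hab u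
    rw [Pi.sub_apply, hstep]
    simp only [Pi.add_apply, Pi.smul_apply, smul_eq_mul] at h1 ⊢
    rw [h1]
    field_simp
    ring
  rw [hfin, RND1_smul _ (by positivity)]
  have h3 : (0 : ℝ) ≤ √n := Real.sqrt_nonneg _
  rw [div_mul_eq_mul_div, one_mul]
  refine div_le_div_of_nonneg_right ?_ hN'.le
  linarith

end Pool.Agent.Work.MP_a23c49_sub
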