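import Pool.Agent.Work.MP_a23c49_sub.Interface2

/-! # Block RND2 of MP_a23c49_sub (helper60) -/

set_option autoImplicit false

namespace Pool.Agent.Work.MP_a23c49_sub

open Matrix Finset
open Pool.Agent.Work.MP_a23c49_lc (LS Ind)

/-- The Euclidean norm. -/
noncomputable def RND2_n {ι : Type} [Fintype ι] (x : ι → ℝ) : ℝ := √(nsq x)

theorem RND2_nonneg {ι : Type} [Fintype ι] (x : ι → ℝ) : 0 ≤ RND2_n x := Real.sqrt_nonneg _

theorem RND2_add (hM : Stmt_MIN) {ι : Type} [Fintype ι] (x y : ι → ℝ) :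
    RND2_n (x + y) ≤ RND2_n x + RND2_n y := hM.1 ι x y

theorem RND2_neg {ι : Type} [Fintype ι] (x : ι → ℝ) : RND2_n (-x) = RND2_n x := by
  unfold RND2_n nsq
  congr 1
  apply sum_congr rfl
  intro i _
  rw [Pi.neg_apply, neg_sq]

theorem RND2_con {ι : Type} [Fintype ι] [DecidableEq ι] (Q : Matrix ι ι ℝ) (h : Con 1 Q)
    (x : ι → ℝ) : RND2_n (Q *ᵥ x) ≤ RND2_n x := by
  unfold RND2_n
  apply Real.sqrt_le_sqrt
  have := h x
  linarith

theorem RND2_pow {ι : Type} [Fintype ι] [DecidableEq ι] (Q : Matrix ι ι ℝ) (h : Con 1 Q)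
    (j : ℕ) (x : ι → ℝ) : RND2_n (Q ^ j *ᵥ x) ≤ RND2_n x := by
  induction j with
  | zero => rw [pow_zero, one_mulVec]
  | succ j ih =>
      rw [pow_succ', ← mulVec_mulVec]
      exact (RND2_con Q h _).trans ih

theorem RND2_ent {ι : Type} [Fintype ι] (x : ι → ℝ) (i : ι) : |x i| ≤ RND2_n x := by
  unfold RND2_n
  rw [← Real.sqrt_sq_eq_abs]
  apply Real.sqrt_le_sqrt
  unfold nsq
  exact single_le_sum (f := fun i => x i ^ 2) (fun i _ => sq_nonneg _) (mem_univ i)

theorem RND2_lv (n : ℕ) (f : ℕ → ℕ) (u : Fin n) : (lv n f).getD u.val 0 = f u.val := by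
  unfold lv
  rw [List.getD_eq_getElem?_getD, List.getElem?_map, List.getElem?_range u.isLt]
  rfl

theorem RND2_min (cap a b : ℕ) (h : |(a : ℝ) - b| ≤ cap) :
    ((min cap (a - b) : ℕ) : ℝ) - (min cap (b - a) : ℕ) = a - b := by
  rcases le_total a b with hab | hab
  · have h1 : a - b = 0 := by omega
    have h2 : b - a ≤ cap := by
      have : (b : ℝ) - a ≤ cap := by
        have := neg_abs_le ((a : ℝ) - b)
        linarith
      have h3 : (b : ℝ) ≤ cap + a := by linarith
      have h4 : b ≤ cap + a := by exact_mod_cast h3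
      omega
    rw [h1, Nat.min_zero, min_eq_right h2, Nat.cast_sub hab]
    push_cast
    ring
  · have h1 : b - a = 0 := by omega
    have h2 : a - b ≤ cap := by
      have : (a : ℝ) - b ≤ cap := (le_abs_self _).trans h
      have h3 : (a : ℝ) ≤ cap + b := by linarith
      have h4 : a ≤ cap + b := by exact_mod_cast h3
      omega
    rw [h1, Nat.min_zero, min_eq_right h2, Nat.cast_sub hab]
    push_cast
    ring

/-- The difference is exact. -/
theorem RND2_dif (n N cap : ℕ) (hN : 0 < N) (s t : List ℕ × List ℕ)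
    (h : N * RND2_n (val n N s - val n N t) ≤ cap) :
    val n N (difL cap n s t) = val n N s - val n N t := by
  have hNR : (0 : ℝ) < N := by exact_mod_cast hN
  funext u
  have h1 := RND2_ent (val n N s - val n N t) u
  have h2 : (N : ℝ) * |(val n N s - val n N t) u| ≤ cap :=
    (mul_le_mul_of_nonneg_left h1 hNR.le).trans h
  have e0 : (N : ℝ) * (val n N s - val n N t) u =
      ((s.1.getD u.val 0 + t.2.getD u.val 0 : ℕ) : ℝ) - (s.2.getD u.val 0 + t.1.getD u.val 0 : ℕ) := by
    rw [Pi.sub_apply]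
    unfold val
    push_cast
    field_simp
    ring
  have e1 : |((s.1.getD u.val 0 + t.2.getD u.val 0 : ℕ) : ℝ) -
      (s.2.getD u.val 0 + t.1.getD u.val 0 : ℕ)| ≤ cap := by
    rw [← e0, abs_mul, abs_of_pos hNR]
    exact h2
  have e2 := RND2_min cap _ _ e1
  have e3 : val n N (difL cap n s t) u =
      (((min cap ((s.1.getD u.val 0 + t.2.getD u.val 0) - (s.2.getD u.val 0 + t.1.getD u.val 0)) : ℕ) : ℝ) -
      (min cap ((s.2.getD u.val 0 + t.1.getD u.val 0) - (s.1.getD u.val 0 + t.2.getD u.val 0)) : ℕ)) / N := by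
    unfold val difL subL addL
    simp only [RND2_lv]
  rw [e3, e2, ← e0]
  field_simp

theorem stmt_RND2 (h1 : Stmt_RND1) (hK : Stmt_KCN) (hM : Stmt_MIN) : Stmt_RND2 := by
  intro n N cap m M mul s hMt hMc hA hN hcap
  obtain ⟨hP, hPm, hQ⟩ := hK (Fin n) M m hMt hMc
  have hNR : (0 : ℝ) < N := by exact_mod_cast hN
  have hsn : 0 ≤ √(n : ℝ) := Real.sqrt_nonneg _
  set P : Matrix (Fin n) (Fin n) ℝ := 1 - M * M with hPdef
  set v : ℕ → Fin n → ℝ := fun j => val n N ((stepL mul cap n)^[j] s) with hv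
  have hv0 : v 0 = val n N s := rfl
  have hcap' : N * RND2_n (v 0) + 4 * m * √n ≤ cap := hcap
  have key : ∀ j : ℕ, j ≤ m → RND2_n (v j - P ^ j *ᵥ v 0) ≤ 4 * j * √n / N := by
    intro j
    induction j with
    | zero =>
        intro _
        rw [pow_zero, one_mulVec, sub_self]
        unfold RND2_n nsq
        simp
    | succ j ih =>
        intro hj
        have ih' := ih (by omega)
        have hjm : ((j : ℝ) + 1) ≤ m := by exact_mod_cast hj
        have a1 : RND2_n (v j) ≤ RND2_n (v 0) + 4 * j * √n / N := by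
          have : v j = P ^ j *ᵥ v 0 + (v j - P ^ j *ᵥ v 0) := by abel
          calc RND2_n (v j) = RND2_n (P ^ j *ᵥ v 0 + (v j - P ^ j *ᵥ v 0)) := by rw [← this]
            _ ≤ _ := RND2_add hM _ _
            _ ≤ _ := add_le_add (RND2_pow P hP j _) ih'
        have a2 : N * RND2_n (P *ᵥ v j) + 4 * √n ≤ cap := by
          calc N * RND2_n (P *ᵥ v j) + 4 * √n ≤ N * (RND2_n (v 0) + 4 * j * √n / N) + 4 * √n := by
                have := (RND2_con P hP (v j)).trans a1
                have := mul_le_mul_of_nonneg_left this hNR.le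
                linarith
            _ = N * RND2_n (v 0) + 4 * ((j : ℝ) + 1) * √n := by
                field_simp
                ring
            _ ≤ N * RND2_n (v 0) + 4 * m * √n := by
                have := mul_le_mul_of_nonneg_right hjm hsn
                linarith
            _ ≤ cap := hcap'
        have a3 : RND2_n (v (j + 1) - P *ᵥ v j) ≤ 4 * √n / N := by
          have := h1 n N cap M mul ((stepL mul cap n)^[j] s) hMc hA hN a2
          have e : v (j + 1) = val n N (stepL mul cap n ((stepL mul cap n)^[j] s)) := by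
            simp only [hv]
            rw [Function.iterate_succ_apply']
          rw [e]
          exact this
        have a4 : v (j + 1) - P ^ (j + 1) *ᵥ v 0 =
            (v (j + 1) - P *ᵥ v j) + P *ᵥ (v j - P ^ j *ᵥ v 0) := by
          rw [pow_succ', ← mulVec_mulVec, mulVec_sub]
          abel
        rw [a4]
        calc _ ≤ _ := RND2_add hM _ _
          _ ≤ 4 * √n / N + 4 * j * √n / N :=
              add_le_add a3 ((RND2_con P hP _).trans ih')
          _ = _ := by
              push_cast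
              ring
  have km := key m le_rfl
  have hd : v 0 - v m = (1 - P ^ m) *ᵥ v 0 + -(v m - P ^ m *ᵥ v 0) := by
    rw [sub_mulVec, one_mulVec]
    abel
  have hb : N * RND2_n (v 0 - v m) ≤ cap := by
    have c1 : RND2_n (v 0 - v m) ≤ RND2_n (v 0) + 4 * m * √n / N := by
      rw [hd]
      calc _ ≤ _ := RND2_add hM _ _
        _ ≤ _ := add_le_add (RND2_con _ hQ _) (by rw [RND2_neg]; exact km)
    calc N * RND2_n (v 0 - v m) ≤ N * (RND2_n (v 0) + 4 * m * √n / N) :=
          mul_le_mul_of_nonneg_left c1 hNR.le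
      _ = N * RND2_n (v 0) + 4 * m * √n := by field_simp
      _ ≤ cap := hcap'
  have hdif : val n N (levL mul cap n m s) = v 0 - v m := RND2_dif n N cap hN s _ hb
  show RND2_n (val n N (levL mul cap n m s) - (1 - P ^ m) *ᵥ v 0) ≤ 4 * m * √n / N
  have e : val n N (levL mul cap n m s) - (1 - P ^ m) *ᵥ v 0 = -(v m - P ^ m *ᵥ v 0) := by
    rw [hdif, hd]
    abel
  rw [e, RND2_neg]
  exact km

end Pool.Agent.Work.MP_a23c49_sub

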