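import Pool.Agent.Work.MP_a23c49_sub.Interface1

/-!
# Block SCH (helper62)
-/

namespace Pool.Agent.Work.MP_a23c49_sub

open Matrix Finset

theorem stmt_SCH : Stmt_SCH := by
  intro ι _ _ M hM h0 h1 x
  unfold nsq
  have hrow : ∀ i, (M *ᵥ x) i ^ 2 ≤ ∑ j, M i j * x j ^ 2 := by
    intro i
    have h2 : (∑ j, M i j * x j) ^ 2 ≤ (∑ j, M i j) * ∑ j, M i j * x j ^ 2 :=
      Finset.sum_sq_le_sum_mul_sum_of_sq_le_mul univ (fun j _ => h0 i j)
        (fun j _ => mul_nonneg (h0 i j) (sq_nonneg _)) (fun j _ => le_of_eq (by ring))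
    have h3 : 0 ≤ ∑ j, M i j * x j ^ 2 :=
      Finset.sum_nonneg fun j _ => mul_nonneg (h0 i j) (sq_nonneg _)
    have h4 : (∑ j, M i j) * ∑ j, M i j * x j ^ 2 ≤ 1 * ∑ j, M i j * x j ^ 2 :=
      mul_le_mul_of_nonneg_right (h1 i) h3
    have h5 : (M *ᵥ x) i = ∑ j, M i j * x j := rfl
    rw [h5]
    linarith
  have hsym : ∀ i j, M i j = M j i := by
    intro i j
    have := congrFun (congrFun hM i) j
    rw [transpose_apply] at this
    exact this.symm
  calc ∑ i, (M *ᵥ x) i ^ 2 ≤ ∑ i, ∑ j, M i j * x j ^ 2 := Finset.sum_le_sum fun i _ => hrow i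
    _ = ∑ j, (∑ i, M j i) * x j ^ 2 := by
        rw [Finset.sum_comm]
        refine Finset.sum_congr rfl fun j _ => ?_
        rw [Finset.sum_mul]
        exact Finset.sum_congr rfl fun i _ => by rw [hsym i j]
    _ ≤ ∑ j, 1 * x j ^ 2 :=
        Finset.sum_le_sum fun j _ => mul_le_mul_of_nonneg_right (h1 j) (sq_nonneg _)
    _ = 1 * ∑ j, x j ^ 2 := by rw [Finset.mul_sum]

end Pool.Agent.Work.MP_a23c49_sub
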