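import Pool.Agent.Work.MP_a23c49_sub.Interface1

/-!
# Block SMP (helper62)
-/

namespace Pool.Agent.Work.MP_a23c49_sub

open Matrix Finset

theorem SMP_coord {κ : Type} [Fintype κ] [Nonempty κ] (f : κ → ℝ) (g : ℝ) :
    ∑ a, (g + (f a - (1 / (Fintype.card κ : ℝ)) * ∑ b, f b)) ^ 2 ≤
      Fintype.card κ * g ^ 2 + ∑ a, f a ^ 2 := by
  have hc : (0 : ℝ) < Fintype.card κ := by exact_mod_cast Fintype.card_pos
  set c : ℝ := ((Fintype.card κ : ℕ) : ℝ) with hcdef
  set S : ℝ := ∑ b, f b with hS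
  have h1 : ∀ a, (g + (f a - (1 / c) * S)) ^ 2 =
      (g - (1 / c) * S) ^ 2 + 2 * (g - (1 / c) * S) * f a + f a ^ 2 := fun a => by ring
  simp only [h1, Finset.sum_add_distrib, Finset.sum_const, Finset.card_univ, nsmul_eq_mul]
  rw [← Finset.mul_sum, ← hS, ← hcdef]
  have h2 : c * (g - (1 / c) * S) ^ 2 + 2 * (g - (1 / c) * S) * S = c * g ^ 2 - S ^ 2 / c := by
    field_simp
    ring
  have h3 : 0 ≤ S ^ 2 / c := by positivity
  linarith

theorem stmt_SMP : Stmt_SMP := by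
  intro ι κ _ _ _ f k
  have hc : (0 : ℝ) < Fintype.card κ := by exact_mod_cast Fintype.card_pos
  induction k with
  | zero =>
    refine ⟨Fin.elim0, ?_⟩
    simp [nsq]
  | succ k ih =>
    obtain ⟨R, hR⟩ := ih
    set g : ι → ℝ := (∑ j, f (R j)) - ((k : ℝ) / Fintype.card κ) • ∑ a, f a with hg
    have hex : ∃ a ∈ (univ : Finset κ), nsq (fun i => g i + (f a i -
        (1 / (Fintype.card κ : ℝ)) * ∑ b, f b i)) ≤
        nsq g + (1 / (Fintype.card κ : ℝ)) * ∑ b, nsq (f b) := by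
      refine Finset.exists_le_of_sum_le Finset.univ_nonempty ?_
      rw [Finset.sum_const, Finset.card_univ, nsmul_eq_mul]
      unfold nsq
      rw [Finset.sum_comm]
      have h1 : ∑ i, ∑ a, (g i + (f a i - (1 / (Fintype.card κ : ℝ)) * ∑ b, f b i)) ^ 2 ≤
          ∑ i, (Fintype.card κ * g i ^ 2 + ∑ a, f a i ^ 2) :=
        Finset.sum_le_sum fun i _ => SMP_coord (fun a => f a i) (g i)
      refine h1.trans (le_of_eq ?_)
      rw [Finset.sum_add_distrib, ← Finset.mul_sum, Finset.sum_comm]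
      field_simp
    obtain ⟨a, -, ha⟩ := hex
    refine ⟨Fin.cons a R, ?_⟩
    have h2 : (∑ j, f ((Fin.cons a R : Fin (k + 1) → κ) j)) -
        (((k + 1 : ℕ) : ℝ) / Fintype.card κ) • ∑ b, f b =
        fun i => g i + (f a i - (1 / (Fintype.card κ : ℝ)) * ∑ b, f b i) := by
      ext i
      rw [Fin.sum_univ_succ]
      simp only [Fin.cons_zero, Fin.cons_succ, hg, Pi.sub_apply, Pi.add_apply, Pi.smul_apply,
        Finset.sum_apply, smul_eq_mul]
      push_cast
      ring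
    rw [h2]
    refine ha.trans ?_
    have h3 : (((k + 1 : ℕ) : ℝ) / Fintype.card κ) * ∑ b, nsq (f b) =
        (k : ℝ) / Fintype.card κ * ∑ b, nsq (f b) +
          (1 / (Fintype.card κ : ℝ)) * ∑ b, nsq (f b) := by
      push_cast
      ring
    rw [h3]
    linarith

end Pool.Agent.Work.MP_a23c49_sub
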