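import Pool.Agent.Work.MP_a23c49_sub.Interface1

/-! Block TRB: the trace of an even power bounds the operator norm. -/

set_option autoImplicit false

namespace Pool.Agent.Work.MP_a23c49_sub

open Matrix Finset

theorem stmt_TRB (hEIG : Stmt_EIG) (hEGP : Stmt_EGP) (hEVB : Stmt_EVB) : Stmt_TRB := by
  intro ι _ _ Q r c hQ hr hc htr
  obtain ⟨U, l, h1, h2, h3⟩ := hEIG ι Q hQ
  have e1 : trace (Q ^ (2 * r)) = ∑ i, l i ^ (2 * r) := by
    rw [h3, hEGP ι U l (2 * r) h1 h2, Matrix.mul_assoc, trace_mul_comm, Matrix.mul_assoc, h1,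
      Matrix.mul_one, trace_diagonal]
  rw [h3]
  refine (hEVB ι U l c h1 h2).2 fun i => ?_
  rw [e1] at htr
  have h4 : l i ^ (2 * r) ≤ ∑ j, l j ^ (2 * r) :=
    Finset.single_le_sum (f := fun j => l j ^ (2 * r))
      (fun j _ => by rw [pow_mul]; positivity) (Finset.mem_univ i)
  have h5 : (l i ^ 2) ^ r ≤ c ^ r := by
    rw [← pow_mul]
    exact h4.trans htr
  exact (pow_le_pow_iff_left₀ (sq_nonneg _) hc (by omega)).1 h5

end Pool.Agent.Work.MP_a23c49_sub
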