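import Pool.Agent.Work.MP_a23c49_sub.Interface1

namespace Pool.Agent.Work.MP_a23c49_sub

open Matrix Finset

theorem TRI_abs (x y : ℝ) (r j : ℕ) (hj : j ≤ 2 * r) :
    x ^ j * y ^ (2 * r - j) ≤ x ^ (2 * r) + y ^ (2 * r) := by
  have hx : 0 ≤ x ^ (2 * r) := by rw [pow_mul]; positivity
  have hy : 0 ≤ y ^ (2 * r) := by rw [pow_mul]; positivity
  have h1 : x ^ j * y ^ (2 * r - j) ≤ |x| ^ j * |y| ^ (2 * r - j) := by
    calc x ^ j * y ^ (2 * r - j) ≤ |x ^ j * y ^ (2 * r - j)| := le_abs_self _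
      _ = |x| ^ j * |y| ^ (2 * r - j) := by rw [abs_mul, abs_pow, abs_pow]
  have hxx : |x| ^ (2 * r) = x ^ (2 * r) := by rw [pow_mul, sq_abs, ← pow_mul]
  have hyy : |y| ^ (2 * r) = y ^ (2 * r) := by rw [pow_mul, sq_abs, ← pow_mul]
  rcases le_total |x| |y| with h | h
  · have h2 : |x| ^ j * |y| ^ (2 * r - j) ≤ |y| ^ j * |y| ^ (2 * r - j) :=
      mul_le_mul_of_nonneg_right (pow_le_pow_left₀ (abs_nonneg _) h j) (by positivity)
    rw [← pow_add, Nat.add_sub_cancel' hj, hyy] at h2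
    linarith
  · have h2 : |x| ^ j * |y| ^ (2 * r - j) ≤ |x| ^ j * |x| ^ (2 * r - j) :=
      mul_le_mul_of_nonneg_left (pow_le_pow_left₀ (abs_nonneg _) h _) (by positivity)
    rw [← pow_add, Nat.add_sub_cancel' hj, hxx] at h2
    linarith

theorem TRI_pt (x y : ℝ) (r : ℕ) :
    (x - y) * (x ^ (2 * r + 1) - y ^ (2 * r + 1)) ≤
      (2 * r + 1) * ((x - y) ^ 2 * (x ^ (2 * r) + y ^ (2 * r))) := by
  have h1 := (Commute.all x y).geom_sum₂_mul (2 * r + 1)
  have h2 : ∑ i ∈ range (2 * r + 1), x ^ i * y ^ (2 * r + 1 - 1 - i) ≤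
      (2 * r + 1) * (x ^ (2 * r) + y ^ (2 * r)) := by
    calc ∑ i ∈ range (2 * r + 1), x ^ i * y ^ (2 * r + 1 - 1 - i)
        ≤ ∑ i ∈ range (2 * r + 1), (x ^ (2 * r) + y ^ (2 * r)) := by
          apply Finset.sum_le_sum
          intro i hi
          have hi' : i ≤ 2 * r := by
            have := Finset.mem_range.1 hi
            omega
          exact TRI_abs x y r i hi'
      _ = (2 * r + 1) * (x ^ (2 * r) + y ^ (2 * r)) := by
          rw [Finset.sum_const, card_range, nsmul_eq_mul]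
          push_cast
          ring
  rw [← h1]
  calc (x - y) * ((∑ i ∈ range (2 * r + 1), x ^ i * y ^ (2 * r + 1 - 1 - i)) * (x - y))
      = (x - y) ^ 2 * ∑ i ∈ range (2 * r + 1), x ^ i * y ^ (2 * r + 1 - 1 - i) := by ring
    _ ≤ (x - y) ^ 2 * ((2 * r + 1) * (x ^ (2 * r) + y ^ (2 * r))) :=
        mul_le_mul_of_nonneg_left h2 (sq_nonneg _)
    _ = _ := by ring

theorem stmt_TRI (h1 : Stmt_EIG) (h2 : Stmt_EGP) (h3 : Stmt_TRF) : Stmt_TRI := by
  intro ι _ _ S S' r hS hS'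
  obtain ⟨U, l, hU1, hU2, hU⟩ := h1 ι S hS
  obtain ⟨V, m, hV1, hV2, hV⟩ := h1 ι S' hS'
  set c : ι → ι → ℝ := fun a b => (Uᵀ * V) a b ^ 2 with hc
  have F : ∀ k j : ℕ, trace (S ^ k * S' ^ j) = ∑ a, ∑ b, l a ^ k * m b ^ j * c a b := by
    intro k j
    rw [hU, hV, h2 ι U l k hU1 hU2, h2 ι V m j hV1 hV2, h3]
  have hL : trace ((S - S') * (S ^ (2 * r + 1) - S' ^ (2 * r + 1))) =
      trace (S ^ (2 * r + 2) * S' ^ 0) - trace (S ^ 1 * S' ^ (2 * r + 1)) -
        trace (S ^ (2 * r + 1) * S' ^ 1) + trace (S ^ 0 * S' ^ (2 * r + 2)) := by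
    have e1 : (S - S') * (S ^ (2 * r + 1) - S' ^ (2 * r + 1)) =
        S ^ (2 * r + 2) * S' ^ 0 - S ^ 1 * S' ^ (2 * r + 1) - S' * S ^ (2 * r + 1) +
          S ^ 0 * S' ^ (2 * r + 2) := by
      simp only [pow_zero, pow_one, Matrix.mul_one, Matrix.one_mul]
      rw [show 2 * r + 2 = (2 * r + 1) + 1 from rfl, pow_succ' S (2 * r + 1),
        pow_succ' S' (2 * r + 1), Matrix.sub_mul, Matrix.mul_sub, Matrix.mul_sub]
      abel
    rw [e1, trace_add, trace_sub, trace_sub, Matrix.trace_mul_comm S' (S ^ (2 * r + 1)), pow_one S']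
  have hR1 : trace ((S - S') * (S - S') * S ^ (2 * r)) =
      trace (S ^ (2 * r + 2) * S' ^ 0) - 2 * trace (S ^ (2 * r + 1) * S' ^ 1) +
        trace (S ^ (2 * r) * S' ^ 2) := by
    have e1 : (S - S') * (S - S') * S ^ (2 * r) = S ^ (2 * r + 2) - S * (S' * S ^ (2 * r)) -
        S' * S ^ (2 * r + 1) + S' ^ 2 * S ^ (2 * r) := by
      rw [show 2 * r + 2 = (2 * r + 1) + 1 from rfl, pow_succ' S (2 * r + 1), pow_succ' S (2 * r),
        Matrix.sub_mul, Matrix.mul_sub, Matrix.mul_sub, pow_two, Matrix.sub_mul, Matrix.sub_mul,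
        Matrix.sub_mul]
      simp only [Matrix.mul_assoc]
      abel
    have e2 : trace (S * (S' * S ^ (2 * r))) = trace (S ^ (2 * r + 1) * S' ^ 1) := by
      rw [Matrix.trace_mul_comm, Matrix.mul_assoc, ← pow_succ, Matrix.trace_mul_comm, pow_one]
    rw [e1, trace_add, trace_sub, trace_sub, e2, Matrix.trace_mul_comm S' (S ^ (2 * r + 1)),
      Matrix.trace_mul_comm (S' ^ 2), pow_zero, Matrix.mul_one, pow_one S']
    ring
  have hR2 : trace ((S - S') * (S - S') * S' ^ (2 * r)) =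
      trace (S ^ 2 * S' ^ (2 * r)) - 2 * trace (S ^ 1 * S' ^ (2 * r + 1)) +
        trace (S ^ 0 * S' ^ (2 * r + 2)) := by
    have e1 : (S - S') * (S - S') * S' ^ (2 * r) = S ^ 2 * S' ^ (2 * r) - S * S' ^ (2 * r + 1) -
        S' * (S * S' ^ (2 * r)) + S' ^ (2 * r + 2) := by
      rw [show 2 * r + 2 = (2 * r + 1) + 1 from rfl, pow_succ' S' (2 * r + 1), pow_succ' S' (2 * r),
        Matrix.sub_mul, Matrix.mul_sub, Matrix.mul_sub, pow_two, Matrix.sub_mul, Matrix.sub_mul,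
        Matrix.sub_mul]
      simp only [Matrix.mul_assoc]
      abel
    have e2 : trace (S' * (S * S' ^ (2 * r))) = trace (S ^ 1 * S' ^ (2 * r + 1)) := by
      rw [Matrix.trace_mul_comm, Matrix.mul_assoc, ← pow_succ, pow_one]
    rw [e1, trace_add, trace_sub, trace_sub, e2, pow_zero, Matrix.one_mul, pow_one S]
    ring
  rw [hL, hR1, hR2]
  simp only [F]
  have key : ∀ a b, c a b * ((l a - m b) * (l a ^ (2 * r + 1) - m b ^ (2 * r + 1))) ≤
      c a b * ((2 * r + 1) * ((l a - m b) ^ 2 * (l a ^ (2 * r) + m b ^ (2 * r)))) := by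
    intro a b
    exact mul_le_mul_of_nonneg_left (TRI_pt _ _ r) (sq_nonneg _)
  have hs : ∑ a, ∑ b, c a b * ((l a - m b) * (l a ^ (2 * r + 1) - m b ^ (2 * r + 1))) ≤
      ∑ a, ∑ b, c a b * ((2 * r + 1) * ((l a - m b) ^ 2 * (l a ^ (2 * r) + m b ^ (2 * r)))) :=
    Finset.sum_le_sum fun a _ => Finset.sum_le_sum fun b _ => key a b
  refine le_trans (le_of_eq ?_) (le_trans hs (le_of_eq ?_))
  · rw [← Finset.sum_sub_distrib, ← Finset.sum_sub_distrib, ← Finset.sum_add_distrib]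
    apply Finset.sum_congr rfl
    intro a _
    rw [← Finset.sum_sub_distrib, ← Finset.sum_sub_distrib, ← Finset.sum_add_distrib]
    apply Finset.sum_congr rfl
    intro b _
    ring
  · simp only [Finset.mul_sum, ← Finset.sum_sub_distrib, ← Finset.sum_add_distrib]
    apply Finset.sum_congr rfl
    intro a _
    apply Finset.sum_congr rfl
    intro b _
    ring

end Pool.Agent.Work.MP_a23c49_sub
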