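import Pool.Agent.Work.MP_a23c49_sub.Interface1

namespace Pool.Agent.Work.MP_a23c49_sub

open Matrix Finset

theorem stmt_TRY (h : Stmt_EIG) (h' : Stmt_EGP) : Stmt_TRY := by
  intro ι _ _ Y S r c hY hS hC
  obtain ⟨U, l, h1, h2, hU⟩ := h ι S hS
  have e1 : S ^ (2 * r) = U * diagonal (fun i => l i ^ (2 * r)) * Uᵀ := by
    rw [hU, h' ι U l (2 * r) h1 h2]
  have e2 : trace (S ^ (2 * r)) = ∑ i, l i ^ (2 * r) := by
    rw [e1, Matrix.trace_mul_comm, ← Matrix.mul_assoc, h1, Matrix.one_mul, trace_diagonal]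
  have e3 : trace (Y * Y * S ^ (2 * r)) = ∑ i, l i ^ (2 * r) * nsq (Y *ᵥ fun j => U j i) := by
    have e4 : trace (Y * Y * S ^ (2 * r)) =
        trace (((Y * U)ᵀ * (Y * U)) * diagonal (fun i => l i ^ (2 * r))) := by
      rw [e1, Matrix.transpose_mul, hY]
      calc trace (Y * Y * (U * diagonal (fun i => l i ^ (2 * r)) * Uᵀ))
          = trace ((Y * Y * (U * diagonal (fun i => l i ^ (2 * r)))) * Uᵀ) := by
            simp only [Matrix.mul_assoc]
        _ = trace (Uᵀ * (Y * Y * (U * diagonal (fun i => l i ^ (2 * r))))) :=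
            Matrix.trace_mul_comm _ _
        _ = _ := by simp only [Matrix.mul_assoc]
    rw [e4, trace]
    apply Finset.sum_congr rfl
    intro i _
    rw [diag_apply, Matrix.mul_diagonal, mul_comm]
    congr 1
    rw [Matrix.mul_apply]
    unfold nsq
    apply Finset.sum_congr rfl
    intro j _
    rw [transpose_apply, pow_two]
    rfl
  rw [e3, e2, Finset.mul_sum]
  apply Finset.sum_le_sum
  intro i _
  have h3 := hC (fun j => U j i)
  have h4 : nsq (fun j => U j i) = 1 := by
    have h5 := congrFun (congrFun h1 i) i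
    rw [Matrix.mul_apply, Matrix.one_apply_eq] at h5
    rw [← h5]
    unfold nsq
    apply Finset.sum_congr rfl
    intro j _
    rw [transpose_apply, pow_two]
  rw [h4, mul_one] at h3
  have h5 : 0 ≤ l i ^ (2 * r) := by rw [pow_mul]; positivity
  calc l i ^ (2 * r) * nsq (Y *ᵥ fun j => U j i) ≤ l i ^ (2 * r) * c :=
        mul_le_mul_of_nonneg_left h3 h5
    _ = _ := mul_comm _ _

end Pool.Agent.Work.MP_a23c49_sub
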