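import Pool.Agent.Work.MP_a23c49_lc.Chain

/-!
# Definitions for the analysis
-/

namespace Pool.Agent.Work.MP_a23c49_sub

open Matrix Finset
open Pool.Agent.Work.MP_a23c49_lc (LS Ind)

section
variable {ι : Type} [Fintype ι] [DecidableEq ι]

/-- squared Euclidean norm -/
def nsq (x : ι → ℝ) : ℝ := ∑ i, x i ^ 2

/-- the squared operator norm of `Q` is at most `c` -/
def Con (c : ℝ) (Q : Matrix ι ι ℝ) : Prop := ∀ x : ι → ℝ, nsq (Q *ᵥ x) ≤ c * nsq x

/-- the smoothing operator `M (1 - (1 - M²)^m)^h` -/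
def KM (M : Matrix ι ι ℝ) (m h : ℕ) : Matrix ι ι ℝ := M * (1 - (1 - M * M) ^ m) ^ h

/-- its eigenvalues -/
def Pv (m h : ℕ) (x : ℝ) : ℝ := x * (1 - (1 - x * x) ^ m) ^ h

end

/-- the normalised matrix of the lines through `w`, on the point set `V` -/
noncomputable def Tm (T : ℕ → ℕ → ℕ → Bool) (n : ℕ) (V : Finset ℕ) (L : ℕ) (w : ℕ) :
    Matrix (Fin n) (Fin n) ℝ :=
  fun u v => if u.val ∈ V ∧ v.val ∈ V ∧ T u.val v.val w = true then 1 / (L : ℝ) else 0

/-- the average of the matrices `Tm w` over `w ∈ A` -/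
noncomputable def Gm (T : ℕ → ℕ → ℕ → Bool) (n : ℕ) (V : Finset ℕ) (L : ℕ) (A : Finset ℕ) :
    Matrix (Fin n) (Fin n) ℝ :=
  (1 / (A.card : ℝ)) • ∑ w ∈ A, Tm T n V L w

/-- the average of the matrices `Tm w` over a sample -/
noncomputable def Mm (T : ℕ → ℕ → ℕ → Bool) (n : ℕ) (V : Finset ℕ) (L s : ℕ) (W : Fin s → ℕ) :
    Matrix (Fin n) (Fin n) ℝ :=
  (1 / (s : ℝ)) • ∑ i, Tm T n V L (W i)

/-- indicator vector -/
noncomputable def ind (n : ℕ) (B : Finset ℕ) : Fin n → ℝ := fun u => if u.val ∈ B then 1 else 0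

/-- multiplicity vector of a sample -/
noncomputable def mul1 (n k : ℕ) (R : Fin k → ℕ) : Fin n → ℝ :=
  fun u => ((univ.filter fun j => R j = u.val).card : ℝ)

/-- number of pairs `(v, w) ∈ B × C` collinear with `u` -/
def pairs (T : ℕ → ℕ → ℕ → Bool) (B C : Finset ℕ) (u : ℕ) : ℕ :=
  ((B ×ˢ C).filter fun x => T u x.1 x.2 = true).card

end Pool.Agent.Work.MP_a23c49_sub
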