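import Pool.Agent.Work.MP_a23c49_lc.Prune
import Pool.Agent.Work.MP_a23c49_sub.DefsA

/-!
# The algorithm
-/

namespace Pool.Agent.Work.MP_a23c49_sub

open Pool.Agent.Work.MP_a23c49_lc (LS Ind prune grd lg)

/-- membership test -/
def memb (u : ℕ) (V : List ℕ) : Bool := !(V.all fun v => !decide (v = u))

/-- table of the values of a function -/
def lv (n : ℕ) (f : ℕ → ℕ) : List ℕ := (List.range n).map f

/-- the sum over `w` in the list `W` and `v` in the list `V`, `u`, `v`, `w` collinear, of `z v` -/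
def cnt (T : ℕ → ℕ → ℕ → Bool) (V W z : List ℕ) (u : ℕ) : ℕ :=
  (W.map fun w => (V.map fun v => bif T u v w then z.getD v 0 else 0).sum).sum

/-- approximate multiplication of a vector with the sample matrix -/
def mulL (T : ℕ → ℕ → ℕ → Bool) (n : ℕ) (V W : List ℕ) (d : ℕ) (z : List ℕ) : List ℕ :=
  lv n fun u => bif memb u V then cnt T V W z u / d else 0

/-- sum of two vectors -/
def addL (n : ℕ) (x y : List ℕ) : List ℕ := lv n fun u => x.getD u 0 + y.getD u 0

/-- truncated difference of two vectors -/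
def subL (cap n : ℕ) (x y : List ℕ) : List ℕ := lv n fun u => min cap (x.getD u 0 - y.getD u 0)

/-- one step `z ↦ z - M² z` for `z = s.1 - s.2` -/
def stepL (mul : List ℕ → List ℕ) (cap n : ℕ) (s : List ℕ × List ℕ) : List ℕ × List ℕ :=
  (subL cap n (addL n s.1 (mul (mul s.2))) (addL n s.2 (mul (mul s.1))),
    subL cap n (addL n s.2 (mul (mul s.1))) (addL n s.1 (mul (mul s.2))))

/-- the difference of two pairs -/
def difL (cap n : ℕ) (s t : List ℕ × List ℕ) : List ℕ × List ℕ :=
  (subL cap n (addL n s.1 t.2) (addL n s.2 t.1), subL cap n (addL n s.2 t.1) (addL n s.1 t.2))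

/-- `z ↦ z - (1 - M²)^m z` -/
def levL (mul : List ℕ → List ℕ) (cap n m : ℕ) (s : List ℕ × List ℕ) : List ℕ × List ℕ :=
  difL cap n s ((stepL mul cap n)^[m] s)

/-- `z ↦ (1 - (1 - M²)^m)^h z` -/
def smL (mul : List ℕ → List ℕ) (cap n m h : ℕ) (s : List ℕ × List ℕ) : List ℕ × List ℕ :=
  (levL mul cap n m)^[h] s

/-- number of ordered pairs of `B` collinear with `u` -/
def degL (T : ℕ → ℕ → ℕ → Bool) (B : List ℕ) (u : ℕ) : ℕ :=
  (B.map fun v => (B.filter fun w => T u v w).length).sum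

/-! ### Parameters -/

/-- number of binary digits -/
def ell (n : ℕ) : ℕ := n.bits.length

def pD (Δ : ℕ) : ℕ := 33554432 * Δ ^ 10

def pm (n Δ : ℕ) : ℕ := ell n * pD Δ ^ 3

def ps (n Δ : ℕ) : ℕ := 128 * ell n * pm n Δ

def pk (n Δ : ℕ) : ℕ := (8 * pm n Δ + 1) * pD Δ ^ 2

def pN (n Δ : ℕ) : ℕ := (4 * pm n Δ * ell n + 2) * n * pD Δ

def pcap (n Δ : ℕ) : ℕ := pN n Δ * pk n Δ + 4 * pm n Δ * ell n * n

def pL (Δ : ℕ) : ℕ := 4 * Δ ^ 2

/-! ### The procedure for a given guess `g` -/

/-- the points left when the rich lines are deleted -/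
def gV (T : ℕ → ℕ → ℕ → Bool) (n : ℕ) (g : List ℕ) : List ℕ :=
  prune T (pL (g.getD 0 0)) (List.range n)

/-- the first sample -/
def gW (n : ℕ) (g : List ℕ) : List ℕ :=
  (List.range (ps n (g.getD 0 0))).map fun i => g.getD (7 + i) 0

/-- the second sample -/
def gR (n : ℕ) (g : List ℕ) : List ℕ :=
  (List.range (pk n (g.getD 0 0))).map fun i => g.getD (7 + ps n (g.getD 0 0) + i) 0

/-- multiplication with the sample matrix -/
def gM (T : ℕ → ℕ → ℕ → Bool) (n : ℕ) (g z : List ℕ) : List ℕ :=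
  mulL T n (gV T n g) (gW n g) (ps n (g.getD 0 0) * pL (g.getD 0 0)) z

/-- the smoothed vector of the second sample -/
def gZ (T : ℕ → ℕ → ℕ → Bool) (n : ℕ) (g : List ℕ) : List ℕ × List ℕ :=
  smL (gM T n g) (pcap n (g.getD 0 0)) n (pm n (g.getD 0 0)) (ell n)
    (lv n fun u => pN n (g.getD 0 0) * ((gR n g).filter fun r => decide (r = u)).length,
      lv n fun _ => 0)

/-- the first pruning -/
def gB1 (T : ℕ → ℕ → ℕ → Bool) (n : ℕ) (g : List ℕ) : List ℕ :=
  (gV T n g).filter fun u =>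
    decide (g.getD 1 0 * pD (g.getD 0 0) * (gM T n g (gZ T n g).1).getD u 0 ≤
      g.getD 1 0 * pD (g.getD 0 0) * (gM T n g (gZ T n g).2).getD u 0 +
        16 * pk n (g.getD 0 0) * pN n (g.getD 0 0))

/-- the second pruning -/
def gB2 (T : ℕ → ℕ → ℕ → Bool) (n : ℕ) (g : List ℕ) : List ℕ :=
  (gB1 T n g).filter fun u =>
    decide (cnt T (gB1 T n g) (gW n g) (lv n fun _ => 1) u * (16384 * g.getD 0 0 ^ 8) ≤
      ps n (g.getD 0 0) * pL (g.getD 0 0))

/-- the third pruning -/
def gB3 (T : ℕ → ℕ → ℕ → Bool) (n : ℕ) (g : List ℕ) : List ℕ :=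
  (gB2 T n g).filter fun u => decide (128 * g.getD 0 0 ^ 6 * degL T (gB2 T n g) u ≤ n)

/-- the hashed set -/
def gH (T : ℕ → ℕ → ℕ → Bool) (n : ℕ) (g : List ℕ) : List ℕ :=
  (gB3 T n g).filter fun u =>
    decide ((g.getD 3 0 * (u * u) + g.getD 4 0 * u + g.getD 5 0) % g.getD 2 0 < g.getD 6 0)

/-- the output for the guess `g` -/
def core (T : ℕ → ℕ → ℕ → Bool) (n : ℕ) (g : List ℕ) : List ℕ :=
  (gH T n g).filter fun u => (gH T n g).all fun v => (gH T n g).all fun w => !(T u v w)

/-! ### Decoding of the guess, the deterministic algorithm -/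

/-- one step of the decoding: the state consists of the number of bits read of the current number,
its value so far, the numbers read before -/
def numStep (b cap : ℕ) (s : ℕ × ℕ × List ℕ) (x : Bool) : ℕ × ℕ × List ℕ :=
  bif decide (s.1 + 1 = b) then (0, 0, s.2.2 ++ [min cap (2 * s.2.1 + bif x then 1 else 0)])
  else (s.1 + 1, min cap (2 * s.2.1 + bif x then 1 else 0), s.2.2)

/-- the list of numbers encoded by a bit string, `b` bits for each number -/
def nums (b cap : ℕ) (ω : List Bool) : List ℕ := (ω.foldl (numStep b cap) (0, 0, [])).2.2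

/-- the procedure for a bit string -/
def salg (T : ℕ → ℕ → ℕ → Bool) (n : ℕ) (ω : List Bool) : List ℕ :=
  lg (grd T ((List.range n).filter fun u => memb u (nums (ell n + 1) (4 * n) ω)))
    (core T n (nums (ell n + 1) (4 * n) ω))

/-- the deterministic procedure: the best of `t` attempts -/
def dalg (T : ℕ → ℕ → ℕ → Bool) (n t : ℕ) : List ℕ :=
  (List.range t).foldl (fun B i => lg B (salg T n i.bits)) (grd T (List.range n))

end Pool.Agent.Work.MP_a23c49_sub
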