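import Pool.Agent.Work.MP_a23c49_sub.DefsA

/-!
# Interface 1: linear algebra
-/

namespace Pool.Agent.Work.MP_a23c49_sub

open Matrix Finset
open Pool.Agent.Work.MP_a23c49_lc (LS Ind)

/-- EIG: orthogonal diagonalisation of a real symmetric matrix -/
def Stmt_EIG : Prop := ∀ (ι : Type) [Fintype ι] [DecidableEq ι] (Q : Matrix ι ι ℝ), Qᵀ = Q →
  ∃ (U : Matrix ι ι ℝ) (l : ι → ℝ), Uᵀ * U = 1 ∧ U * Uᵀ = 1 ∧ Q = U * diagonal l * Uᵀ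

/-- EGP: powers in diagonal form -/
def Stmt_EGP : Prop := ∀ (ι : Type) [Fintype ι] [DecidableEq ι] (U : Matrix ι ι ℝ) (l : ι → ℝ)
  (k : ℕ), Uᵀ * U = 1 → U * Uᵀ = 1 → (U * diagonal l * Uᵀ) ^ k = U * diagonal (fun i => l i ^ k) * Uᵀ

/-- TRF: trace of a product of two matrices in diagonal form -/
def Stmt_TRF : Prop := ∀ (ι : Type) [Fintype ι] [DecidableEq ι] (U V : Matrix ι ι ℝ) (f g : ι → ℝ),
  trace (U * diagonal f * Uᵀ * (V * diagonal g * Vᵀ)) = ∑ a, ∑ b, f a * g b * (Uᵀ * V) a b ^ 2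

/-- NSU: norms in diagonal form -/
def Stmt_NSU : Prop := ∀ (ι : Type) [Fintype ι] [DecidableEq ι] (U : Matrix ι ι ℝ) (l : ι → ℝ)
  (x : ι → ℝ), Uᵀ * U = 1 → U * Uᵀ = 1 → nsq (Uᵀ *ᵥ x) = nsq x ∧
    nsq ((U * diagonal l * Uᵀ) *ᵥ x) = ∑ i, l i ^ 2 * (Uᵀ *ᵥ x) i ^ 2

/-- TRB: a bound for the trace of an even power bounds the operator norm -/
def Stmt_TRB : Prop := ∀ (ι : Type) [Fintype ι] [DecidableEq ι] (Q : Matrix ι ι ℝ) (r : ℕ) (c : ℝ),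
  Qᵀ = Q → 1 ≤ r → 0 ≤ c → trace (Q ^ (2 * r)) ≤ c ^ r → Con c Q

/-- TRI: the trace inequality -/
def Stmt_TRI : Prop := ∀ (ι : Type) [Fintype ι] [DecidableEq ι] (S S' : Matrix ι ι ℝ) (r : ℕ),
  Sᵀ = S → S'ᵀ = S' → trace ((S - S') * (S ^ (2 * r + 1) - S' ^ (2 * r + 1))) ≤
    (2 * r + 1) * (trace ((S - S') * (S - S') * S ^ (2 * r)) +
      trace ((S - S') * (S - S') * S' ^ (2 * r)))

/-- TRY: -/
def Stmt_TRY : Prop := ∀ (ι : Type) [Fintype ι] [DecidableEq ι] (Y S : Matrix ι ι ℝ) (r : ℕ) (c : ℝ),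
  Yᵀ = Y → Sᵀ = S → Con c Y → trace (Y * Y * S ^ (2 * r)) ≤ c * trace (S ^ (2 * r))

/-- MOM: the moment recursion for a sum of independent centred random matrices -/
def Stmt_MOM : Prop := ∀ (ι κ : Type) [Fintype ι] [DecidableEq ι] [Fintype κ] [DecidableEq κ]
  (X : κ → Matrix ι ι ℝ), (∀ a, (X a)ᵀ = X a) → ∑ a, X a = 0 → (∀ a b, Con 4 (X a - X b)) →
  ∀ s r : ℕ, ∑ w : Fin s → κ, trace ((∑ i, X (w i)) ^ (2 * (r + 1))) ≤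
    4 * s * (2 * r + 1) * ∑ w : Fin s → κ, trace ((∑ i, X (w i)) ^ (2 * r))

/-- CNC: concentration (existence of a good sample) -/
def Stmt_CNC : Prop := ∀ (ι κ : Type) [Fintype ι] [DecidableEq ι] [Fintype κ] [DecidableEq κ]
  [Nonempty κ] (T : κ → Matrix ι ι ℝ), (∀ a, (T a)ᵀ = T a) → (∀ a, Con 1 (T a)) →
  ∀ s r : ℕ, 1 ≤ s → 1 ≤ r → Fintype.card ι ≤ 2 ^ r →
  ∃ w : Fin s → κ, Con (16 * r / s)
    ((1 / (s : ℝ)) • ∑ i, T (w i) - (1 / (Fintype.card κ : ℝ)) • ∑ a, T a)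

/-- KSP: the smoothing operator in diagonal form -/
def Stmt_KSP : Prop := ∀ (ι : Type) [Fintype ι] [DecidableEq ι] (U : Matrix ι ι ℝ) (l : ι → ℝ)
  (m h : ℕ), Uᵀ * U = 1 → U * Uᵀ = 1 →
  KM (U * diagonal l * Uᵀ) m h = U * diagonal (fun i => Pv m h (l i)) * Uᵀ

/-- EVB: eigenvalues of a contraction -/
def Stmt_EVB : Prop := ∀ (ι : Type) [Fintype ι] [DecidableEq ι] (U : Matrix ι ι ℝ) (l : ι → ℝ)
  (c : ℝ), Uᵀ * U = 1 → U * Uᵀ = 1 → (Con c (U * diagonal l * Uᵀ) ↔ ∀ i, l i ^ 2 ≤ c)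

/-- KFB: the smoothing operator has small Frobenius norm -/
def Stmt_KFB : Prop := ∀ (ι : Type) [Fintype ι] [DecidableEq ι] (M G : Matrix ι ι ℝ) (m h : ℕ),
  Mᵀ = M → Con 1 M → ∑ i, ∑ j, G i j ^ 2 ≤ 1 → 1 ≤ m → Con (1 / (8 * m)) (M - G) →
  ∑ i, ∑ j, KM M m h i j ^ 2 ≤ 8 * m + Fintype.card ι / 4 ^ h

/-- KAP: the smoothing operator is close to `M` -/
def Stmt_KAP : Prop := ∀ (ι : Type) [Fintype ι] [DecidableEq ι] (M : Matrix ι ι ℝ) (m h : ℕ)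
  (δ : ℝ), Mᵀ = M → Con 1 M → 0 < δ → δ ≤ 1 → (h : ℝ) / δ ^ 3 ≤ m → Con (δ ^ 2) (KM M m h - M)

/-- KCN: contractions -/
def Stmt_KCN : Prop := ∀ (ι : Type) [Fintype ι] [DecidableEq ι] (M : Matrix ι ι ℝ) (m : ℕ),
  Mᵀ = M → Con 1 M → Con 1 (1 - M * M) ∧ Con 1 ((1 - M * M) ^ m) ∧ Con 1 (1 - (1 - M * M) ^ m)

/-- SMP: sampling a mean of vectors -/
def Stmt_SMP : Prop := ∀ (ι κ : Type) [Fintype ι] [Fintype κ] [Nonempty κ] (f : κ → ι → ℝ) (k : ℕ),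
  ∃ R : Fin k → κ, nsq ((∑ j, f (R j)) - ((k : ℝ) / Fintype.card κ) • ∑ a, f a) ≤
    (k : ℝ) / Fintype.card κ * ∑ a, nsq (f a)

/-- SCH: a nonnegative symmetric matrix with row sums at most 1 is a contraction -/
def Stmt_SCH : Prop := ∀ (ι : Type) [Fintype ι] [DecidableEq ι] (M : Matrix ι ι ℝ), Mᵀ = M →
  (∀ i j, 0 ≤ M i j) → (∀ i, ∑ j, M i j ≤ 1) → Con 1 M

/-- MIN: Minkowski's inequality and convexity of contractions -/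
def Stmt_MIN : Prop :=
  (∀ (ι : Type) [Fintype ι] (x y : ι → ℝ), √(nsq (x + y)) ≤ √(nsq x) + √(nsq y)) ∧
  (∀ (ι κ : Type) [Fintype ι] [DecidableEq ι] (A : Finset κ) (T : κ → Matrix ι ι ℝ),
    (∀ a ∈ A, Con 1 (T a)) → Con 1 ((1 / (A.card : ℝ)) • ∑ a ∈ A, T a)) ∧
  (∀ (ι : Type) [Fintype ι] [DecidableEq ι] (s : ℕ) (T : Fin s → Matrix ι ι ℝ),
    (∀ a, Con 1 (T a)) → Con 1 ((1 / (s : ℝ)) • ∑ a, T a))

/-! ### The matrices of a configuration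

Common hypotheses: `hT : LS T`, `V` a set of points `< n`, every line has at most `L` points of `V`,
`A ⊆ V` is independent. -/

/-- OPA: the matrices `Tm w` are symmetric contractions -/
def Stmt_OPA : Prop := ∀ (T : ℕ → ℕ → ℕ → Bool) (n L : ℕ) (V : Finset ℕ), LS T → 1 ≤ L →
  (∀ v ∈ V, v < n) → (∀ a b, (V.filter fun c => T a b c = true).card ≤ L) →
  ∀ w, (Tm T n V L w)ᵀ = Tm T n V L w ∧ Con 1 (Tm T n V L w)

/-- OPB: the average matrix -/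
def Stmt_OPB : Prop := ∀ (T : ℕ → ℕ → ℕ → Bool) (n L : ℕ) (V A : Finset ℕ), LS T → 1 ≤ L →
  (∀ v ∈ V, v < n) → A ⊆ V → Ind T A → 1 ≤ A.card →
  (2 * (n : ℝ) ≤ L * A.card → ∑ i, ∑ j, Gm T n V L A i j ^ 2 ≤ 1) ∧
  (∀ B ⊆ V, ∀ u : Fin n, (Gm T n V L A *ᵥ ind n B) u =
    if u.val ∈ V then (pairs T B A u.val : ℝ) / (L * A.card) else 0)

/-- EXI: existence of the two samples -/
def Stmt_EXI : Prop := ∀ (T : ℕ → ℕ → ℕ → Bool) (n L : ℕ) (V A : Finset ℕ), LS T → 1 ≤ L →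
  (∀ v ∈ V, v < n) → (∀ a b, (V.filter fun c => T a b c = true).card ≤ L) →
  A ⊆ V → Ind T A → 1 ≤ A.card → 2 * (n : ℝ) ≤ L * A.card →
  ∀ (r m s k D : ℕ), 1 ≤ r → n ≤ 2 ^ r → 1 ≤ D → r * D ^ 3 ≤ m → 128 * r * m ≤ s →
  (8 * m + 1) * D ^ 2 ≤ k →
  ∃ (W : Fin s → ℕ) (R : Fin k → ℕ), (∀ i, W i ∈ A) ∧ (∀ j, R j ∈ A) ∧
    Con (1 / (8 * m)) (Mm T n V L s W - Gm T n V L A) ∧
    nsq (((A.card : ℝ) / k) • (KM (Mm T n V L s W) m r *ᵥ mul1 n k R) -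
      Gm T n V L A *ᵥ ind n A) ≤ 9 / (D : ℝ) ^ 2 * A.card

end Pool.Agent.Work.MP_a23c49_sub
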