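import Pool.Agent.Work.MP_a23c49_sub.DefsB
import Pool.Agent.Work.MP_a23c49_sub.Interface1
import Pool.Agent.Work.MP_a23c49_lc.AlgPoly

/-!
# Interface 2: rounding, pruning, hashing, decoding, polynomial time
-/

namespace Pool.Agent.Work.MP_a23c49_sub

open Matrix Finset
open Pool.Agent.Work.MP_a23c49_lc (LS Ind prune grd lg TL)
open Pool.Agent.Work.TMLib (DE PolyF)

/-- the vector represented by a pair of lists, in multiples of `1 / N` -/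
noncomputable def val (n N : ℕ) (s : List ℕ × List ℕ) : Fin n → ℝ :=
  fun u => ((s.1.getD u.val 0 : ℝ) - s.2.getD u.val 0) / N

/-- `mul` is multiplication with `M`, rounded down -/
def Appr {n : ℕ} (M : Matrix (Fin n) (Fin n) ℝ) (mul : List ℕ → List ℕ) : Prop :=
  ∀ (z : List ℕ) (u : Fin n), ((mul z).getD u.val 0 : ℝ) ≤ (M *ᵥ fun v => (z.getD v.val 0 : ℝ)) u ∧
    (M *ᵥ fun v => (z.getD v.val 0 : ℝ)) u ≤ (mul z).getD u.val 0 + 1

/-- RND1: one step -/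
def Stmt_RND1 : Prop := ∀ (n N cap : ℕ) (M : Matrix (Fin n) (Fin n) ℝ) (mul : List ℕ → List ℕ)
  (s : List ℕ × List ℕ), Con 1 M → Appr M mul → 0 < N →
  N * √(nsq ((1 - M * M) *ᵥ val n N s)) + 4 * √n ≤ cap →
  √(nsq (val n N (stepL mul cap n s) - (1 - M * M) *ᵥ val n N s)) ≤ 4 * √n / N

/-- RND2: one level -/
def Stmt_RND2 : Prop := ∀ (n N cap m : ℕ) (M : Matrix (Fin n) (Fin n) ℝ) (mul : List ℕ → List ℕ)
  (s : List ℕ × List ℕ), Mᵀ = M → Con 1 M → Appr M mul → 0 < N →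
  N * √(nsq (val n N s)) + 4 * m * √n ≤ cap →
  √(nsq (val n N (levL mul cap n m s) - (1 - (1 - M * M) ^ m) *ᵥ val n N s)) ≤ 4 * m * √n / N

/-- RND: the whole iteration and the final multiplication -/
def Stmt_RND : Prop := ∀ (n N cap m h : ℕ) (M : Matrix (Fin n) (Fin n) ℝ) (mul : List ℕ → List ℕ)
  (s : List ℕ × List ℕ), Mᵀ = M → Con 1 M → Appr M mul → 0 < N →
  N * √(nsq (val n N s)) + 4 * m * h * √n ≤ cap →
  √(nsq (val n N (mul (smL mul cap n m h s).1, mul (smL mul cap n m h s).2) -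
    KM M m h *ᵥ val n N s)) ≤ (4 * m * h + 2) * √n / N

/-- APR: the list multiplication approximates the sample matrix -/
def Stmt_APR : Prop := ∀ (T : ℕ → ℕ → ℕ → Bool) (n L s : ℕ) (V : List ℕ) (W : Fin s → ℕ),
  LS T → V.Nodup → (∀ v ∈ V, v < n) → 1 ≤ L → 1 ≤ s →
  Appr (Mm T n V.toFinset L s W) (mulL T n V (List.ofFn W) (s * L)) ∧
  ∀ (B : List ℕ), B.Nodup → (∀ v ∈ B, v ∈ V) → ∀ u : Fin n, u.val ∈ V →
    (Mm T n V.toFinset L s W *ᵥ ind n B.toFinset) u =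
      (cnt T B (List.ofFn W) (lv n fun _ => 1) u.val : ℝ) / (s * L)

/-- PRU: the three prunings -/
def Stmt_PRU : Prop := ∀ (T : ℕ → ℕ → ℕ → Bool) (n L : ℕ) (V A B1 B2 B3 : Finset ℕ)
  (y q : ℕ → ℝ) (δ ε θ2 θ3 : ℝ), LS T → 1 ≤ L → (∀ v ∈ V, v < n) → A ⊆ V → Ind T A → 1 ≤ A.card →
  0 < δ → 0 ≤ ε → ε ≤ θ2 → 0 < θ2 → 0 < θ3 →
  ∑ u ∈ V, (y u - (pairs T A A u : ℝ) / (L * A.card)) ^ 2 ≤ δ ^ 2 * A.card →
  (∀ u, u ∈ B1 ↔ u ∈ V ∧ y u ≤ 4 * δ) →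
  ∑ u ∈ V, (q u - (pairs T B1 A u : ℝ) / (L * A.card)) ^ 2 ≤ ε ^ 2 * n →
  (∀ u, u ∈ B2 ↔ u ∈ B1 ∧ q u ≤ θ2) →
  (∀ u, u ∈ B3 ↔ u ∈ B2 ∧ (pairs T B2 B2 u : ℝ) ≤ θ3) →
  (A.card : ℝ) / 16 + 10 * δ * n / θ2 + 4 * ε ^ 2 * n / θ2 ^ 2 + 2 * L * A.card * θ2 * n / θ3 ≤
    A.card / 2 →
  (A.card : ℝ) ≤ 2 * (A ∩ B3).card

/-- HSH: hashing -/
def Stmt_HSH : Prop := ∀ (T : ℕ → ℕ → ℕ → Bool) (p J : ℕ) (B : Finset ℕ) (θ : ℝ), LS T → p.Prime →
  J ≤ p → (∀ v ∈ B, v < p) → (∀ u ∈ B, (pairs T B B u : ℝ) ≤ θ) →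
  ∃ a < p, ∃ b < p, ∃ c < p,
    (B.card : ℝ) * ((J : ℝ) / p) - B.card * θ * ((J : ℝ) / p) ^ 3 ≤
      (((B.filter fun u => (a * (u * u) + b * u + c) % p < J).filter fun u =>
        pairs T (B.filter fun u => (a * (u * u) + b * u + c) % p < J)
          (B.filter fun u => (a * (u * u) + b * u + c) % p < J) u = 0).card : ℝ)

/-- DEC: every list of numbers is decoded from the binary digits of a number -/
def Stmt_DEC : Prop := ∀ (b cap : ℕ) (g : List ℕ), 2 ≤ b → (∀ x ∈ g, x < 2 ^ b ∧ x ≤ cap) →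
  ∃ i < 2 ^ (b * g.length + 1), nums b cap i.bits = g

/-- INV: the output is always independent -/
def Stmt_INV : Prop := ∀ (T : ℕ → ℕ → ℕ → Bool) (n : ℕ), LS T →
  (∀ g, (core T n g).Nodup ∧ Ind T (core T n g).toFinset ∧ ∀ v ∈ core T n g, v < n) ∧
  (∀ t, (dalg T n t).Nodup ∧ Ind T (dalg T n t).toFinset ∧ (∀ v ∈ dalg T n t, v < n) ∧
    (grd T (List.range n)).length ≤ (dalg T n t).length ∧
    ∀ i < t, (grd T ((List.range n).filter fun u => memb u (nums (ell n + 1) (4 * n) i.bits))).length ≤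
        (dalg T n t).length ∧
      (core T n (nums (ell n + 1) (4 * n) i.bits)).length ≤ (dalg T n t).length)

/-- INM: the output consists of numbers `< n`, for arbitrary `T` -/
def Stmt_INM : Prop := ∀ (T : ℕ → ℕ → ℕ → Bool) (n t : ℕ), ∀ v ∈ dalg T n t, v < n

/-! ### Polynomial time -/

/-- PDM: division, remainder, minimum, powers with constant exponent -/
def Stmt_PDM : Prop :=
  (∀ (α : Type) [DE α] (f g : α → ℕ), PolyF f → PolyF g → PolyF (fun x => f x / g x)) ∧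
  (∀ (α : Type) [DE α] (f g : α → ℕ), PolyF f → PolyF g → PolyF (fun x => f x % g x)) ∧
  (∀ (α : Type) [DE α] (f g : α → ℕ), PolyF f → PolyF g → PolyF (fun x => min (f x) (g x))) ∧
  (∀ (α : Type) [DE α] (f : α → ℕ) (k : ℕ), PolyF f → PolyF (fun x => f x ^ k)) ∧
  (∀ (α : Type) [DE α] (u : α → ℕ) (V : α → List ℕ), PolyF u → PolyF V →
    PolyF (fun x => memb (u x) (V x)))

/-- PML: the list multiplication -/
def Stmt_PML : Prop := ∀ (α : Type) [DE α] (L : α → List (ℕ × ℕ × ℕ)) (n d : α → ℕ)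
  (V W z : α → List ℕ), PolyF L → PolyF n → PolyF V → PolyF W → PolyF d → PolyF z →
  PolyF (fun x => mulL (TL (L x)) (n x) (V x) (W x) (d x) (z x))

/-- PSM: the smoothing iteration -/
def Stmt_PSM : Prop := ∀ (α : Type) [DE α] (L : α → List (ℕ × ℕ × ℕ)) (n d cap m h : α → ℕ)
  (V W : α → List ℕ) (s : α → List ℕ × List ℕ), PolyF L → PolyF n → PolyF V → PolyF W → PolyF d →
  PolyF cap → PolyF m → PolyF h → PolyF s →
  PolyF (fun x => smL (mulL (TL (L x)) (n x) (V x) (W x) (d x)) (cap x) (n x) (m x) (h x) (s x))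

/-- PCR: the procedure for a guess -/
def Stmt_PCR : Prop := PolyF (fun p : List (ℕ × ℕ × ℕ) × ℕ × List ℕ => core (TL p.1) p.2.1 p.2.2)

/-- PNM: decoding -/
def Stmt_PNM : Prop := ∀ (α : Type) [DE α] (b cap : α → ℕ) (ω : α → List Bool), PolyF b → PolyF cap →
  PolyF ω → PolyF (fun x => nums (b x) (cap x) (ω x))

/-- PDA: the deterministic procedure -/
def Stmt_PDA : Prop := PolyF (fun p : List (ℕ × ℕ × ℕ) × ℕ × ℕ => dalg (TL p.1) p.2.1 p.2.2)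

/-! ### The performance -/

/-- COR: a good guess exists when the optimum is large -/
def Stmt_COR : Prop := ∀ (T : ℕ → ℕ → ℕ → Bool) (n Δ : ℕ) (O : Finset ℕ), LS T →
  (∀ a b c, T a b c = true → a < n ∧ b < n) → Ind T O → (∀ v ∈ O, v < n) → 1 ≤ Δ → 3 ≤ n →
  (n : ℝ) ≤ Δ ^ 2 * O.card → 7 + ps n Δ + pk n Δ ≤ n →
  ∃ g : List ℕ, g.length = 7 + ps n Δ + pk n Δ ∧ (∀ x ∈ g, x ≤ 2 * n) ∧
    (3 / 4 : ℝ) * Δ * √n ≤ (core T n g).length

/-- IDX: the ratio of the deterministic procedure -/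
def Stmt_IDX : Prop := ∃ C : ℝ, ∀ (T : ℕ → ℕ → ℕ → Bool) (n t : ℕ) (O : Finset ℕ) (D : ℝ), LS T →
  (∀ a b c, T a b c = true → a < n ∧ b < n) → Ind T O → (∀ v ∈ O, v < n) → 3 ≤ n → 1 ≤ D →
  Real.exp (C * D ^ 50 * Real.log n ^ 3) ≤ t →
  (O.card : ℝ) ≤ max 1 (√n / D) * (dalg T n t).length

end Pool.Agent.Work.MP_a23c49_sub
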