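import Pool.Agent.Work.MP_a23c49_lc.Main
import Pool.Agent.Work.MP_a23c49_sub.Interface2

/-!
# The machine and the main theorem, from the statements of the blocks
-/

namespace Pool.Agent.Work.MP_a23c49_sub

open Finset
open Pool.Agent.Work.MP_a23c49_lc (LS Ind prune grd lg TL encPoints encInput MG GenPos parse table rawP
  RP TS at' TS_iff TS_LS transfer exists_MG at'_inj at'_mem col3_iff encR encR_raw parse_enc)
open Pool.Agent.Work.TMLib

/-- encoding of a list of rational points and a number in unary: the points, the mark `4`, the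
symbol `1` repeated -/
def encUnary (x : List (ℚ × ℚ) × ℕ) : List (Fin 5) :=
  encPoints x.1 ++ [4] ++ List.replicate x.2 1

theorem encUnary_eq (x : List (ℚ × ℚ) × ℕ) :
    encUnary x = encInput (x.1, List.replicate x.2 true) := by
  unfold encUnary encInput
  simp

/-- the function computed by the machine, on strings -/
def theG2 (w : List (Fin 5)) : List (Fin 5) :=
  (dalg (TL (table (parse w).2.2.2.1)) (parse w).2.2.2.1.length
    (parse w).2.2.2.2.length).flatMap fun i => encR ((parse w).2.2.2.1.getD i [])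

theorem polyF_theG2 (hPDA : Stmt_PDA) : PolyF (fun w : List (Fin 5) => theG2 w) := by
  have hp : PolyF (fun w : List (Fin 5) => (parse w).2.2.2.1) := by
    have := MP_a23c49_lc.PolyF.parse
    fun_prop
  have ho : PolyF (fun w : List (Fin 5) => (parse w).2.2.2.2) := by
    have := MP_a23c49_lc.PolyF.parse
    fun_prop
  have ht : PolyF (fun w : List (Fin 5) => table (parse w).2.2.2.1) :=
    PolyF.comp (f := fun P : List RP => table P)
      (g := fun w : List (Fin 5) => (parse w).2.2.2.1) MP_a23c49_lc.PolyF.table hp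
  unfold theG2
  refine PolyF.flatMap (l := fun w => dalg (TL (table (parse w).2.2.2.1))
    (parse w).2.2.2.1.length (parse w).2.2.2.2.length)
    (f := fun w i => encR ((parse w).2.2.2.1.getD i [])) ?_ ?_
  · exact PolyF.comp (f := fun p : List (ℕ × ℕ × ℕ) × ℕ × ℕ => dalg (TL p.1) p.2.1 p.2.2)
      (g := fun w : List (Fin 5) => (table (parse w).2.2.2.1, (parse w).2.2.2.1.length,
        (parse w).2.2.2.2.length)) hPDA (by fun_prop)
  · have hp2 : PolyF (fun p : List (Fin 5) × ℕ => (parse p.1).2.2.2.1) :=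
      PolyF.comp (f := fun w : List (Fin 5) => (parse w).2.2.2.1)
        (g := fun p : List (Fin 5) × ℕ => p.1) hp (by fun_prop)
    exact PolyF.comp (f := fun r : RP => encR r)
      (g := fun p : List (Fin 5) × ℕ => (parse p.1).2.2.2.1.getD p.2 [])
      MP_a23c49_lc.PolyF.encR (by fun_prop)

/-- the algorithm -/
def theA2 (x : List (ℚ × ℚ) × ℕ) : List (ℚ × ℚ) :=
  (dalg (TL (table (x.1.map rawP))) x.1.length x.2).map fun i => x.1.getD i (0, 0)

theorem polyTime_theA2 (hINM : Stmt_INM) (hPDA : Stmt_PDA) :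
    PolyTime encUnary encPoints theA2 := by
  refine PolyTime.of_PolyF (Equiv.refl (Fin 5)) (Equiv.refl (Fin 5)) (polyF_theG2 hPDA) fun x => ?_
  have e1 : (encUnary x).map (Equiv.refl (Fin 5)) = encUnary x := by simp
  have e2 : (encPoints (theA2 x)).map (Equiv.refl (Fin 5)) = encPoints (theA2 x) := by simp
  rw [e1, e2, encUnary_eq]
  unfold theG2
  rw [parse_enc]
  simp only [List.length_map, List.length_replicate]
  unfold encPoints theA2
  rw [List.flatMap_map]
  apply List.flatMap_congr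
  intro i hi
  have hi' := hINM _ _ _ i hi
  have e3 : (x.1.map rawP).getD i [] = rawP (x.1.getD i (0, 0)) := by
    rw [List.getD_eq_getElem _ _ (by simpa using hi'), List.getD_eq_getElem _ _ hi',
      List.getElem_map]
  rw [e3, encR_raw]

theorem theA2_facts (hINV : Stmt_INV) {S : List (ℚ × ℚ)} (hS : S.Nodup) (t : ℕ) :
    (theA2 (S, t)).Nodup ∧ (theA2 (S, t)).toFinset ⊆ S.toFinset ∧
      GenPos (theA2 (S, t)).toFinset := by
  obtain ⟨h1, h2, h3, -⟩ := (hINV (TS S) S.length (TS_LS hS)).2 t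
  have e : theA2 (S, t) = (dalg (TS S) S.length t).map (at' S) := rfl
  rw [e]
  set A := dalg (TS S) S.length t with hA
  refine ⟨?_, ?_, ?_⟩
  · refine List.Nodup.map_on ?_ h1
    intro i hi j hj h
    exact at'_inj hS (h3 i hi) (h3 j hj) h
  · intro p hp
    rw [List.mem_toFinset, List.mem_map] at hp
    obtain ⟨i, hi, rfl⟩ := hp
    exact List.mem_toFinset.mpr (at'_mem (h3 i hi))
  · intro p hp q hq r hr hpq hqr hpr hc
    rw [List.mem_toFinset, List.mem_map] at hp hq hr
    obtain ⟨i, hi, rfl⟩ := hp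
    obtain ⟨j, hj, rfl⟩ := hq
    obtain ⟨k, hk, rfl⟩ := hr
    have h4 : TS S i j k = true := by
      rw [TS_iff]
      refine ⟨⟨h3 i hi, h3 j hj, h3 k hk⟩, ⟨?_, ?_, ?_⟩, (col3_iff hpq).mp hc⟩
      · rintro rfl; exact hpq rfl
      · rintro rfl; exact hqr rfl
      · rintro rfl; exact hpr rfl
    rw [h2 i (List.mem_toFinset.mpr hi) j (List.mem_toFinset.mpr hj) k
      (List.mem_toFinset.mpr hk)] at h4
    cases h4

/-- the main theorem, from the statements of the blocks -/
theorem main_of (hINV : Stmt_INV) (hINM : Stmt_INM) (hPDA : Stmt_PDA) (hIDX : Stmt_IDX) :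
    ∃ (A : List (ℚ × ℚ) × ℕ → List (ℚ × ℚ)) (C : ℝ),
      PolyTime encUnary encPoints A ∧
      (∀ (S : List (ℚ × ℚ)) (t : ℕ), S.Nodup → (A (S, t)).Nodup ∧
        (A (S, t)).toFinset ⊆ S.toFinset ∧ GenPos (A (S, t)).toFinset) ∧
      ∀ (S : List (ℚ × ℚ)) (t : ℕ) (D : ℝ), S.Nodup → 3 ≤ S.length → 1 ≤ D →
        Real.exp (C * D ^ 50 * Real.log S.length ^ 3) ≤ t →
        (MG S.toFinset : ℝ) ≤ max 1 (√S.length / D) * (A (S, t)).length := by
  obtain ⟨C, hC⟩ := hIDX
  refine ⟨theA2, C, polyTime_theA2 hINM hPDA, fun S t hS => theA2_facts hINV hS t,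
    fun S t D hS hn hD ht => ?_⟩
  obtain ⟨O, hOS, hO, hc⟩ := exists_MG S.toFinset
  obtain ⟨O', hO', hO'S, hc'⟩ := transfer hS hOS hO
  have h1 := hC (TS S) S.length t O' D (TS_LS hS) (by
      intro a b c h
      rw [TS_iff] at h
      exact ⟨h.1.1, h.1.2.1⟩) hO'
    (fun v hv => List.mem_range.mp (List.mem_toFinset.mp (hO'S hv))) hn hD ht
  have e : (theA2 (S, t)).length = (dalg (TS S) S.length t).length := List.length_map _
  rw [e, ← hc, ← hc']
  exact h1

end Pool.Agent.Work.MP_a23c49_sub
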