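import Pool.Agent.Work.MP_a23c49_sub.B_APR
import Pool.Agent.Work.MP_a23c49_sub.B_CNC
import Pool.Agent.Work.MP_a23c49_sub.B_COR
import Pool.Agent.Work.MP_a23c49_sub.B_DEC
import Pool.Agent.Work.MP_a23c49_sub.B_EIG
import Pool.Agent.Work.MP_a23c49_sub.B_EVB
import Pool.Agent.Work.MP_a23c49_sub.B_EXI
import Pool.Agent.Work.MP_a23c49_sub.B_HSH
import Pool.Agent.Work.MP_a23c49_sub.B_IDX
import Pool.Agent.Work.MP_a23c49_sub.B_INV
import Pool.Agent.Work.MP_a23c49_sub.B_KAP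
import Pool.Agent.Work.MP_a23c49_sub.B_KCN
import Pool.Agent.Work.MP_a23c49_sub.B_KFB
import Pool.Agent.Work.MP_a23c49_sub.B_KSP
import Pool.Agent.Work.MP_a23c49_sub.B_MIN
import Pool.Agent.Work.MP_a23c49_sub.B_MOM
import Pool.Agent.Work.MP_a23c49_sub.B_OPA
import Pool.Agent.Work.MP_a23c49_sub.B_OPB
import Pool.Agent.Work.MP_a23c49_sub.B_PDM
import Pool.Agent.Work.MP_a23c49_sub.B_PML
import Pool.Agent.Work.MP_a23c49_sub.B_PNM
import Pool.Agent.Work.MP_a23c49_sub.B_PCR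
import Pool.Agent.Work.MP_a23c49_sub.B_PDA
import Pool.Agent.Work.MP_a23c49_sub.B_PRU
import Pool.Agent.Work.MP_a23c49_sub.B_PSM
import Pool.Agent.Work.MP_a23c49_sub.B_RND
import Pool.Agent.Work.MP_a23c49_sub.B_RND1
import Pool.Agent.Work.MP_a23c49_sub.B_RND2
import Pool.Agent.Work.MP_a23c49_sub.B_SCH
import Pool.Agent.Work.MP_a23c49_sub.B_SMP
import Pool.Agent.Work.MP_a23c49_sub.B_TRB
import Pool.Agent.Work.MP_a23c49_sub.B_TRI
import Pool.Agent.Work.MP_a23c49_sub.B_TRY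
import Pool.Agent.Work.MP_a23c49_sub.Main

/-!
# Assembly
-/

namespace Pool.Agent.Work.MP_a23c49_sub

theorem g_EVB : Stmt_EVB := stmt_EVB stmt_NSU
theorem g_TRB : Stmt_TRB := stmt_TRB stmt_EIG stmt_EGP g_EVB
theorem g_TRI : Stmt_TRI := stmt_TRI stmt_EIG stmt_EGP stmt_TRF
theorem g_TRY : Stmt_TRY := stmt_TRY stmt_EIG stmt_EGP
theorem g_MOM : Stmt_MOM := stmt_MOM g_TRI g_TRY
theorem g_CNC : Stmt_CNC := stmt_CNC g_MOM g_TRB
theorem g_KSP : Stmt_KSP := stmt_KSP stmt_EGP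
theorem g_KCN : Stmt_KCN := stmt_KCN stmt_EIG stmt_EGP g_EVB
theorem g_KAP : Stmt_KAP := stmt_KAP stmt_EIG g_EVB g_KSP
theorem g_KFB : Stmt_KFB := stmt_KFB stmt_EIG stmt_NSU g_KSP g_EVB
theorem g_OPA : Stmt_OPA := stmt_OPA stmt_SCH
theorem g_EXI : Stmt_EXI := stmt_EXI g_OPA stmt_OPB g_CNC g_KFB g_KAP stmt_SMP stmt_MIN
theorem g_RND1 : Stmt_RND1 := stmt_RND1 stmt_MIN
theorem g_RND2 : Stmt_RND2 := stmt_RND2 g_RND1 g_KCN stmt_MIN
theorem g_RND : Stmt_RND := stmt_RND g_RND2 g_KCN stmt_MIN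
theorem g_COR : Stmt_COR := stmt_COR g_EXI g_RND stmt_APR stmt_PRU g_OPA stmt_OPB stmt_MIN stmt_HSH
theorem g_PML : Stmt_PML := stmt_PML stmt_PDM
theorem g_PNM : Stmt_PNM := stmt_PNM stmt_PDM

/-- the main theorem -/
theorem main2 :
    ∃ (A : List (ℚ × ℚ) × ℕ → List (ℚ × ℚ)) (C : ℝ),
      Pool.Agent.Work.TMLib.PolyTime encUnary Pool.Agent.Work.MP_a23c49_lc.encPoints A ∧
      (∀ (S : List (ℚ × ℚ)) (t : ℕ), S.Nodup → (A (S, t)).Nodup ∧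
        (A (S, t)).toFinset ⊆ S.toFinset ∧
        Pool.Agent.Work.MP_a23c49_lc.GenPos (A (S, t)).toFinset) ∧
      ∀ (S : List (ℚ × ℚ)) (t : ℕ) (D : ℝ), S.Nodup → 3 ≤ S.length → 1 ≤ D →
        Real.exp (C * D ^ 50 * Real.log S.length ^ 3) ≤ t →
        (Pool.Agent.Work.MP_a23c49_lc.MG S.toFinset : ℝ) ≤
          max 1 (√S.length / D) * (A (S, t)).length :=
  main_of stmt_INV stmt_INM (stmt_PDA (stmt_PCR stmt_PDM g_PML
    (stmt_PSM stmt_PDM g_PML)) g_PNM)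
    (stmt_IDX g_COR stmt_DEC stmt_INV)

end Pool.Agent.Work.MP_a23c49_sub
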